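import Pool.Agent.Lib.MP_56aee0_co.OC.Max

/-!
# OC / AddA : superadditivity of `ednOn`
-/

set_option autoImplicit false

namespace Pool.Agent.Lib.MP_56aee0_co.OC

open Pool.Agent.Lib.MP_56aee0_co

variable {V : Type} [DecidableEq V]

private theorem adda_card {D Z : Finset V} {u v : V} (hu : u ∈ D) (huZ : u ∈ Z) (hvZ : v ∈ Z)
    (hc : (insert v (D.erase u)).card = D.card) :
    (insert v (D.erase u) ∩ Z).card = (D ∩ Z).card := by
  have hpos : 0 < D.card := Finset.card_pos.2 ⟨u, hu⟩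
  have hv : v ∉ D.erase u := by
    intro hv
    rw [Finset.insert_eq_of_mem hv, Finset.card_erase_of_mem hu] at hc
    omega
  have h1 : insert v (D.erase u) ∩ Z = insert v ((D ∩ Z).erase u) := by
    ext x
    simp only [Finset.mem_inter, Finset.mem_insert, Finset.mem_erase]
    constructor
    · rintro ⟨hx | ⟨hx1, hx2⟩, hx3⟩
      · exact Or.inl hx
      · exact Or.inr ⟨hx1, hx2, hx3⟩
    · rintro (hx | ⟨hx1, hx2, hx3⟩)
      · exact ⟨Or.inl hx, hx ▸ hvZ⟩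
      · exact ⟨Or.inr ⟨hx1, hx2⟩, hx3⟩
  have hv' : v ∉ (D ∩ Z).erase u := by
    intro h
    rw [Finset.mem_erase, Finset.mem_inter] at h
    exact hv (Finset.mem_erase.2 ⟨h.1, h.2.1⟩)
  have hu' : u ∈ D ∩ Z := Finset.mem_inter.2 ⟨hu, huZ⟩
  have hpos' : 0 < (D ∩ Z).card := Finset.card_pos.2 ⟨u, hu'⟩
  rw [h1, Finset.card_insert_of_notMem hv', Finset.card_erase_of_mem hu']
  omega

private theorem adda_same {D Z : Finset V} {u v : V} (huZ : u ∉ Z) (hvZ : v ∉ Z) :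
    insert v (D.erase u) ∩ Z = D ∩ Z := by
  ext x
  simp only [Finset.mem_inter, Finset.mem_insert, Finset.mem_erase]
  constructor
  · rintro ⟨hx | ⟨hx1, hx2⟩, hx3⟩
    · exact absurd (hx ▸ hx3) hvZ
    · exact ⟨hx2, hx3⟩
  · rintro ⟨hx1, hx2⟩
    exact ⟨Or.inr ⟨fun h => huZ (h ▸ hx2), hx1⟩, hx2⟩

/-- Take the family `F` of `ednOn_exists Γ (Z1 ∪ Z2)`. Since a vertex of `Z1` is neither equal nor adjacent to a vertex
of `Z2`, attacks in `Z1` are answered in `Z1` and attacks in `Z2` in `Z2`; the number of guards in `Z1` does not change.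
Fix `D0 ∈ F`, let `F0` be the states with the same number `c` of guards in `Z1` as `D0`: its traces on `Z1` and on `Z2`
are eternal families with `c` and `k - c` guards (`|D| = |D ∩ Z1| + |D ∩ Z2|`, as `D ⊆ Z1 ∪ Z2`). -/
theorem ednOn_add_le {Γ : SimpleGraph V} {Z1 Z2 : Finset V}
    (hd : ∀ p ∈ Z1, ∀ q ∈ Z2, p ≠ q ∧ ¬ Γ.Adj p q) :
    ednOn Γ Z1 + ednOn Γ Z2 ≤ ednOn Γ (Z1 ∪ Z2) := by
  obtain ⟨F, ⟨D0, hD0⟩, hF⟩ := ednOn_exists Γ (Z1 ∪ Z2)
  have hF0c : ∀ D ∈ F, (D ∩ Z1).card = (D0 ∩ Z1).card → (D ∩ Z1).card = (D0 ∩ Z1).card ∧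
      ∀ v ∈ Z1, ∃ u ∈ D ∩ Z1, (u = v ∨ Γ.Adj u v) ∧
        insert v (D.erase u) ∈ {D | D ∈ F ∧ (D ∩ Z1).card = (D0 ∩ Z1).card} := by
    intro D hD hc
    refine ⟨hc, fun v hv => ?_⟩
    obtain ⟨hsub, hcard, hatt⟩ := hF D hD
    obtain ⟨u, hu, huv, hin⟩ := hatt v (Finset.mem_union_left _ hv)
    have hu1 : u ∈ Z1 := by
      rcases Finset.mem_union.1 (hsub hu) with h | h
      · exact h
      · obtain ⟨h1, h2⟩ := hd v hv u h
        rcases huv with huv | huv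
        · exact absurd huv.symm h1
        · exact absurd huv.symm h2
    refine ⟨u, Finset.mem_inter.2 ⟨hu, hu1⟩, huv, hin, ?_⟩
    rw [adda_card hu hu1 hv ((hF _ hin).2.1.trans hcard.symm), hc]
  have hF0d : ∀ D ∈ F, (D ∩ Z1).card = (D0 ∩ Z1).card →
      (D ∩ Z2).card = ednOn Γ (Z1 ∪ Z2) - (D0 ∩ Z1).card ∧
      ∀ v ∈ Z2, ∃ u ∈ D ∩ Z2, (u = v ∨ Γ.Adj u v) ∧
        insert v (D.erase u) ∈ {D | D ∈ F ∧ (D ∩ Z1).card = (D0 ∩ Z1).card} := by
    intro D hD hc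
    obtain ⟨hsub, hcard, hatt⟩ := hF D hD
    refine ⟨?_, fun v hv => ?_⟩
    · have h1 : D = (D ∩ Z1) ∪ (D ∩ Z2) := by
        rw [← Finset.inter_union_distrib_left]
        exact (Finset.inter_eq_left.2 hsub).symm
      have h2 : Disjoint (D ∩ Z1) (D ∩ Z2) := by
        rw [Finset.disjoint_left]
        intro x hx1 hx2
        exact (hd x (Finset.mem_inter.1 hx1).2 x (Finset.mem_inter.1 hx2).2).1 rfl
      have h3 := Finset.card_union_of_disjoint h2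
      rw [← h1, hcard, hc] at h3
      omega
    · obtain ⟨u, hu, huv, hin⟩ := hatt v (Finset.mem_union_right _ hv)
      have hv1 : v ∉ Z1 := fun h => (hd v h v hv).1 rfl
      have hu2 : u ∈ Z2 := by
        rcases Finset.mem_union.1 (hsub hu) with h | h
        · obtain ⟨h1, h2⟩ := hd u h v hv
          rcases huv with huv | huv
          · exact absurd huv h1
          · exact absurd huv h2
        · exact h
      have hu1 : u ∉ Z1 := fun h => (hd u h u hu2).1 rfl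
      refine ⟨u, Finset.mem_inter.2 ⟨hu, hu2⟩, huv, hin, ?_⟩
      rw [adda_same hu1 hv1, hc]
  have hE1 := et_of_closed (Γ := Γ) (Z := Z1)
    (F1 := {D | D ∈ F ∧ (D ∩ Z1).card = (D0 ∩ Z1).card}) (c := (D0 ∩ Z1).card)
    fun D hD => hF0c D hD.1 hD.2
  have hE2 := et_of_closed (Γ := Γ) (Z := Z2)
    (F1 := {D | D ∈ F ∧ (D ∩ Z1).card = (D0 ∩ Z1).card})
    (c := ednOn Γ (Z1 ∪ Z2) - (D0 ∩ Z1).card) fun D hD => hF0d D hD.1 hD.2
  have h1 := ednOn_le (F := {Y | ∃ D ∈ {D | D ∈ F ∧ (D ∩ Z1).card = (D0 ∩ Z1).card}, Y = D ∩ Z1}) ⟨D0 ∩ Z1, D0, ⟨hD0, rfl⟩, rfl⟩ hE1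
  have h2 := ednOn_le (F := {Y | ∃ D ∈ {D | D ∈ F ∧ (D ∩ Z1).card = (D0 ∩ Z1).card}, Y = D ∩ Z2}) ⟨D0 ∩ Z2, D0, ⟨hD0, rfl⟩, rfl⟩ hE2
  have h3 : (D0 ∩ Z1).card ≤ ednOn Γ (Z1 ∪ Z2) := by
    rw [← (hF D0 hD0).2.1]
    exact Finset.card_le_card Finset.inter_subset_left
  omega

/-- induction over the finset `O` with `ednOn_add_le` -/
theorem sum_ednOn_le {ι : Type} [DecidableEq ι] {Γ : SimpleGraph V} (O : Finset ι) (Z : ι → Finset V)
    (hd : ∀ i ∈ O, ∀ j ∈ O, i ≠ j → ∀ p ∈ Z i, ∀ q ∈ Z j, p ≠ q ∧ ¬ Γ.Adj p q) :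
    ∑ i ∈ O, ednOn Γ (Z i) ≤ ednOn Γ (O.biUnion Z) := by
  induction O using Finset.induction_on with
  | empty =>
    rw [Finset.sum_empty]
    exact Nat.zero_le _
  | insert a s ha ih =>
    rw [Finset.sum_insert ha, Finset.biUnion_insert]
    have h1 := ih fun i hi j hj => hd i (Finset.mem_insert_of_mem hi) j
      (Finset.mem_insert_of_mem hj)
    have h2 := ednOn_add_le (Γ := Γ) (Z1 := Z a) (Z2 := s.biUnion Z) fun p hp q hq => by
      obtain ⟨j, hj, hqj⟩ := Finset.mem_biUnion.1 hq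
      exact hd a (Finset.mem_insert_self a s) j (Finset.mem_insert_of_mem hj)
        (fun h => ha (h ▸ hj)) p hp q hqj
    omega

/-- a state of an eternal family for the independent region `E` contains every vertex of `E`
(attack it: the answer is a guard of `E` equal or adjacent to it) -/
theorem card_le_ednOn_of_indep {Γ : SimpleGraph V} {E : Finset V}
    (h : ∀ p ∈ E, ∀ q ∈ E, ¬ Γ.Adj p q) : E.card ≤ ednOn Γ E := by
  obtain ⟨F, ⟨D, hD⟩, hF⟩ := ednOn_exists Γ E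
  obtain ⟨hsub, hcard, hatt⟩ := hF D hD
  rw [← hcard]
  refine Finset.card_le_card fun v hv => ?_
  obtain ⟨u, hu, huv, _⟩ := hatt v hv
  rcases huv with huv | huv
  · exact huv ▸ hu
  · exact absurd huv (h u (hsub hu) v hv)

/-- `ednOn_exists Γ S`, `exists_max_closed` for `Z`, `et_of_closed`; the number `c` is at most `k` -/
theorem ednOn_mono {Γ : SimpleGraph V} {Z S : Finset V} (h : Z ⊆ S) : ednOn Γ Z ≤ ednOn Γ S := by
  obtain ⟨F, h0, hF⟩ := ednOn_exists Γ S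
  obtain ⟨F1, hsub, hne, c, hc⟩ := exists_max_closed (Γ := Γ) (Z := Z) (F := F)
    (k := ednOn Γ S) (fun D hD => ⟨(hF D hD).2.1, fun v hv => (hF D hD).2.2 v (h hv)⟩) h0
  obtain ⟨D, hD⟩ := hne
  have h1 := ednOn_le (F := {Y | ∃ D ∈ F1, Y = D ∩ Z}) ⟨D ∩ Z, D, hD, rfl⟩ (et_of_closed hc)
  refine h1.trans ?_
  rw [← (hc D hD).1, ← (hF D (hsub hD)).2.1]
  exact Finset.card_le_card Finset.inter_subset_left

end Pool.Agent.Lib.MP_56aee0_co.OC
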