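import Pool.Agent.Lib.MP_56aee0_co.OC.Max

/-!
# OC / AddB : subadditivity of `ednOn`
-/

set_option autoImplicit false

namespace Pool.Agent.Lib.MP_56aee0_co.OC

open Pool.Agent.Lib.MP_56aee0_co

variable {V : Type} [DecidableEq V]

/-- the unions `D1 ∪ D2` of the states of eternal families of `S1` and of `S2` -/
theorem ednOn_union_le {Γ : SimpleGraph V} {S1 S2 : Finset V} (hd : Disjoint S1 S2) :
    ednOn Γ (S1 ∪ S2) ≤ ednOn Γ S1 + ednOn Γ S2 := by
  obtain ⟨F1, ⟨A1, hA1⟩, h1⟩ := ednOn_exists Γ S1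
  obtain ⟨F2, ⟨A2, hA2⟩, h2⟩ := ednOn_exists Γ S2
  refine ednOn_le (F := {D | ∃ D1 ∈ F1, ∃ D2 ∈ F2, D = D1 ∪ D2}) ⟨_, A1, hA1, A2, hA2, rfl⟩ ?_
  rintro D ⟨D1, hD1, D2, hD2, rfl⟩
  obtain ⟨a1, b1, c1⟩ := h1 D1 hD1
  obtain ⟨a2, b2, c2⟩ := h2 D2 hD2
  have hdis : Disjoint D1 D2 := Finset.disjoint_of_subset_left a1 (Finset.disjoint_of_subset_right a2 hd)
  refine ⟨Finset.union_subset_union a1 a2, ?_, fun v hv => ?_⟩
  · rw [Finset.card_union_of_disjoint hdis, b1, b2]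
  · rcases Finset.mem_union.1 hv with hv | hv
    · obtain ⟨u, hu, huv, hF⟩ := c1 v hv
      refine ⟨u, Finset.mem_union_left _ hu, huv, _, hF, D2, hD2, ?_⟩
      have hu2 : u ∉ D2 := fun h => Finset.disjoint_left.1 hdis hu h
      ext x
      simp only [Finset.mem_insert, Finset.mem_erase, Finset.mem_union]
      constructor
      · rintro (h | ⟨h, h' | h'⟩)
        · exact Or.inl (Or.inl h)
        · exact Or.inl (Or.inr ⟨h, h'⟩)
        · exact Or.inr h'
      · rintro ((h | ⟨h, h'⟩) | h)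
        · exact Or.inl h
        · exact Or.inr ⟨h, Or.inl h'⟩
        · refine Or.inr ⟨?_, Or.inr h⟩
          rintro rfl
          exact hu2 h
    · obtain ⟨u, hu, huv, hF⟩ := c2 v hv
      refine ⟨u, Finset.mem_union_right _ hu, huv, D1, hD1, _, hF, ?_⟩
      have hu2 : u ∉ D1 := fun h => Finset.disjoint_left.1 hdis h hu
      ext x
      simp only [Finset.mem_insert, Finset.mem_erase, Finset.mem_union]
      constructor
      · rintro (h | ⟨h, h' | h'⟩)
        · exact Or.inr (Or.inl h)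
        · exact Or.inl h'
        · exact Or.inr (Or.inr ⟨h, h'⟩)
      · rintro (h | (h | ⟨h, h'⟩))
        · refine Or.inr ⟨?_, Or.inl h⟩
          rintro rfl
          exact hu2 h
        · exact Or.inl h
        · exact Or.inr ⟨h, Or.inr h'⟩

theorem ednOn_le_card (Γ : SimpleGraph V) (S : Finset V) : ednOn Γ S ≤ S.card := by
  refine ednOn_le (F := {S}) ⟨S, rfl⟩ ?_
  rintro D rfl
  refine ⟨Finset.Subset.refl _, rfl, fun v hv => ⟨v, hv, Or.inl rfl, ?_⟩⟩
  rw [Set.mem_singleton_iff, Finset.insert_erase hv]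

/-- one guard for a clique (if `K` is empty, the family `{∅}` with `0` guards) -/
theorem ednOn_clique_le_one {Γ : SimpleGraph V} {K : Finset V}
    (h : ∀ p ∈ K, ∀ q ∈ K, p ≠ q → Γ.Adj p q) : ednOn Γ K ≤ 1 := by
  rcases K.eq_empty_or_nonempty with rfl | ⟨p, hp⟩
  · exact (ednOn_le_card Γ ∅).trans (by rw [Finset.card_empty]; exact zero_le_one)
  · refine ednOn_le (F := {D | ∃ p ∈ K, D = {p}}) ⟨{p}, p, hp, rfl⟩ ?_
    rintro D ⟨q, hq, rfl⟩
    refine ⟨Finset.singleton_subset_iff.2 hq, Finset.card_singleton q, fun v hv => ?_⟩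
    refine ⟨q, Finset.mem_singleton_self q, ?_, v, hv, ?_⟩
    · by_cases hqv : q = v
      · exact Or.inl hqv
      · exact Or.inr (h q hq v hv hqv)
    · ext x
      simp only [Finset.mem_insert, Finset.mem_erase, Finset.mem_singleton]
      constructor
      · rintro (h1 | ⟨h1, h2⟩)
        · exact h1
        · exact absurd h2 h1
      · exact Or.inl

theorem edn_eq_ednOn [Fintype V] (Γ : SimpleGraph V) : edn Γ = ednOn Γ Finset.univ := by
  have e : ({k : ℕ | ∃ F : Set (Finset V), F.Nonempty ∧ ∀ D ∈ F, D.card = k ∧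
      ∀ v : V, ∃ u ∈ D, (u = v ∨ Γ.Adj u v) ∧ insert v (D.erase u) ∈ F}) =
      {k : ℕ | ∃ F : Set (Finset V), F.Nonempty ∧ Et Γ Finset.univ F k} := by
    ext k
    constructor
    · rintro ⟨F, h0, h⟩
      exact ⟨F, h0, fun D hD => ⟨Finset.subset_univ _, (h D hD).1, fun v _ => (h D hD).2 v⟩⟩
    · rintro ⟨F, h0, h⟩
      exact ⟨F, h0, fun D hD => ⟨(h D hD).2.1, fun v => (h D hD).2.2 v (Finset.mem_univ v)⟩⟩
  unfold edn ednOn
  rw [e]

end Pool.Agent.Lib.MP_56aee0_co.OC
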