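import Mathlib
import Pool.Agent.Lib.MP_56aee0_co.Edn

/-!
# Eternal domination of regions: definitions

`Et Γ S F k`: `F` is a family of `k`-subsets of the region `S`; every attack on a vertex of `S` is answered inside `F`
(so by a guard in `S`). `ednOn Γ S`: the least number of guards for the region `S`.
`nb Γ Z D`: the guards of `D` which stand on a vertex of `Z` or next to a vertex of `Z`.
-/

set_option autoImplicit false

namespace Pool.Agent.Lib.MP_56aee0_co.OC

open Pool.Agent.Lib.MP_56aee0_co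

variable {V : Type} [DecidableEq V]

/-- `F` is an eternal family with `k` guards for the region `S` -/
def Et (Γ : SimpleGraph V) (S : Finset V) (F : Set (Finset V)) (k : ℕ) : Prop :=
  ∀ D ∈ F, D ⊆ S ∧ D.card = k ∧
    ∀ v ∈ S, ∃ u ∈ D, (u = v ∨ Γ.Adj u v) ∧ insert v (D.erase u) ∈ F

/-- eternal domination number of the region `S` -/
noncomputable def ednOn (Γ : SimpleGraph V) (S : Finset V) : ℕ :=
  sInf {k : ℕ | ∃ F : Set (Finset V), F.Nonempty ∧ Et Γ S F k}

open Classical in
/-- the guards on or next to a vertex of `Z` -/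
noncomputable def nb (Γ : SimpleGraph V) (Z D : Finset V) : Finset V :=
  D.filter fun p => ∃ z ∈ Z, p = z ∨ Γ.Adj p z

open Classical in
theorem mem_nb {Γ : SimpleGraph V} {Z D : Finset V} {p : V} :
    p ∈ nb Γ Z D ↔ p ∈ D ∧ ∃ z ∈ Z, p = z ∨ Γ.Adj p z := by
  unfold nb
  exact Finset.mem_filter

theorem ednOn_le {Γ : SimpleGraph V} {S : Finset V} {F : Set (Finset V)} {k : ℕ}
    (h0 : F.Nonempty) (h : Et Γ S F k) : ednOn Γ S ≤ k :=
  Nat.sInf_le ⟨F, h0, h⟩

theorem ednOn_exists (Γ : SimpleGraph V) (S : Finset V) :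
    ∃ F : Set (Finset V), F.Nonempty ∧ Et Γ S F (ednOn Γ S) := by
  have h : ({k : ℕ | ∃ F : Set (Finset V), F.Nonempty ∧ Et Γ S F k}).Nonempty := by
    refine ⟨S.card, {S}, ⟨_, rfl⟩, ?_⟩
    rintro D rfl
    refine ⟨Finset.Subset.refl _, rfl, fun v hv => ⟨v, hv, Or.inl rfl, ?_⟩⟩
    rw [Set.mem_singleton_iff, Finset.insert_erase hv]
  exact Nat.sInf_mem h

end Pool.Agent.Lib.MP_56aee0_co.OC
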