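import Pool.Agent.Lib.MP_56aee0_co.OC.Base

/-!
# OC / Cyc : the odd cycle `0, 1, …, 2b` and some subsets of its vertices

`Iv b = {0, 2, …, 2b-2}`, `Od b = {3, 5, …, 2b-1}`, `Ev b = {4, 6, …, 2b}`, `Em b = {4, 6, …, 2b-2}`,
`Ip b = {2, 4, …, 2b-2}`; `al b = {0, 2, …, 2b-2} ∪ {1}`, `be b = {0} ∪ {1, 3, …, 2b-1}`, `ga b = {1} ∪ {2, 4, …, 2b}`.
The cardinalities: transfer to `Finset.range (2 * b + 1)` (or map `i ↦ 2 i + c` from `Finset.range`), or use induction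
on `b` for the filters of `Finset.range (2 * b + 1)`.
-/

set_option autoImplicit false

namespace Pool.Agent.Lib.MP_56aee0_co.OC

open Pool.Agent.Lib.MP_56aee0_co

theorem cyc_adj {b : ℕ} (hb : 2 ≤ b) (u v : Fin (2 * b + 1)) :
    (SimpleGraph.cycleGraph (2 * b + 1)).Adj u v ↔
      (u.val + 1 = v.val ∨ v.val + 1 = u.val ∨ (u.val = 0 ∧ v.val = 2 * b) ∨
        (v.val = 0 ∧ u.val = 2 * b)) := by
  rw [SimpleGraph.cycleGraph_adj']
  have hu := u.isLt
  have hv := v.isLt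
  rcases lt_trichotomy u v with h | h | h
  · have h1 : (u - v).val = 2 * b + 1 + u.val - v.val := Fin.coe_sub_iff_lt.2 h
    have h2 : (v - u).val = v.val - u.val := Fin.coe_sub_iff_le.2 h.le
    have h3 : u.val < v.val := h
    rw [h1, h2]
    omega
  · subst h
    have h1 : (u - u).val = u.val - u.val := Fin.coe_sub_iff_le.2 le_rfl
    rw [h1]
    omega
  · have h1 : (v - u).val = 2 * b + 1 + v.val - u.val := Fin.coe_sub_iff_lt.2 h
    have h2 : (u - v).val = u.val - v.val := Fin.coe_sub_iff_le.2 h.le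
    have h3 : v.val < u.val := h
    rw [h1, h2]
    omega

def Iv (b : ℕ) : Finset (Fin (2 * b + 1)) := Finset.univ.filter fun v => v.val % 2 = 0 ∧ v.val < 2 * b
def Od (b : ℕ) : Finset (Fin (2 * b + 1)) := Finset.univ.filter fun v => v.val % 2 = 1 ∧ 3 ≤ v.val
def Ev (b : ℕ) : Finset (Fin (2 * b + 1)) := Finset.univ.filter fun v => v.val % 2 = 0 ∧ 4 ≤ v.val
def Em (b : ℕ) : Finset (Fin (2 * b + 1)) :=
  Finset.univ.filter fun v => v.val % 2 = 0 ∧ 4 ≤ v.val ∧ v.val < 2 * b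
def O5 (b : ℕ) : Finset (Fin (2 * b + 1)) := Finset.univ.filter fun v => v.val % 2 = 1 ∧ 5 ≤ v.val
def Ip (b : ℕ) : Finset (Fin (2 * b + 1)) :=
  Finset.univ.filter fun v => v.val % 2 = 0 ∧ 2 ≤ v.val ∧ v.val < 2 * b
def al (b : ℕ) : Finset (Fin (2 * b + 1)) :=
  Finset.univ.filter fun v => v.val = 1 ∨ (v.val % 2 = 0 ∧ v.val < 2 * b)
def be (b : ℕ) : Finset (Fin (2 * b + 1)) := Finset.univ.filter fun v => v.val = 0 ∨ v.val % 2 = 1
def ga (b : ℕ) : Finset (Fin (2 * b + 1)) :=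
  Finset.univ.filter fun v => v.val = 1 ∨ (v.val % 2 = 0 ∧ 0 < v.val)

private theorem cyc_card {b m c : ℕ} (S : Finset (Fin (2 * b + 1)))
    (h : ∀ v : Fin (2 * b + 1), v ∈ S ↔ ∃ i, i < m ∧ v.val = 2 * i + c)
    (hm : ∀ i, i < m → 2 * i + c < 2 * b + 1) : S.card = m := by
  rw [← Finset.card_range m]
  symm
  refine Finset.card_bij (fun i hi => (⟨2 * i + c, hm i (Finset.mem_range.1 hi)⟩ :
    Fin (2 * b + 1))) ?_ ?_ ?_
  · intro i hi
    rw [h]
    exact ⟨i, Finset.mem_range.1 hi, rfl⟩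
  · intro i hi j hj hij
    have h1 : 2 * i + c = 2 * j + c := congrArg Fin.val hij
    omega
  · intro v hv
    obtain ⟨i, hi, hvi⟩ := (h v).1 hv
    exact ⟨i, Finset.mem_range.2 hi, Fin.ext hvi.symm⟩

theorem card_Iv (b : ℕ) : (Iv b).card = b := by
  refine cyc_card (c := 0) _ (fun v => ?_) (fun i hi => by omega)
  have hv := v.isLt
  unfold Iv
  rw [Finset.mem_filter]
  constructor
  · rintro ⟨-, h⟩
    exact ⟨(v.val - 0) / 2, by omega, by omega⟩
  · rintro ⟨i, hi, h⟩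
    exact ⟨Finset.mem_univ _, by omega⟩

theorem card_Od {b : ℕ} (hb : 2 ≤ b) : (Od b).card = b - 1 := by
  refine cyc_card (c := 3) _ (fun v => ?_) (fun i hi => by omega)
  have hv := v.isLt
  unfold Od
  rw [Finset.mem_filter]
  constructor
  · rintro ⟨-, h⟩
    exact ⟨(v.val - 3) / 2, by omega, by omega⟩
  · rintro ⟨i, hi, h⟩
    exact ⟨Finset.mem_univ _, by omega⟩

theorem card_Ev {b : ℕ} (hb : 2 ≤ b) : (Ev b).card = b - 1 := by
  refine cyc_card (c := 4) _ (fun v => ?_) (fun i hi => by omega)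
  have hv := v.isLt
  unfold Ev
  rw [Finset.mem_filter]
  constructor
  · rintro ⟨-, h⟩
    exact ⟨(v.val - 4) / 2, by omega, by omega⟩
  · rintro ⟨i, hi, h⟩
    exact ⟨Finset.mem_univ _, by omega⟩

theorem card_Em {b : ℕ} (hb : 2 ≤ b) : (Em b).card = b - 2 := by
  refine cyc_card (c := 4) _ (fun v => ?_) (fun i hi => by omega)
  have hv := v.isLt
  unfold Em
  rw [Finset.mem_filter]
  constructor
  · rintro ⟨-, h⟩
    exact ⟨(v.val - 4) / 2, by omega, by omega⟩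
  · rintro ⟨i, hi, h⟩
    exact ⟨Finset.mem_univ _, by omega⟩

theorem card_O5 {b : ℕ} (hb : 2 ≤ b) : (O5 b).card = b - 2 := by
  refine cyc_card (c := 5) _ (fun v => ?_) (fun i hi => by omega)
  have hv := v.isLt
  unfold O5
  rw [Finset.mem_filter]
  constructor
  · rintro ⟨-, h⟩
    exact ⟨(v.val - 5) / 2, by omega, by omega⟩
  · rintro ⟨i, hi, h⟩
    exact ⟨Finset.mem_univ _, by omega⟩

theorem card_Ip {b : ℕ} (hb : 2 ≤ b) : (Ip b).card = b - 1 := by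
  refine cyc_card (c := 2) _ (fun v => ?_) (fun i hi => by omega)
  have hv := v.isLt
  unfold Ip
  rw [Finset.mem_filter]
  constructor
  · rintro ⟨-, h⟩
    exact ⟨(v.val - 2) / 2, by omega, by omega⟩
  · rintro ⟨i, hi, h⟩
    exact ⟨Finset.mem_univ _, by omega⟩

theorem indep_Iv {b : ℕ} (hb : 2 ≤ b) : ∀ u ∈ Iv b, ∀ v ∈ Iv b,
    ¬ (SimpleGraph.cycleGraph (2 * b + 1)).Adj u v := by
  intro u hu v hv
  unfold Iv at hu hv
  rw [Finset.mem_filter] at hu hv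
  rw [cyc_adj hb]
  have h1 := hu.2
  have h2 := hv.2
  omega

theorem indep_Od {b : ℕ} (hb : 2 ≤ b) : ∀ u ∈ Od b, ∀ v ∈ Od b,
    ¬ (SimpleGraph.cycleGraph (2 * b + 1)).Adj u v := by
  intro u hu v hv
  unfold Od at hu hv
  rw [Finset.mem_filter] at hu hv
  rw [cyc_adj hb]
  have h1 := hu.2
  have h2 := hv.2
  omega

theorem indep_Ev {b : ℕ} (hb : 2 ≤ b) : ∀ u ∈ Ev b, ∀ v ∈ Ev b,
    ¬ (SimpleGraph.cycleGraph (2 * b + 1)).Adj u v := by
  intro u hu v hv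
  unfold Ev at hu hv
  rw [Finset.mem_filter] at hu hv
  rw [cyc_adj hb]
  have h1 := hu.2
  have h2 := hv.2
  omega

end Pool.Agent.Lib.MP_56aee0_co.OC
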