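import Pool.Agent.Lib.MP_56aee0_co.OC.Layer
import Pool.Agent.Lib.MP_56aee0_co.OC.Cyc

/-!
# OC / Cnd : the condition which is kept in the last phase

`Cnd b A D δ a`: (c1) there are no guards on `(u, y)`, `y ∉ A`, except in the layers `u ∈ Iv b` and `u = 1`;
(c2) at most `δ` guards on `(i, y)`, `y ∉ A`, for each `i ∈ Iv b`; (c3) in every row `a' ≠ a`, `a' ∈ A`, a guard on an odd
`v ≥ 3` or on `v = 2b` has no neighbouring guard in this row.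
-/

set_option autoImplicit false

namespace Pool.Agent.Lib.MP_56aee0_co.OC

open Pool.Agent.Lib.MP_56aee0_co

variable {W : Type} [Fintype W] [DecidableEq W]

def Cnd (b : ℕ) (A : Finset W) (D : Finset (Fin (2 * b + 1) × W)) (δ : ℕ) (a : W) : Prop :=
  (∀ u : Fin (2 * b + 1), u ∉ Iv b → u.val ≠ 1 → ∀ y, y ∉ A → (u, y) ∉ D) ∧
  (∀ i ∈ Iv b, (ch A D i).card ≤ δ) ∧
  (∀ a' ∈ A, a' ≠ a → ∀ v : Fin (2 * b + 1), 3 ≤ v.val → (v.val % 2 = 1 ∨ v.val = 2 * b) →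
    (v, a') ∈ D → ∀ u, (SimpleGraph.cycleGraph (2 * b + 1)).Adj u v → (u, a') ∉ D)

theorem cnd_of_sub {b : ℕ} {A : Finset W} {D D' : Finset (Fin (2 * b + 1) × W)} {δ : ℕ} {a : W}
    (ha : a ∈ A) (hC : Cnd b A D δ a) (h : ∀ x y, y ≠ a → (x, y) ∈ D' → (x, y) ∈ D) :
    Cnd b A D' δ a := by
  obtain ⟨h1, h2, h3⟩ := hC
  refine ⟨?_, ?_, ?_⟩
  · intro u hu hu1 y hy hm
    exact h1 u hu hu1 y hy (h u y (fun hya => hy (hya ▸ ha)) hm)
  · intro i hi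
    refine le_trans (Finset.card_le_card ?_) (h2 i hi)
    intro y hy
    rw [mem_ch] at hy ⊢
    exact ⟨hy.1, h i y (fun hya => hy.1 (hya ▸ ha)) hy.2⟩
  · intro a' ha' hne v hv hv2 hm u hu hm2
    exact h3 a' ha' hne v hv hv2 (h v a' hne hm) u hu (h u a' hne hm2)

end Pool.Agent.Lib.MP_56aee0_co.OC
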