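import Pool.Agent.Lib.MP_56aee0_co.OC.Layer

/-!
# OC / Ops : how a move changes rows and chips (all by `ext` and `simp [row, ch]`)
-/

set_option autoImplicit false

namespace Pool.Agent.Lib.MP_56aee0_co.OC

open Pool.Agent.Lib.MP_56aee0_co

variable {U W : Type} [Fintype U] [DecidableEq U] [Fintype W] [DecidableEq W]

/-- a move inside the row `a` -/
theorem row_move (D : Finset (U × W)) (u v : U) (a : W) :
    row (insert (v, a) (D.erase (u, a))) a = insert v ((row D a).erase u) := by
  ext x
  simp only [mem_row, Finset.mem_insert, Finset.mem_erase, Prod.mk.injEq, and_true, ne_eq]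

/-- a move inside the row `a` changes nothing outside this row -/
theorem mem_move_ne (D : Finset (U × W)) (u v : U) (a : W) {x : U} {y : W} (hy : y ≠ a) :
    ((x, y) ∈ insert (v, a) (D.erase (u, a)) ↔ (x, y) ∈ D) := by
  simp only [Finset.mem_insert, Finset.mem_erase, Prod.mk.injEq, hy, and_false, false_or, ne_eq,
    not_false_eq_true, true_and]

/-- a guard moves from `(v, y)`, `y ≠ a`, to `(v, a)`: the row `a` -/
theorem row_drop (D : Finset (U × W)) (v : U) {a y : W} (hy : y ≠ a) :
    row (insert (v, a) (D.erase (v, y))) a = insert v (row D a) := by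
  ext x
  simp only [mem_row, Finset.mem_insert, Finset.mem_erase, Prod.mk.injEq, and_true, ne_eq,
    Ne.symm hy, and_false, not_false_eq_true, true_and]

/-- a guard moves from `(v, y)` to `(v, a)`: the other rows and the other layers -/
theorem mem_drop_ne (D : Finset (U × W)) (v : U) (a y : W) {x : U} {y' : W} (hy : y' ≠ a)
    (hx : x ≠ v ∨ y' ≠ y) :
    ((x, y') ∈ insert (v, a) (D.erase (v, y)) ↔ (x, y') ∈ D) := by
  have h1 : ¬ ((x, y') = (v, a)) := fun h => hy (Prod.mk.inj h).2
  have h2 : (x, y') ≠ (v, y) := by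
    intro h
    rcases hx with hx | hx
    · exact hx (Prod.mk.inj h).1
    · exact hx (Prod.mk.inj h).2
  rw [Finset.mem_insert, Finset.mem_erase]
  constructor
  · rintro (h | h)
    · exact absurd h h1
    · exact h.2
  · intro h
    exact Or.inr ⟨h2, h⟩

/-- states only lose guards outside the row `a`, `a ∈ A`: the chips can only decrease -/
theorem ch_mono {A : Finset W} {a : W} (ha : a ∈ A) {D D' : Finset (U × W)}
    (h : ∀ x y, y ≠ a → (x, y) ∈ D' → (x, y) ∈ D) (u : U) :
    (ch A D' u).card ≤ (ch A D u).card := by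
  apply Finset.card_le_card
  intro y hy
  rw [mem_ch] at hy ⊢
  refine ⟨hy.1, h u y ?_ hy.2⟩
  intro e
  rw [e] at hy
  exact hy.1 ha

/-- if moreover the guard `(u, y)`, `y ∉ A`, has left, the number of chips of the layer `u` is smaller -/
theorem ch_lt {A : Finset W} {D D' : Finset (U × W)} {u : U} {y : W} (hy : y ∉ A) (hD : (u, y) ∈ D)
    (hD' : (u, y) ∉ D') (h : ∀ y', y' ∉ A → (u, y') ∈ D' → (u, y') ∈ D) :
    (ch A D' u).card < (ch A D u).card := by
  apply Finset.card_lt_card
  rw [Finset.ssubset_iff_of_subset]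
  · refine ⟨y, mem_ch.2 ⟨hy, hD⟩, ?_⟩
    intro h'
    exact hD' (mem_ch.1 h').2
  · intro y' hy'
    rw [mem_ch] at hy' ⊢
    exact ⟨hy'.1, h y' hy'.1 hy'.2⟩

end Pool.Agent.Lib.MP_56aee0_co.OC
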