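import Pool.Agent.Lib.MP_56aee0_co.OC.RowA

/-!
# OC / RowB : occupy an independent set in a row `U × {a}`
-/

set_option autoImplicit false

namespace Pool.Agent.Lib.MP_56aee0_co.OC

open Pool.Agent.Lib.MP_56aee0_co

variable {U W : Type} [Fintype U] [DecidableEq U] [Fintype W] [DecidableEq W]

/-- Attack one after the other the vertices `(q, a)`, `q ∈ Q`, which are not occupied. The answer comes from `(u, a)` with
`G.Adj u q` (there is no guard on `(q, y)`, `y ∉ A`), so `u ∉ Q` (`Q` is independent) and `u ∉ P`; the number of guards in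
the row does not change. INDUCTION: prove by induction on `n` the statement for all `D ∈ F` with
`|{q ∈ Q | (q, a) ∉ D}| = n`; the hypotheses are preserved. At the end `Q ∪ P ⊆ row D' a`, `Q` and `P` are disjoint, and
`|row D' a| = |row D a| = |P| + |Q|`, so `row D' a = P ∪ Q`. -/
theorem row_exhaust {G : SimpleGraph U} {X : SimpleGraph W} {A : Finset W}
    (hA : ∀ a ∈ A, ∀ b ∈ A, ¬ X.Adj a b)
    {F : Set (Finset (U × W))} {N : ℕ} (hF : Et (G.boxProd X) Finset.univ F N)
    {D : Finset (U × W)} (hD : D ∈ F) {a : W} (ha : a ∈ A) (Q P : Finset U)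
    (hQ : ∀ u ∈ Q, ∀ v ∈ Q, ¬ G.Adj u v)
    (h0 : ∀ v ∈ Q, ∀ y, y ∉ A → (v, y) ∉ D)
    (hP : ∀ u ∈ P, (u, a) ∈ D ∧ u ∉ Q ∧ ∀ q ∈ Q, ¬ G.Adj u q)
    (hcard : (row D a).card = P.card + Q.card) :
    ∃ D' ∈ F, row D' a = P ∪ Q ∧ ∀ u y, y ≠ a → ((u, y) ∈ D' ↔ (u, y) ∈ D) := by
  obtain ⟨n, hn⟩ : ∃ n, (Q.filter fun q => (q, a) ∉ D).card = n := ⟨_, rfl⟩
  induction n generalizing D with
  | zero =>
    refine ⟨D, hD, ?_, fun u y _ => Iff.rfl⟩
    have hQD : ∀ q ∈ Q, (q, a) ∈ D := by
      intro q hq
      by_contra hqD
      have h1 : q ∈ Q.filter fun q => (q, a) ∉ D := Finset.mem_filter.2 ⟨hq, hqD⟩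
      rw [Finset.card_eq_zero.1 hn] at h1
      exact Finset.notMem_empty _ h1
    have hsub : P ∪ Q ⊆ row D a := by
      intro u hu
      rw [mem_row]
      rcases Finset.mem_union.1 hu with h | h
      · exact (hP u h).1
      · exact hQD u h
    have hdis : Disjoint P Q := by
      rw [Finset.disjoint_left]
      intro u hu
      exact (hP u hu).2.1
    symm
    apply Finset.eq_of_subset_of_card_le hsub
    rw [hcard, Finset.card_union_of_disjoint hdis]
  | succ n ih =>
    have hne : (Q.filter fun q => (q, a) ∉ D).Nonempty := by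
      rw [← Finset.card_pos, hn]
      exact Nat.succ_pos n
    obtain ⟨q, hq⟩ := hne
    obtain ⟨hqQ, hqD⟩ := Finset.mem_filter.1 hq
    rcases row_attack hA hF hD ha hqD with ⟨u, huq, huD, hin⟩ | ⟨y, hy, -, hyD, -⟩
    · have huQ : u ∉ Q := fun h => hQ u h q hqQ huq
      have huP : u ∉ P := fun h => (hP u h).2.2 q hqQ huq
      have huq' : u ≠ q := huq.ne
      have hmem : ∀ p : U × W, p ∈ insert (q, a) (D.erase (u, a)) ↔
          p = (q, a) ∨ (p ≠ (u, a) ∧ p ∈ D) := by
        intro p
        rw [Finset.mem_insert, Finset.mem_erase]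
      have hfil : (Q.filter fun q' => (q', a) ∉ insert (q, a) (D.erase (u, a))) =
          (Q.filter fun q' => (q', a) ∉ D).erase q := by
        ext q'
        rw [Finset.mem_filter, Finset.mem_erase, Finset.mem_filter, hmem]
        constructor
        · rintro ⟨h1, h2⟩
          rw [not_or, not_and] at h2
          refine ⟨fun h => h2.1 (by rw [h]), h1, fun h => ?_⟩
          refine h2.2 ?_ h
          intro h3
          rw [Prod.mk.injEq] at h3
          exact huQ (h3.1 ▸ h1)
        · rintro ⟨h1, h2, h3⟩
          refine ⟨h2, ?_⟩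
          rintro (h4 | ⟨-, h4⟩)
          · rw [Prod.mk.injEq] at h4
            exact h1 h4.1
          · exact h3 h4
      obtain ⟨D', hD', hrow, hout⟩ := ih hin
        (by
          intro v hv y hy hvy
          rw [hmem] at hvy
          rcases hvy with h | ⟨-, h⟩
          · rw [Prod.mk.injEq] at h
            rw [h.2] at hy
            exact hy ha
          · exact h0 v hv y hy h)
        (by
          intro u' hu'
          refine ⟨?_, (hP u' hu').2⟩
          rw [hmem]
          refine Or.inr ⟨?_, (hP u' hu').1⟩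
          intro h
          rw [Prod.mk.injEq] at h
          exact huP (h.1 ▸ hu'))
        (by
          have hrow : row (insert (q, a) (D.erase (u, a))) a = insert q ((row D a).erase u) := by
            ext x
            rw [mem_row, hmem, Finset.mem_insert, Finset.mem_erase, mem_row, Prod.mk.injEq]
            constructor
            · rintro (h | ⟨h1, h2⟩)
              · exact Or.inl h.1
              · exact Or.inr ⟨fun h3 => h1 (by rw [h3]), h2⟩
            · rintro (h | ⟨h1, h2⟩)
              · exact Or.inl ⟨h, rfl⟩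
              · refine Or.inr ⟨fun h3 => h1 ?_, h2⟩
                rw [Prod.mk.injEq] at h3
                exact h3.1
          have h1 : q ∉ (row D a).erase u := by
            intro h
            exact hqD (mem_row.1 (Finset.mem_of_mem_erase h))
          have h2 : u ∈ row D a := mem_row.2 huD
          have h3 : 0 < (row D a).card := Finset.card_pos.2 ⟨u, h2⟩
          rw [hrow, Finset.card_insert_of_notMem h1, Finset.card_erase_of_mem h2, ← hcard]
          omega)
        (by rw [hfil, Finset.card_erase_of_mem hq, hn]; rfl)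
      refine ⟨D', hD', hrow, ?_⟩
      intro u' y hy
      rw [hout u' y hy, hmem]
      constructor
      · rintro (h | ⟨-, h⟩)
        · rw [Prod.mk.injEq] at h
          exact absurd h.2 hy
        · exact h
      · intro h
        refine Or.inr ⟨?_, h⟩
        intro h3
        rw [Prod.mk.injEq] at h3
        exact hy h3.2
    · exact absurd hyD (h0 q hqQ y hy)

end Pool.Agent.Lib.MP_56aee0_co.OC
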