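import Pool.Agent.Lib.MP_56aee0_co.OC.Kill
import Pool.Agent.Lib.MP_56aee0_co.OC.RowB
import Pool.Agent.Lib.MP_56aee0_co.OC.Ops

/-!
# OC / Conv : every row can be brought into one of the forms `al`, `be`, `ga`

PROOF of `conv_row`. `x ∉ Iv b` means: `x` is odd or `x = 2b`. If `x = 1`: `D' = D`, `row D a = al b`.
Otherwise `(1, a) ∉ D`; attack it (`row_attack`): a guard on `(1, y)`, `y ∉ A`, is not possible (`hc`), so the answer comes from
`(u, a)` with `u = 0` or `u = 2`; call `D1` the new state, `row D1 a = insert 1 ((insert x (Iv b)).erase u)` (`row_move`), the rest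
is unchanged (`mem_move_ne`), in particular `hc` holds for `D1`.
 * `u = 0`: `row D1 a = {1, 2, 4, …, 2b-2} ∪ {x}`. If `x ≠ 2b-1, 2b`: contradiction by `kill_w`.
   If `x = 2b`: `row D1 a = ga b`. If `x = 2b-1`: attack `(2b, a)`: the answer comes from `(u', a)`, `u' = 2b-1` or `u' = 0`; but
   `0 ∉ row D1 a`, so `u' = 2b-1` and the new row is `ga b`.
 * `u = 2`: `row D1 a = {0, 1, 4, …, 2b-2} ∪ {x}` has `b + 1` elements (`card_Iv`). `row_exhaust` with `Q = Od b`, `P = {0, 1}`
   (`card_Od`): we reach a state with the row `{0, 1} ∪ Od b = be b`.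

`all_good`: by induction over `B` (`Finset.induction_on`) prove: there is `D' ∈ F` with `hc`, `hch` (`ch_mono`), with good rows over
the vertices of `A ∩ B` and with `row D' a = row D a` for `a ∈ A`, `a ∉ B`; take `B = A`.
-/

set_option autoImplicit false

namespace Pool.Agent.Lib.MP_56aee0_co.OC

open Pool.Agent.Lib.MP_56aee0_co

variable {W : Type} [Fintype W] [DecidableEq W]

theorem conv_row {b : ℕ} (hb : 2 ≤ b) {X : SimpleGraph W} {A : Finset W}
    (hA : ∀ a ∈ A, ∀ b ∈ A, ¬ X.Adj a b) (hm : A.card ≤ edn X)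
    {F : Set (Finset (Fin (2 * b + 1) × W))} {N : ℕ}
    (hF : Et ((SimpleGraph.cycleGraph (2 * b + 1)).boxProd X) Finset.univ F N)
    {D : Finset (Fin (2 * b + 1) × W)} (hD : D ∈ F) {a : W} (ha : a ∈ A)
    (hc : ∀ u, u ∉ Iv b → ∀ y, y ∉ A → (u, y) ∉ D)
    {x : Fin (2 * b + 1)} (hx : x ∉ Iv b) (hrow : row D a = insert x (Iv b)) :
    ∃ D' ∈ F, (row D' a = al b ∨ row D' a = be b ∨ row D' a = ga b) ∧
      ∀ u y, y ≠ a → ((u, y) ∈ D' ↔ (u, y) ∈ D) := by
  have hadj := fun u v : Fin (2 * b + 1) => cyc_adj hb u v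
  have h1lt : 1 < 2 * b + 1 := by omega
  have h2blt : 2 * b < 2 * b + 1 := by omega
  have hIv : ∀ u : Fin (2 * b + 1), u ∈ Iv b ↔ (u.val % 2 = 0 ∧ u.val < 2 * b) := by
    intro u
    unfold Iv
    simp
  have hx' : x.val % 2 = 1 ∨ x.val = 2 * b := by
    rw [hIv] at hx
    have := x.isLt
    omega
  have hxl := x.isLt
  by_cases hx1 : x.val = 1
  · refine ⟨D, hD, Or.inl ?_, fun _ _ _ => Iff.rfl⟩
    rw [hrow]
    ext u
    have := u.isLt
    rw [Finset.mem_insert, hIv]
    unfold al
    rw [Finset.mem_filter]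
    have e : u = x ↔ u.val = 1 := by
      rw [Fin.ext_iff, hx1]
    rw [e]
    simp
  -- attack `(1, a)`
  obtain ⟨o, ho⟩ : ∃ o : Fin (2 * b + 1), o.val = 1 := ⟨⟨1, h1lt⟩, rfl⟩
  have hoI : o ∉ Iv b := by
    rw [hIv]; omega
  have hoa : (o, a) ∉ D := by
    intro h
    rw [← mem_row, hrow, Finset.mem_insert] at h
    rcases h with h | h
    · rw [h] at ho
      exact hx1 ho
    · exact hoI h
  rcases row_attack hA hF hD (v := o) ha hoa with ⟨u, hu, hua, hF1⟩ | ⟨y, hyA, -, hy, -⟩
  swap
  · exact absurd hy (hc o hoI y hyA)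
  have hul := u.isLt
  rw [hadj] at hu
  have hu' : u.val = 0 ∨ u.val = 2 := by omega
  set D1 := insert (o, a) (D.erase (u, a)) with hD1
  have hr1 : row D1 a = insert o ((row D a).erase u) := row_move D u o a
  have hne1 : ∀ (x' : Fin (2 * b + 1)) (y : W), y ≠ a → ((x', y) ∈ D1 ↔ (x', y) ∈ D) :=
    fun x' y hy => mem_move_ne D u o a hy
  have hc1 : ∀ u, u ∉ Iv b → ∀ y, y ∉ A → (u, y) ∉ D1 := by
    intro u' hu' y hy h
    have hya : y ≠ a := by
      rintro rfl
      exact hy ha
    exact hc u' hu' y hy ((hne1 u' y hya).mp h)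
  have hm1 : ∀ w : Fin (2 * b + 1), (w, a) ∈ D1 ↔
      (w.val = 1 ∨ (w.val ≠ u.val ∧ (w.val = x.val ∨ (w.val % 2 = 0 ∧ w.val < 2 * b)))) := by
    intro w
    rw [← mem_row, hr1, hrow, Finset.mem_insert, Finset.mem_erase, Finset.mem_insert, hIv,
      Fin.ext_iff, ho, ne_eq, Fin.ext_iff, Fin.ext_iff]
  rcases hu' with hu0 | hu2
  · -- `u = 0`
    by_cases hxa : x.val = 2 * b
    · refine ⟨D1, hF1, Or.inr (Or.inr ?_), fun u' y hy => hne1 u' y hy⟩
      ext w
      rw [mem_row, hm1]
      unfold ga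
      rw [Finset.mem_filter]
      have := w.isLt
      simp only [Finset.mem_univ, true_and]
      omega
    by_cases hxb : x.val = 2 * b - 1
    · obtain ⟨t, ht⟩ : ∃ t : Fin (2 * b + 1), t.val = 2 * b := ⟨⟨2 * b, h2blt⟩, rfl⟩
      have htI : t ∉ Iv b := by
        rw [hIv]; omega
      have hta : (t, a) ∉ D1 := by
        rw [hm1]
        omega
      rcases row_attack hA hF hF1 (v := t) ha hta with ⟨u', hu', hua', hF2⟩ | ⟨y, hyA, -, hy, -⟩
      swap
      · exact absurd hy (hc1 t htI y hyA)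
      have hul' := u'.isLt
      rw [hadj] at hu'
      rw [hm1] at hua'
      have hu'v : u'.val = 2 * b - 1 := by omega
      refine ⟨_, hF2, Or.inr (Or.inr ?_), fun u'' y hy =>
        (mem_move_ne D1 u' t a hy).trans (hne1 u'' y hy)⟩
      rw [row_move]
      ext w
      rw [Finset.mem_insert, Finset.mem_erase, mem_row, hm1]
      unfold ga
      rw [Finset.mem_filter]
      have := w.isLt
      simp only [Finset.mem_univ, true_and, Fin.ext_iff, ne_eq]
      omega
    · exfalso
      refine kill_w hb hA hm hF hF1 ha ?_ ?_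
      · intro w y hw hy
        refine hc1 w ?_ y hy
        rw [hIv]; omega
      · intro w hw
        rw [hm1] at hw
        have := w.isLt
        omega
  · -- `u = 2`
    have hcard1 : (row D1 a).card = b + 1 := by
      rw [hr1, Finset.card_insert_of_notMem]
      · rw [Finset.card_erase_of_mem (mem_row.mpr hua), hrow, Finset.card_insert_of_notMem hx,
          card_Iv]
        omega
      · intro h
        exact hoa (mem_row.mp (Finset.mem_of_mem_erase h))
    obtain ⟨z, hz⟩ : ∃ z : Fin (2 * b + 1), z.val = 0 := ⟨⟨0, by omega⟩, rfl⟩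
    have hzo : z ≠ o := by
      intro h
      rw [h] at hz
      omega
    have hOd : ∀ w : Fin (2 * b + 1), w ∈ Od b ↔ (w.val % 2 = 1 ∧ 3 ≤ w.val) := by
      intro w
      unfold Od
      simp
    obtain ⟨D2, hF2, hr2, hne2⟩ := row_exhaust hA hF hF1 ha (Od b) {z, o} (indep_Od hb)
      (by
        intro v hv y hy
        refine hc1 v ?_ y hy
        rw [hOd] at hv
        rw [hIv]
        omega)
      (by
        intro w hw
        rw [Finset.mem_insert, Finset.mem_singleton] at hw
        have hw' : w.val = 0 ∨ w.val = 1 := by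
          rcases hw with rfl | rfl
          · exact Or.inl hz
          · exact Or.inr ho
        refine ⟨?_, ?_, ?_⟩
        · rw [hm1]
          omega
        · rw [hOd]
          omega
        · intro q hq h
          rw [hOd] at hq
          rw [hadj] at h
          omega)
      (by
        rw [hcard1, Finset.card_pair hzo, card_Od hb]
        omega)
    refine ⟨D2, hF2, Or.inr (Or.inl ?_), fun u' y hy =>
      (hne2 u' y hy).trans (hne1 u' y hy)⟩
    rw [hr2]
    ext w
    rw [Finset.mem_union, Finset.mem_insert, Finset.mem_singleton, hOd]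
    unfold be
    rw [Finset.mem_filter]
    simp only [Finset.mem_univ, true_and, Fin.ext_iff, hz, ho]
    omega

theorem all_good {b : ℕ} (hb : 2 ≤ b) {X : SimpleGraph W} {A : Finset W}
    (hA : ∀ a ∈ A, ∀ b ∈ A, ¬ X.Adj a b) (hm : A.card ≤ edn X)
    {F : Set (Finset (Fin (2 * b + 1) × W))} {N : ℕ}
    (hF : Et ((SimpleGraph.cycleGraph (2 * b + 1)).boxProd X) Finset.univ F N)
    {D : Finset (Fin (2 * b + 1) × W)} (hD : D ∈ F)
    (hc : ∀ u, u ∉ Iv b → ∀ y, y ∉ A → (u, y) ∉ D)
    (hch : ∀ i ∈ Iv b, (ch A D i).card ≤ edn X - A.card)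
    (hrows : ∀ a ∈ A, ∃ x, x ∉ Iv b ∧ row D a = insert x (Iv b)) :
    ∃ D' ∈ F, (∀ u, u ∉ Iv b → ∀ y, y ∉ A → (u, y) ∉ D') ∧
      (∀ i ∈ Iv b, (ch A D' i).card ≤ edn X - A.card) ∧
      ∀ a ∈ A, row D' a = al b ∨ row D' a = be b ∨ row D' a = ga b := by
  have key : ∀ B : Finset W, ∃ D' ∈ F, (∀ u, u ∉ Iv b → ∀ y, y ∉ A → (u, y) ∉ D') ∧
      (∀ i ∈ Iv b, (ch A D' i).card ≤ edn X - A.card) ∧
      (∀ a ∈ A, a ∈ B → (row D' a = al b ∨ row D' a = be b ∨ row D' a = ga b)) ∧
      (∀ a ∈ A, a ∉ B → row D' a = row D a) := by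
    intro B
    induction B using Finset.induction_on with
    | empty =>
      exact ⟨D, hD, hc, hch, fun a _ h => absurd h (Finset.notMem_empty a), fun _ _ _ => rfl⟩
    | insert a B haB ih =>
      obtain ⟨D', hF', hc', hch', hg', hr'⟩ := ih
      by_cases ha : a ∈ A
      · obtain ⟨x, hx, hrow⟩ := hrows a ha
        obtain ⟨D'', hF'', hg'', hne⟩ := conv_row hb hA hm hF hF' ha hc' hx
          ((hr' a ha haB).trans hrow)
        have hsame : ∀ a', a' ≠ a → row D'' a' = row D' a' := by
          intro a' ha'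
          ext w
          rw [mem_row, mem_row]
          exact hne w a' ha'
        refine ⟨D'', hF'', ?_, ?_, ?_, ?_⟩
        · intro u hu y hy h
          have hya : y ≠ a := by
            rintro rfl
            exact hy ha
          exact hc' u hu y hy ((hne u y hya).mp h)
        · intro i hi
          exact (ch_mono ha (fun x y hy h => (hne x y hy).mp h) i).trans (hch' i hi)
        · intro a' ha' hB
          by_cases e : a' = a
          · rw [e]
            exact hg''
          · rw [hsame a' e]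
            exact hg' a' ha' (Finset.mem_of_mem_insert_of_ne hB e)
        · intro a' ha' hB
          rw [Finset.mem_insert, not_or] at hB
          rw [hsame a' hB.1]
          exact hr' a' ha' hB.2
      · refine ⟨D', hF', hc', hch', ?_, ?_⟩
        · intro a' ha' hB
          refine hg' a' ha' (Finset.mem_of_mem_insert_of_ne hB ?_)
          rintro rfl
          exact ha ha'
        · intro a' ha' hB
          exact hr' a' ha' (fun h => hB (Finset.mem_insert_of_mem h))
  obtain ⟨D', hF', h1, h2, h3, -⟩ := key A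
  exact ⟨D', hF', h1, h2, fun a ha => h3 a ha ha⟩

end Pool.Agent.Lib.MP_56aee0_co.OC
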