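import Pool.Agent.Lib.MP_56aee0_co.OC.Stat
import Pool.Agent.Lib.MP_56aee0_co.OC.AddA
import Pool.Agent.Lib.MP_56aee0_co.OC.Cyc

/-!
# OC / CycE : the odd cycle `0, …, 2b` needs `b + 1` guards

PROOF. Suppose `edn C ≤ b`. Take the family `F` of `edn_exists`, with `Z = univ` it satisfies the hypothesis of
`exists_occupied` (`D ∩ univ = D`); take `Y = Iv b` (`indep_Iv`): there is `D ∈ F` with `Iv b ⊆ D`; by cardinality (`card_Iv`)
`D = Iv b`. Attack `1 ∉ D`: the answer comes from `u = 0` or `u = 2` (`cyc_adj`), `D' = insert 1 (D.erase u)`.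
 * `u = 0`: `D' = {1, 2, 4, …, 2b-2}`; `ednOn_le_nb` with `S = univ` (`Et C univ F _` from `F`), `Z = {2b}`: the neighbours of `2b` are
   `2b-1` and `0`, so `nb = ∅`, and `1 ≤ ednOn C {2b}` by `card_le_ednOn_of_indep`.
 * `u = 2`: `D' = {0, 1, 4, …, 2b-2}`, `Z = Od b`: `nb ⊆ Em b`; `b - 1 ≤ b - 2`.
-/

set_option autoImplicit false

namespace Pool.Agent.Lib.MP_56aee0_co.OC

open Pool.Agent.Lib.MP_56aee0_co

theorem edn_odd_cycle_ge {b : ℕ} (hb : 2 ≤ b) : b + 1 ≤ edn (SimpleGraph.cycleGraph (2 * b + 1)) := by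
  by_contra hcon
  have hk : edn (SimpleGraph.cycleGraph (2 * b + 1)) ≤ b := by omega
  obtain ⟨F, hF0, hF⟩ := edn_exists (SimpleGraph.cycleGraph (2 * b + 1))
  have hEt : Et (SimpleGraph.cycleGraph (2 * b + 1)) Finset.univ F
      (edn (SimpleGraph.cycleGraph (2 * b + 1))) :=
    fun D hD => ⟨Finset.subset_univ D, (hF D hD).1, fun v _ => (hF D hD).2 v⟩
  obtain ⟨D, hD, hIv⟩ := exists_occupied (Γ := SimpleGraph.cycleGraph (2 * b + 1))
    (Z := Finset.univ) (Y := Iv b) (F1 := F)
    (fun D hD v _ => by rw [Finset.inter_univ]; exact (hF D hD).2 v) hF0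
    (Finset.subset_univ _) (indep_Iv hb)
  have hDe : Iv b = D := by
    refine Finset.eq_of_subset_of_card_le hIv ?_
    rw [card_Iv, (hF D hD).1]
    exact hk
  rw [← hDe] at hD
  -- attack the vertex 1
  have h1lt : 1 < 2 * b + 1 := by omega
  have h2lt : 2 * b < 2 * b + 1 := by omega
  obtain ⟨u, hu, hadj, hnew⟩ := (hF _ hD).2 ⟨1, h1lt⟩
  have hu' : u.val % 2 = 0 ∧ u.val < 2 * b := (Finset.mem_filter.mp hu).2
  have huv : u.val = 0 ∨ u.val = 2 := by
    rcases hadj with he | he
    · rw [he] at hu'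
      simp at hu'
    · rw [cyc_adj hb] at he
      simp only at he
      omega
  have hmem : ∀ p ∈ insert (⟨1, h1lt⟩ : Fin (2 * b + 1)) ((Iv b).erase u),
      p.val = 1 ∨ (p.val ≠ u.val ∧ p.val % 2 = 0 ∧ p.val < 2 * b) := by
    intro p hp
    rcases Finset.mem_insert.mp hp with h | h
    · left
      rw [h]
    · right
      rw [Finset.mem_erase] at h
      have h3 := (Finset.mem_filter.mp h.2).2
      exact ⟨fun h4 => h.1 (Fin.ext h4), h3.1, h3.2⟩
  rcases huv with hu0 | hu2
  · -- the guard 0 moved: nobody protects 2b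
    have h1 := ednOn_le_nb hEt hnew (Finset.subset_univ {(⟨2 * b, h2lt⟩ : Fin (2 * b + 1))})
    have h2 : (({(⟨2 * b, h2lt⟩ : Fin (2 * b + 1))} : Finset (Fin (2 * b + 1)))).card ≤
        ednOn (SimpleGraph.cycleGraph (2 * b + 1)) {(⟨2 * b, h2lt⟩ : Fin (2 * b + 1))} := by
      refine card_le_ednOn_of_indep ?_
      intro p hp q hq
      rw [Finset.mem_singleton.mp hp, Finset.mem_singleton.mp hq]
      exact (SimpleGraph.cycleGraph (2 * b + 1)).irrefl
    rw [Finset.card_singleton] at h2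
    have h3 : nb (SimpleGraph.cycleGraph (2 * b + 1)) {(⟨2 * b, h2lt⟩ : Fin (2 * b + 1))}
        (insert (⟨1, h1lt⟩ : Fin (2 * b + 1)) ((Iv b).erase u)) = ∅ := by
      rw [Finset.eq_empty_iff_forall_notMem]
      intro p hp
      obtain ⟨hpD, z, hz, hpz⟩ := mem_nb.mp hp
      rw [Finset.mem_singleton.mp hz] at hpz
      have h4 := hmem p hpD
      rw [hu0] at h4
      rcases hpz with he | he
      · have h5 : p.val = 2 * b := by rw [he]
        omega
      · rw [cyc_adj hb] at he
        simp only at he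
        omega
    rw [h3, Finset.card_empty] at h1
    omega
  · -- the guard 2 moved: the odd vertices from 3 on are not protected
    have h1 := ednOn_le_nb hEt hnew (Finset.subset_univ (Od b))
    have h2 := card_le_ednOn_of_indep (indep_Od hb)
    rw [card_Od hb] at h2
    have h3 : nb (SimpleGraph.cycleGraph (2 * b + 1)) (Od b)
        (insert (⟨1, h1lt⟩ : Fin (2 * b + 1)) ((Iv b).erase u)) ⊆ Em b := by
      intro p hp
      obtain ⟨hpD, z, hz, hpz⟩ := mem_nb.mp hp
      have hz' : z.val % 2 = 1 ∧ 3 ≤ z.val := (Finset.mem_filter.mp hz).2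
      have h4 := hmem p hpD
      rw [hu2] at h4
      have h6 : p.val % 2 = 0 ∧ 4 ≤ p.val ∧ p.val < 2 * b := by
        rcases hpz with he | he
        · have h5 : p.val = z.val := by rw [he]
          omega
        · rw [cyc_adj hb] at he
          omega
      exact Finset.mem_filter.mpr ⟨Finset.mem_univ p, h6⟩
    have h7 := Finset.card_le_card h3
    rw [card_Em hb] at h7
    omega

end Pool.Agent.Lib.MP_56aee0_co.OC
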