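import Pool.Agent.Lib.MP_56aee0_co.OC.SSr
import Pool.Agent.Lib.MP_56aee0_co.OC.Ops
import Pool.Agent.Lib.MP_56aee0_co.OC.Cyc

/-!
# OC / CycP : no row is equal to `I = {0, 2, …, 2b-2}` in the region `SS I A`

PROOF. Suppose `row D a = Iv b`. Attack `(1, a)` (`row_attack_SS`; `1 ∉ Iv b`): the answer comes from `(u, a)` with `u` adjacent
to `1`, so `u = 0` or `u = 2` (`cyc_adj`). Let `D'` be the new state, `row D' a = insert 1 ((Iv b).erase u)` (`row_move`).
 * `u = 0`: `row D' a = {1, 2, 4, …, 2b-2}`. `row_static_SS` with `E = {2b}`, `R = ∅`: the neighbours of `2b` are `2b-1` and `0`.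
   Conclusion `1 ≤ 0`.
 * `u = 2`: `row D' a = {0, 1, 4, …, 2b-2}`. `row_static_SS` with `E = Od b`, `R = Em b`: a vertex equal or adjacent to a vertex
   of `Od b` has a value `≥ 2`, so it lies in the row only if it is in `Em b`. Conclusion `b - 1 ≤ b - 2`.
-/

set_option autoImplicit false

namespace Pool.Agent.Lib.MP_56aee0_co.OC

open Pool.Agent.Lib.MP_56aee0_co

variable {W : Type} [Fintype W] [DecidableEq W]

theorem cyc_hP {b : ℕ} (hb : 2 ≤ b) {X : SimpleGraph W} {A : Finset W}
    (hA : ∀ a ∈ A, ∀ b ∈ A, ¬ X.Adj a b)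
    (F : Set (Finset (Fin (2 * b + 1) × W))) (k : ℕ)
    (hF : Et ((SimpleGraph.cycleGraph (2 * b + 1)).boxProd X) (SS (Iv b) A) F k)
    (D : Finset (Fin (2 * b + 1) × W)) (hD : D ∈ F) (a : W) (ha : a ∈ A) : row D a ≠ Iv b := by
  intro hrow
  have hIv : ∀ u : Fin (2 * b + 1), u ∈ Iv b ↔ (u.val % 2 = 0 ∧ u.val < 2 * b) := by
    intro u
    unfold Iv
    simp
  obtain ⟨o, ho⟩ : ∃ o : Fin (2 * b + 1), o.val = 1 := ⟨⟨1, by omega⟩, rfl⟩
  have hoI : o ∉ Iv b := by
    rw [hIv]; omega
  have hoa : (o, a) ∉ D := by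
    intro h
    rw [← mem_row, hrow] at h
    exact hoI h
  obtain ⟨u, hu, hua, hF1⟩ := row_attack_SS hA hF hD ha hoI hoa
  have hul := u.isLt
  rw [cyc_adj hb] at hu
  have hu' : u.val = 0 ∨ u.val = 2 := by omega
  have hr1 : row (insert (o, a) (D.erase (u, a))) a = insert o ((row D a).erase u) := row_move D u o a
  have hm1 : ∀ w : Fin (2 * b + 1), (w, a) ∈ insert (o, a) (D.erase (u, a)) ↔
      (w.val = 1 ∨ (w.val ≠ u.val ∧ (w.val % 2 = 0 ∧ w.val < 2 * b))) := by
    intro w
    rw [← mem_row, hr1, hrow, Finset.mem_insert, Finset.mem_erase, hIv,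
      Fin.ext_iff, ho, ne_eq, Fin.ext_iff]
  rcases hu' with hu0 | hu2
  · have h := row_static_SS hA hF hF1 ha {(⟨2 * b, by omega⟩ : Fin (2 * b + 1))} ∅
      (by
        intro p hp v hv
        rw [Finset.mem_singleton] at hp hv
        rw [hp, hv]
        exact SimpleGraph.irrefl _)
      (by
        intro e he
        rw [Finset.mem_singleton] at he
        rw [he, hIv]
        simp only
        omega)
      (by
        intro w hw h1
        exfalso
        rw [hm1] at hw
        have h5 := w.isLt
        rcases h1 with h1 | ⟨e, he, h1⟩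
        · rw [Finset.mem_singleton, Fin.ext_iff] at h1
          simp only at h1
          omega
        · rw [Finset.mem_singleton] at he
          rw [cyc_adj hb, he] at h1
          simp only at h1
          omega)
    rw [Finset.card_singleton, Finset.card_empty] at h
    omega
  · have h := row_static_SS hA hF hF1 ha (Od b) (Em b) (indep_Od hb)
      (by
        intro e he
        have h3 := (Finset.mem_filter.1 he).2
        rw [hIv]
        omega)
      (by
        intro w hw h1
        rw [hm1] at hw
        have h5 := w.isLt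
        have h6 : 2 ≤ w.val := by
          rcases h1 with h1 | ⟨e, he, h1⟩
          · have h3 := (Finset.mem_filter.1 h1).2
            omega
          · have h3 := (Finset.mem_filter.1 he).2
            rw [cyc_adj hb] at h1
            omega
        unfold Em
        rw [Finset.mem_filter]
        refine ⟨Finset.mem_univ _, ?_⟩
        omega)
    rw [card_Od hb, card_Em hb] at h
    omega

end Pool.Agent.Lib.MP_56aee0_co.OC
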