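import Pool.Agent.Lib.MP_56aee0_co.OC.AddA
import Pool.Agent.Lib.MP_56aee0_co.OC.AddB

/-!
# OC / Layer : layers of a Cartesian product
-/

set_option autoImplicit false

namespace Pool.Agent.Lib.MP_56aee0_co.OC

open Pool.Agent.Lib.MP_56aee0_co

variable {U W : Type} [Fintype U] [DecidableEq U] [Fintype W] [DecidableEq W]

/-- the guards of a state on the fibre `U × {a}` -/
def row (D : Finset (U × W)) (a : W) : Finset U := Finset.univ.filter fun u => (u, a) ∈ D

/-- the guards of a state on the layer `{u} × (W \ A)` -/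
def ch (A : Finset W) (D : Finset (U × W)) (u : U) : Finset W :=
  Finset.univ.filter fun y => y ∉ A ∧ (u, y) ∈ D

omit [DecidableEq U] [Fintype W] in
theorem mem_row [DecidableEq U] {D : Finset (U × W)} {a : W} {u : U} : u ∈ row D a ↔ (u, a) ∈ D := by
  unfold row
  rw [Finset.mem_filter]
  exact and_iff_right (Finset.mem_univ u)

omit [Fintype U] in
theorem mem_ch {A : Finset W} {D : Finset (U × W)} {u : U} {y : W} :
    y ∈ ch A D u ↔ y ∉ A ∧ (u, y) ∈ D := by
  unfold ch
  rw [Finset.mem_filter]
  exact and_iff_right (Finset.mem_univ y)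

/-- `T ↦ {v} × T` carries an eternal family of `{v} × T` to one of `T` (two vertices of the layer are adjacent in
`G □ X` iff their second coordinates are adjacent in `X`) -/
theorem ednOn_le_layer (G : SimpleGraph U) (X : SimpleGraph W) (v : U) (T : Finset W) :
    ednOn X T ≤ ednOn (G.boxProd X) (({v} : Finset U) ×ˢ T) := by
  obtain ⟨F, ⟨D0, hD0⟩, hF⟩ := ednOn_exists (G.boxProd X) (({v} : Finset U) ×ˢ T)
  have key : ∀ D ∈ F, ({v} : Finset U) ×ˢ (D.image Prod.snd) = D := by
    intro D hD
    have hsub := (hF D hD).1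
    ext ⟨a, b⟩
    rw [Finset.mem_product, Finset.mem_singleton, Finset.mem_image]
    constructor
    · rintro ⟨h1, ⟨q, hq, hq2⟩⟩
      have h2 := Finset.mem_product.mp (hsub hq)
      have h3 := Finset.mem_singleton.mp h2.1
      have h4 : q = (a, b) := Prod.ext (h3.trans h1.symm) hq2
      rw [← h4]
      exact hq
    · intro h1
      have h2 := Finset.mem_product.mp (hsub h1)
      exact ⟨Finset.mem_singleton.mp h2.1, ⟨(a, b), h1, rfl⟩⟩
  refine ednOn_le (F := {D' : Finset W | ({v} : Finset U) ×ˢ D' ∈ F})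
    ⟨D0.image Prod.snd, ?_⟩ ?_
  · change ({v} : Finset U) ×ˢ (D0.image Prod.snd) ∈ F
    rw [key D0 hD0]
    exact hD0
  · intro D' hD'
    obtain ⟨h1, h2, h3⟩ := hF _ hD'
    refine ⟨?_, ?_, ?_⟩
    · intro y hy
      have h4 : (v, y) ∈ ({v} : Finset U) ×ˢ D' :=
        Finset.mem_product.mpr ⟨Finset.mem_singleton_self v, hy⟩
      exact (Finset.mem_product.mp (h1 h4)).2
    · rw [← h2, Finset.card_product, Finset.card_singleton, one_mul]
    · intro y hy
      obtain ⟨⟨u1, u2⟩, hu, hadj, hins⟩ := h3 (v, y)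
        (Finset.mem_product.mpr ⟨Finset.mem_singleton_self v, hy⟩)
      have h5 := Finset.mem_product.mp hu
      have h6 : u1 = v := Finset.mem_singleton.mp h5.1
      subst h6
      refine ⟨u2, h5.2, ?_, ?_⟩
      · rcases hadj with h7 | h7
        · exact Or.inl (congrArg Prod.snd h7)
        · rw [SimpleGraph.boxProd_adj] at h7
          rcases h7 with h8 | h8
          · exact absurd h8.1 (G.loopless.irrefl u1)
          · exact Or.inr h8.1
      · have h9 : ({u1} : Finset U) ×ˢ (insert y (D'.erase u2)) =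
            insert (u1, y) ((({u1} : Finset U) ×ˢ D').erase (u1, u2)) := by
          ext ⟨a, b⟩
          simp only [Finset.mem_product, Finset.mem_singleton, Finset.mem_insert,
            Finset.mem_erase, Prod.mk.injEq, ne_eq]
          constructor
          · rintro ⟨e1, e2⟩
            rcases e2 with e3 | ⟨e3, e4⟩
            · exact Or.inl ⟨e1, e3⟩
            · exact Or.inr ⟨fun e5 => e3 e5.2, e1, e4⟩
          · rintro (⟨e1, e2⟩ | ⟨e1, e2, e3⟩)
            · exact ⟨e1, Or.inl e2⟩
            · exact ⟨e2, Or.inr ⟨fun e4 => e1 ⟨e2, e4⟩, e3⟩⟩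
        change ({u1} : Finset U) ×ˢ (insert y (D'.erase u2)) ∈ F
        rw [h9]
        exact hins

/-- `edn X = ednOn X univ ≤ ednOn X T + ednOn X (univ \ T)` and `ednOn X (univ \ T) ≤ |univ \ T|` -/
theorem edn_le_layer (G : SimpleGraph U) (X : SimpleGraph W) (v : U) (T : Finset W) :
    edn X ≤ ednOn (G.boxProd X) (({v} : Finset U) ×ˢ T) + (Finset.univ \ T).card := by
  have h1 : ednOn X Finset.univ ≤ ednOn X T + ednOn X (Finset.univ \ T) := by
    have h2 := ednOn_union_le (Γ := X) (S1 := T) (S2 := Finset.univ \ T) Finset.disjoint_sdiff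
    rwa [Finset.union_sdiff_of_subset (Finset.subset_univ T)] at h2
  have h3 := ednOn_le_layer G X v T
  have h4 := ednOn_le_card X (Finset.univ \ T)
  rw [edn_eq_ednOn]
  omega

end Pool.Agent.Lib.MP_56aee0_co.OC
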