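import Pool.Agent.Lib.MP_56aee0_co.OC.Stat
import Pool.Agent.Lib.MP_56aee0_co.OC.Layer

/-!
# OC / GG : the static inequality for layers and one row

Setting: `G` on `U`, `X` on `W`, `A` an independent set of `X`, `F` an eternal family of `G □ X`, `D ∈ F`.

PROOF of `GG`. For `v ∈ O` put `B v = {a' ∈ A | a' ≠ a ∧ (v, a') ∈ D}` and `T v = (univ \ A) ∪ B v`, so
`a ∉ T v` and `univ \ T v = A \ B v` has `|A| - |B v|` elements. Let
`Z = (O.biUnion fun v => {v} ×ˢ T v) ∪ (E ×ˢ {a})`.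

(1) Lower bound. The sets `{v} ×ˢ T v` (`v ∈ O`) are pairwise not adjacent (`O` is independent in `G`; vertices of
different layers `v ≠ v'` are adjacent only if `G.Adj v v'`), and none of them is adjacent to or meets `E ×ˢ {a}`:
`(v, y)` and `(e, a)` are different because `O` and `E` are disjoint; they are adjacent only if `v = e` (impossible) or
`y = a` (impossible, `a ∉ T v`). The set `E ×ˢ {a}` is independent (`E` is). So by `ednOn_add_le`, `sum_ednOn_le`,
`card_le_ednOn_of_indep`, `edn_le_layer`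
  `∑_{v ∈ O} ednOn (G □ X) ({v} ×ˢ T v) + |E| ≤ ednOn (G □ X) Z`,
  `edn X ≤ ednOn (G □ X) ({v} ×ˢ T v) + (|A| - |B v|)`, hence
  `|O| (edn X - |A|) + ∑_{v ∈ O} |B v| + |E| ≤ ednOn (G □ X) Z`   (use `|A| ≤ edn X` and `B v ⊆ A`).

(2) Upper bound, `|nb (G □ X) Z D| ≤ ∑_{v ∈ O} |B v| + ∑_{u ∈ C} |ch A D u| + |R|`: cover `nb (G □ X) Z D` by the three
finsets `O.biUnion (fun v => {v} ×ˢ B v)`, `C.biUnion (fun u => {u} ×ˢ ch A D u)`, `R ×ˢ {a}`. Let `p = (u, y) ∈ D`,
`z ∈ Z`, `p = z` or `p` adjacent to `z`.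
 * `z = (v, y')`, `v ∈ O`, `y' ∈ T v`, and `u = v` (`p = z`, or `X.Adj y y'`): if `y ∉ A`: impossible by `h0`. If `y ∈ A`,
   `y ≠ a`: `y ∈ B v`, first set. If `y = a`: `(v, a) ∈ D`, `v ∈ O`, third set by `hR`.
 * `z = (v, y')`, `v ∈ O`, `y' ∈ T v`, `y = y'` and `G.Adj u v`: if `y ∉ A`: second set by `hC` (if `u ∉ C` then
   `(u, y) ∉ D`), `y ∈ ch A D u`. If `y ∈ B v`: `h1 y … v … u` says `(u, y) ∉ D`, impossible.
 * `z = (e, a)`, `e ∈ E`, `p = z`: third set by `hR`.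
 * `z = (e, a)`, `u = e`, `X.Adj y a`: then `y ∉ A` (`hA`), second set by `hC` (`u ∈ E`).
 * `z = (e, a)`, `y = a`, `G.Adj u e`: third set by `hR`.

(3) `ednOn_le_nb` with `S = univ` gives `ednOn (G □ X) Z ≤ |nb (G □ X) Z D|`; cancel `∑ |B v|`.

`GG0` is the same without the row `a` and without `E` (`B v = {a' ∈ A | (v, a') ∈ D}`, `T v = (univ \ A) ∪ B v`).
-/

set_option autoImplicit false

namespace Pool.Agent.Lib.MP_56aee0_co.OC

open Pool.Agent.Lib.MP_56aee0_co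

variable {U W : Type} [Fintype U] [DecidableEq U] [Fintype W] [DecidableEq W]

theorem GG {G : SimpleGraph U} {X : SimpleGraph W} {A : Finset W}
    (hA : ∀ a ∈ A, ∀ b ∈ A, ¬ X.Adj a b) (hm : A.card ≤ edn X)
    {F : Set (Finset (U × W))} {N : ℕ} (hF : Et (G.boxProd X) Finset.univ F N)
    {D : Finset (U × W)} (hD : D ∈ F) (O E : Finset U)
    (hO : ∀ u ∈ O, ∀ v ∈ O, ¬ G.Adj u v) (hE : ∀ u ∈ E, ∀ v ∈ E, ¬ G.Adj u v)
    (hOE : Disjoint O E) {a : W} (ha : a ∈ A)
    (h0 : ∀ v ∈ O, ∀ y, y ∉ A → (v, y) ∉ D)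
    (h1 : ∀ a' ∈ A, a' ≠ a → ∀ v ∈ O, (v, a') ∈ D → ∀ u, G.Adj u v → (u, a') ∉ D)
    (C R : Finset U)
    (hC : ∀ u, (u ∈ E ∨ ∃ v ∈ O, G.Adj u v) → u ∉ C → ∀ y, y ∉ A → (u, y) ∉ D)
    (hR : ∀ u, (u, a) ∈ D → (u ∈ O ∨ u ∈ E ∨ ∃ e ∈ E, G.Adj u e) → u ∈ R) :
    O.card * (edn X - A.card) + E.card ≤ ∑ u ∈ C, (ch A D u).card + R.card := by
  classical
  let B : U → Finset W := fun v => A.filter fun a' => a' ≠ a ∧ (v, a') ∈ D
  let T : U → Finset W := fun v => (Finset.univ \ A) ∪ B v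
  let Z1 : Finset (U × W) := O.biUnion fun v => ({v} : Finset U) ×ˢ T v
  let Z2 : Finset (U × W) := E ×ˢ ({a} : Finset W)
  have memB : ∀ v y, y ∈ B v ↔ y ∈ A ∧ y ≠ a ∧ (v, y) ∈ D := fun v y => Finset.mem_filter
  have memT : ∀ v y, y ∈ T v ↔ y ∉ A ∨ y ∈ B v := by
    intro v y
    change y ∈ (Finset.univ \ A) ∪ B v ↔ _
    rw [Finset.mem_union, Finset.mem_sdiff]
    simp only [Finset.mem_univ, true_and]
  have haT : ∀ v, a ∉ T v := by
    intro v h
    rcases (memT v a).1 h with h | h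
    · exact h ha
    · exact ((memB v a).1 h).2.1 rfl
  have memL : ∀ (v : U) (S : Finset W) (p : U × W), p ∈ ({v} : Finset U) ×ˢ S ↔ p.1 = v ∧ p.2 ∈ S := by
    intro v S p
    rw [Finset.mem_product, Finset.mem_singleton]
  have memZ1 : ∀ p : U × W, p ∈ Z1 ↔ p.1 ∈ O ∧ p.2 ∈ T p.1 := by
    intro p
    change p ∈ O.biUnion (fun v => ({v} : Finset U) ×ˢ T v) ↔ _
    rw [Finset.mem_biUnion]
    constructor
    · rintro ⟨v, hv, hp⟩
      obtain ⟨h1, h2⟩ := (memL _ _ _).1 hp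
      rw [h1]
      exact ⟨hv, h2⟩
    · rintro ⟨h1, h2⟩
      exact ⟨p.1, h1, (memL _ _ _).2 ⟨rfl, h2⟩⟩
  have memZ2 : ∀ p : U × W, p ∈ Z2 ↔ p.1 ∈ E ∧ p.2 = a := by
    intro p
    change p ∈ E ×ˢ ({a} : Finset W) ↔ _
    rw [Finset.mem_product, Finset.mem_singleton]
  have hOE' : ∀ u, u ∈ O → u ∈ E → False := fun u h1 h2 => Finset.disjoint_left.1 hOE h1 h2
  -- lower bound
  have low1 : ∑ v ∈ O, ednOn (G.boxProd X) (({v} : Finset U) ×ˢ T v) ≤ ednOn (G.boxProd X) Z1 := by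
    refine sum_ednOn_le O (fun v => ({v} : Finset U) ×ˢ T v) ?_
    intro i hi j hj hij p hp q hq
    obtain ⟨hp1, hp2⟩ := (memL _ _ _).1 hp
    obtain ⟨hq1, hq2⟩ := (memL _ _ _).1 hq
    refine ⟨fun h => hij (by rw [← hp1, ← hq1, h]), fun h => ?_⟩
    rcases SimpleGraph.boxProd_adj.1 h with ⟨h, _⟩ | ⟨_, h⟩
    · rw [hp1, hq1] at h
      exact hO i hi j hj h
    · exact hij (by rw [← hp1, ← hq1, h])
  have low2 : E.card ≤ ednOn (G.boxProd X) Z2 := by
    have h1 : Z2.card = E.card := by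
      change (E ×ˢ ({a} : Finset W)).card = _
      rw [Finset.card_product, Finset.card_singleton, mul_one]
    rw [← h1]
    refine card_le_ednOn_of_indep ?_
    intro p hp q hq h
    obtain ⟨hp1, hp2⟩ := (memZ2 _).1 hp
    obtain ⟨hq1, hq2⟩ := (memZ2 _).1 hq
    rcases SimpleGraph.boxProd_adj.1 h with ⟨h, _⟩ | ⟨h, _⟩
    · exact hE _ hp1 _ hq1 h
    · rw [hp2, hq2] at h
      exact X.irrefl h
  have low3 : ednOn (G.boxProd X) Z1 + ednOn (G.boxProd X) Z2 ≤ ednOn (G.boxProd X) (Z1 ∪ Z2) := by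
    refine ednOn_add_le ?_
    intro p hp q hq
    obtain ⟨hp1, hp2⟩ := (memZ1 _).1 hp
    obtain ⟨hq1, hq2⟩ := (memZ2 _).1 hq
    refine ⟨fun h => ?_, fun h => ?_⟩
    · rw [← h] at hq1
      exact hOE' _ hp1 hq1
    · rcases SimpleGraph.boxProd_adj.1 h with ⟨_, h⟩ | ⟨_, h⟩
      · rw [h, hq2] at hp2
        exact haT _ hp2
      · rw [← h] at hq1
        exact hOE' _ hp1 hq1
  have low4 : ∀ v ∈ O, (edn X - A.card) + (B v).card ≤
      ednOn (G.boxProd X) (({v} : Finset U) ×ˢ T v) := by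
    intro v _
    have h1 := edn_le_layer G X v (T v)
    have h2 : Finset.univ \ T v = A \ B v := by
      ext y
      rw [Finset.mem_sdiff, Finset.mem_sdiff, memT]
      simp only [Finset.mem_univ, true_and]
      tauto
    have h3 : B v ⊆ A := Finset.filter_subset _ _
    have h4 := Finset.card_sdiff_add_card_eq_card h3
    rw [h2] at h1
    omega
  have low5 : O.card * (edn X - A.card) + ∑ v ∈ O, (B v).card ≤
      ∑ v ∈ O, ednOn (G.boxProd X) (({v} : Finset U) ×ˢ T v) := by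
    have h1 := Finset.sum_le_sum low4
    rw [Finset.sum_add_distrib, Finset.sum_const, smul_eq_mul] at h1
    exact h1
  -- upper bound
  have hsub : nb (G.boxProd X) (Z1 ∪ Z2) D ⊆
      (O.biUnion fun v => ({v} : Finset U) ×ˢ B v) ∪
        ((C.biUnion fun u => ({u} : Finset U) ×ˢ ch A D u) ∪ R ×ˢ ({a} : Finset W)) := by
    rintro ⟨u, y⟩ hp
    obtain ⟨hpD, z, hz, hpz⟩ := mem_nb.1 hp
    have first : u ∈ O → y ∈ B u → (u, y) ∈ (O.biUnion fun v => ({v} : Finset U) ×ˢ B v) ∪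
        ((C.biUnion fun u => ({u} : Finset U) ×ˢ ch A D u) ∪ R ×ˢ ({a} : Finset W)) := by
      intro h1 h2
      exact Finset.mem_union_left _ (Finset.mem_biUnion.2 ⟨u, h1, (memL _ _ _).2 ⟨rfl, h2⟩⟩)
    have second : (u ∈ E ∨ ∃ v ∈ O, G.Adj u v) → y ∉ A →
        (u, y) ∈ (O.biUnion fun v => ({v} : Finset U) ×ˢ B v) ∪
        ((C.biUnion fun u => ({u} : Finset U) ×ˢ ch A D u) ∪ R ×ˢ ({a} : Finset W)) := by
      intro h1 h2
      have h3 : u ∈ C := by
        by_contra h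
        exact hC u h1 h y h2 hpD
      exact Finset.mem_union_right _ (Finset.mem_union_left _
        (Finset.mem_biUnion.2 ⟨u, h3, (memL _ _ _).2 ⟨rfl, mem_ch.2 ⟨h2, hpD⟩⟩⟩))
    have third : y = a → (u ∈ O ∨ u ∈ E ∨ ∃ e ∈ E, G.Adj u e) →
        (u, y) ∈ (O.biUnion fun v => ({v} : Finset U) ×ˢ B v) ∪
        ((C.biUnion fun u => ({u} : Finset U) ×ˢ ch A D u) ∪ R ×ˢ ({a} : Finset W)) := by
      intro h1 h2
      subst h1
      refine Finset.mem_union_right _ (Finset.mem_union_right _ (Finset.mem_product.2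
        ⟨hR u hpD h2, Finset.mem_singleton_self _⟩))
    rcases Finset.mem_union.1 hz with hz | hz
    · obtain ⟨hz1, hz2⟩ := (memZ1 _).1 hz
      -- the case of the same layer
      have same : u = z.1 → (u, y) ∈ (O.biUnion fun v => ({v} : Finset U) ×ˢ B v) ∪
        ((C.biUnion fun u => ({u} : Finset U) ×ˢ ch A D u) ∪ R ×ˢ ({a} : Finset W)) := by
        intro h
        rw [← h] at hz1
        by_cases hy : y ∈ A
        · by_cases hya : y = a
          · exact third hya (Or.inl hz1)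
          · exact first hz1 ((memB _ _).2 ⟨hy, hya, hpD⟩)
        · exact absurd hpD (h0 u hz1 y hy)
      rcases hpz with h | h
      · exact same (by rw [← h])
      · rcases SimpleGraph.boxProd_adj.1 h with ⟨h, h'⟩ | ⟨_, h⟩
        · dsimp only at h h'
          rw [← h'] at hz2
          rcases (memT _ _).1 hz2 with hy | hy
          · exact second (Or.inr ⟨z.1, hz1, h⟩) hy
          · obtain ⟨hy1, hy2, hy3⟩ := (memB _ _).1 hy
            exact absurd hpD (h1 y hy1 hy2 z.1 hz1 hy3 u h)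
        · exact same h
    · obtain ⟨hz1, hz2⟩ := (memZ2 _).1 hz
      rcases hpz with h | h
      · refine third ?_ (Or.inr (Or.inl ?_))
        · rw [← h] at hz2
          exact hz2
        · rw [← h] at hz1
          exact hz1
      · rcases SimpleGraph.boxProd_adj.1 h with ⟨h, h'⟩ | ⟨h, h'⟩
        · dsimp only at h h'
          rw [hz2] at h'
          exact third h' (Or.inr (Or.inr ⟨z.1, hz1, h⟩))
        · dsimp only at h h'
          rw [hz2] at h
          rw [← h'] at hz1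
          exact second (Or.inl hz1) (fun hy => hA y hy a ha h)
  have hup : (nb (G.boxProd X) (Z1 ∪ Z2) D).card ≤
      ∑ v ∈ O, (B v).card + (∑ u ∈ C, (ch A D u).card + R.card) := by
    refine (Finset.card_le_card hsub).trans ((Finset.card_union_le _ _).trans ?_)
    refine add_le_add ?_ ((Finset.card_union_le _ _).trans (add_le_add ?_ ?_))
    · refine Finset.card_biUnion_le.trans (Finset.sum_le_sum fun v _ => ?_)
      rw [Finset.card_product, Finset.card_singleton, one_mul]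
    · refine Finset.card_biUnion_le.trans (Finset.sum_le_sum fun v _ => ?_)
      rw [Finset.card_product, Finset.card_singleton, one_mul]
    · rw [Finset.card_product, Finset.card_singleton, mul_one]
  have hmid := ednOn_le_nb hF hD (Finset.subset_univ (Z1 ∪ Z2))
  omega

end Pool.Agent.Lib.MP_56aee0_co.OC
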