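import Pool.Agent.Lib.MP_56aee0_co.OC.Stat
import Pool.Agent.Lib.MP_56aee0_co.OC.Layer

/-!
# OC / GG0 : the static inequality for layers

For `v ∈ O` put `B v = {a' ∈ A | (v, a') ∈ D}`, `T v = (univ \ A) ∪ B v`, `Z = O.biUnion fun v => {v} ×ˢ T v`.

(1) Lower bound: the sets `{v} ×ˢ T v` are pairwise disjoint and not adjacent (`O` is independent in `G`; vertices of
different layers `v ≠ v'` are adjacent only if `G.Adj v v'`). `univ \ T v = A \ B v` has `|A| - |B v|` elements. By
`sum_ednOn_le` and `edn_le_layer`: `|O| (edn X - |A|) + ∑_{v ∈ O} |B v| ≤ ednOn (G □ X) Z` (use `|A| ≤ edn X`).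
(2) Upper bound: `nb (G □ X) Z D` is covered by `O.biUnion (fun v => {v} ×ˢ B v)` and
`C.biUnion (fun u => {u} ×ˢ ch A D u)`: let `(u, y) ∈ D`, `(v, y') ∈ Z`. If `u = v` (equal or `X.Adj y y'`): `y ∈ A` by `h0`,
so `y ∈ B v`. If `y = y'` and `G.Adj u v`: if `y ∈ A` then `y ∈ B v` and `h1` gives `(u, y) ∉ D`; if `y ∉ A` then `u ∈ C`
by `hC` and `y ∈ ch A D u`.
(3) `ednOn_le_nb` with `S = univ`; cancel `∑ |B v|`.
-/

set_option autoImplicit false

namespace Pool.Agent.Lib.MP_56aee0_co.OC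

open Pool.Agent.Lib.MP_56aee0_co

variable {U W : Type} [Fintype U] [DecidableEq U] [Fintype W] [DecidableEq W]

theorem GG0 {G : SimpleGraph U} {X : SimpleGraph W} {A : Finset W} (hm : A.card ≤ edn X)
    {F : Set (Finset (U × W))} {N : ℕ} (hF : Et (G.boxProd X) Finset.univ F N)
    {D : Finset (U × W)} (hD : D ∈ F) (O : Finset U)
    (hO : ∀ u ∈ O, ∀ v ∈ O, ¬ G.Adj u v)
    (h0 : ∀ v ∈ O, ∀ y, y ∉ A → (v, y) ∉ D)
    (h1 : ∀ a' ∈ A, ∀ v ∈ O, (v, a') ∈ D → ∀ u, G.Adj u v → (u, a') ∉ D)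
    (C : Finset U)
    (hC : ∀ u, (∃ v ∈ O, G.Adj u v) → u ∉ C → ∀ y, y ∉ A → (u, y) ∉ D) :
    O.card * (edn X - A.card) ≤ ∑ u ∈ C, (ch A D u).card := by
  classical
  let Bf : U → Finset W := fun v => A.filter fun a' => (v, a') ∈ D
  let T : U → Finset W := fun v => (Finset.univ \ A) ∪ Bf v
  let Z : Finset (U × W) := O.biUnion fun v => ({v} : Finset U) ×ˢ T v
  have hBA : ∀ v, Bf v ⊆ A := fun v => Finset.filter_subset _ _
  have hB : ∀ v y, y ∈ Bf v ↔ y ∈ A ∧ (v, y) ∈ D := fun v y => Finset.mem_filter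
  have hT : ∀ v y, y ∈ T v ↔ y ∉ A ∨ y ∈ Bf v := by
    intro v y
    show y ∈ (Finset.univ \ A) ∪ Bf v ↔ _
    rw [Finset.mem_union, Finset.mem_sdiff]
    simp
  -- lower bound
  have hsum : ∑ v ∈ O, ednOn (G.boxProd X) (({v} : Finset U) ×ˢ T v) ≤ ednOn (G.boxProd X) Z := by
    refine sum_ednOn_le O (fun v => ({v} : Finset U) ×ˢ T v) ?_
    intro v hv v' hv' hne p hp q hq
    rw [Finset.mem_product, Finset.mem_singleton] at hp hq
    constructor
    · rintro rfl
      exact hne (hp.1.symm.trans hq.1)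
    · intro hadj
      rw [SimpleGraph.boxProd_adj] at hadj
      rcases hadj with h | h
      · rw [hp.1, hq.1] at h
        exact hO v hv v' hv' h.1
      · rw [hp.1, hq.1] at h
        exact hne h.2
  have hone : ∀ v ∈ O, (edn X - A.card) + (Bf v).card ≤ ednOn (G.boxProd X) (({v} : Finset U) ×ˢ T v) := by
    intro v _
    have h2 := edn_le_layer G X v (T v)
    have h3 : Finset.univ \ T v = A \ Bf v := by
      ext y
      rw [Finset.mem_sdiff, Finset.mem_sdiff, hT]
      constructor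
      · rintro ⟨-, h⟩
        rw [not_or, not_not] at h
        exact h
      · rintro ⟨h4, h5⟩
        exact ⟨Finset.mem_univ y, fun h => h.elim (fun h6 => h6 h4) h5⟩
    have h4 : (A \ Bf v).card = A.card - (Bf v).card := Finset.card_sdiff_of_subset (hBA v)
    have h5 : (Bf v).card ≤ A.card := Finset.card_le_card (hBA v)
    rw [h3, h4] at h2
    omega
  have hlow : O.card * (edn X - A.card) + ∑ v ∈ O, (Bf v).card ≤ ednOn (G.boxProd X) Z := by
    refine le_trans (le_of_eq ?_) ((Finset.sum_le_sum hone).trans hsum)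
    rw [Finset.sum_add_distrib, Finset.sum_const, smul_eq_mul]
  -- upper bound
  have hcov : nb (G.boxProd X) Z D ⊆ (O.biUnion fun v => ({v} : Finset U) ×ˢ Bf v) ∪
      C.biUnion fun u => ({u} : Finset U) ×ˢ ch A D u := by
    rintro ⟨u, y⟩ hp
    rw [mem_nb] at hp
    obtain ⟨hpD, ⟨v, y'⟩, hz, hadj⟩ := hp
    obtain ⟨w, hw, hz⟩ := Finset.mem_biUnion.1 hz
    rw [Finset.mem_product, Finset.mem_singleton] at hz
    obtain ⟨hvw, hy'⟩ := hz
    have hvw' : v = w := hvw
    subst hvw'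
    have hcase : u = v ∨ (y = y' ∧ G.Adj u v) := by
      rcases hadj with h | h
      · exact Or.inl (congrArg Prod.fst h)
      · rw [SimpleGraph.boxProd_adj] at h
        rcases h with h | h
        · exact Or.inr ⟨h.2, h.1⟩
        · exact Or.inl h.2
    rw [Finset.mem_union]
    rcases hcase with h | ⟨h, hG⟩
    · subst h
      left
      by_cases hyA : y ∈ A
      · exact Finset.mem_biUnion.2 ⟨u, hw, Finset.mem_product.2
          ⟨Finset.mem_singleton_self u, (hB u y).2 ⟨hyA, hpD⟩⟩⟩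
      · exact absurd hpD (h0 u hw y hyA)
    · subst h
      by_cases hyA : y ∈ A
      · exfalso
        have hyB : y ∈ Bf v := by
          rcases (hT v y).1 hy' with h2 | h2
          · exact absurd hyA h2
          · exact h2
        exact h1 y hyA v hw ((hB v y).1 hyB).2 u hG hpD
      · right
        by_cases huC : u ∈ C
        · exact Finset.mem_biUnion.2 ⟨u, huC, Finset.mem_product.2
            ⟨Finset.mem_singleton_self u, mem_ch.2 ⟨hyA, hpD⟩⟩⟩
        · exact absurd hpD (hC u ⟨v, hw, hG⟩ huC y hyA)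
  have hcard : ∀ (S : Finset U) (g : U → Finset W),
      (S.biUnion fun v => ({v} : Finset U) ×ˢ g v).card ≤ ∑ v ∈ S, (g v).card := by
    intro S g
    refine Finset.card_biUnion_le.trans (Finset.sum_le_sum fun v _ => ?_)
    rw [Finset.card_product, Finset.card_singleton, one_mul]
  have hup : (nb (G.boxProd X) Z D).card ≤ ∑ v ∈ O, (Bf v).card + ∑ u ∈ C, (ch A D u).card :=
    (Finset.card_le_card hcov).trans ((Finset.card_union_le _ _).trans
      (Nat.add_le_add (hcard O Bf) (hcard C fun u => ch A D u)))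
  have hst := ednOn_le_nb hF hD (Finset.subset_univ Z)
  omega

end Pool.Agent.Lib.MP_56aee0_co.OC
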