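import Pool.Agent.Lib.MP_56aee0_co.OC.SSr

/-!
# OC / Init : the initial state

`I` independent in `G`, `A` independent in `X`, `S = {(u, y) | u ∈ I ∨ y ∈ A}`, `Z = I × W ⊆ S`. Hypothesis `hP`: in an
eternal family of the region `S` no row over a vertex `a ∈ A` is equal to `I`.

PROOF.
(1) `exists_max_closed` for `F` and `S`: `F1 ⊆ F`, all `D ∈ F1` have `|D ∩ S| = M`, closed under the attacks in `S`, answers
in `S`. `F' = {D ∩ S | D ∈ F1}` satisfies `Et (G □ X) S F' M` (`et_of_closed`). `M ≤ N`.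
(2) `exists_max_closed` for `F'` and `Z`: `F2 ⊆ F'`, nonempty, `|D ∩ Z| = c` for `D ∈ F2`, closed under the attacks in `Z`,
answers in `Z`. `exists_occupied` with `Y = I ×ˢ A` (independent: `(i, a)`, `(i', a')` adjacent would need `G.Adj i i'` or
`X.Adj a a'`): there is `D ∈ F2` with `I ×ˢ A ⊆ D`. Note `D ∈ F'`, `D ⊆ S`, `|D| = M`.
(3) For `i ∈ I` the layer `{i} × W` contains at least `edn X` guards of `D`: `F'' = {D' ∩ Z | D' ∈ F2}` satisfies
`Et (G □ X) Z F'' c`; apply `ednOn_le_nb` to `F''`, `D ∩ Z` and `{i} ×ˢ univ ⊆ Z`: the set `nb (G □ X) ({i} ×ˢ univ) (D ∩ Z)` is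
contained in `{i} ×ˢ {y | (i, y) ∈ D}` (a vertex `(i', y)` with `i' ∈ I` next to the layer `i` has `G.Adj i' i`, impossible), and
`edn_le_layer` with `T = univ` gives `edn X ≤ ednOn (G □ X) ({i} ×ˢ univ)`.
(4) For `a ∈ A`: `I ⊆ row D a` by (2) and `row D a ≠ I` by `hP`; so there is `x a ∉ I` with `(x a, a) ∈ D`.
(5) Counting: `D ⊆ S` is the disjoint union of the layers `i ∈ I` (each at least `edn X`) and of
`D' = {(u, a) ∈ D | u ∉ I}`, `D' ⊆ (U \ I) × A`, which has at least one element over each `a ∈ A`. So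
`|I| edn X + |A| ≤ |D| = M ≤ N ≤ |I| edn X + |A|`: equality everywhere. Hence `M = N`, every layer `i ∈ I` has exactly `edn X`
guards, and exactly one `x ∉ I` has `(x, a) ∈ D`, for every `a ∈ A`: `row D a = insert (x a) I`.
(6) `D = D0 ∩ S` with `D0 ∈ F1 ⊆ F` and `|D0| = N = |D0 ∩ S|`, so `D0 ∩ S = D0`, `D = D0 ∈ F`.
(7) `ch A D i = {y ∉ A | (i, y) ∈ D}`, the layer has `edn X` guards and all `(i, a)`, `a ∈ A`, are occupied:
`|ch A D i| = edn X - |A|`. If `v ∉ I` and `y ∉ A`, `(v, y) ∉ S ⊇ D`.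
-/

set_option autoImplicit false

namespace Pool.Agent.Lib.MP_56aee0_co.OC

open Pool.Agent.Lib.MP_56aee0_co

variable {U W : Type} [Fintype U] [DecidableEq U] [Fintype W] [DecidableEq W]

theorem init_state {G : SimpleGraph U} {X : SimpleGraph W} {I : Finset U} {A : Finset W}
    (hI : ∀ i ∈ I, ∀ j ∈ I, ¬ G.Adj i j) (hA : ∀ a ∈ A, ∀ b ∈ A, ¬ X.Adj a b)
    {F : Set (Finset (U × W))} {N : ℕ} (hF : Et (G.boxProd X) Finset.univ F N) (h0 : F.Nonempty)
    (hN : N ≤ I.card * edn X + A.card)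
    (hP : ∀ (F' : Set (Finset (U × W))) (k : ℕ), Et (G.boxProd X) (SS I A) F' k →
      ∀ D ∈ F', ∀ a ∈ A, row D a ≠ I) :
    ∃ D ∈ F, (∀ v, v ∉ I → ∀ y, y ∉ A → (v, y) ∉ D) ∧
      (∀ i ∈ I, (ch A D i).card ≤ edn X - A.card) ∧
      (∀ a ∈ A, ∃ x, x ∉ I ∧ row D a = insert x I) := by
  -- step 1
  obtain ⟨F1, hF1F, hF1ne, M, hM⟩ := exists_max_closed (Γ := G.boxProd X) (Z := SS I A) (F := F)
    (k := N) (fun D hD => ⟨(hF D hD).2.1, fun v _ => (hF D hD).2.2 v (Finset.mem_univ v)⟩) h0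
  have hEt1 : Et (G.boxProd X) (SS I A) {Y | ∃ D ∈ F1, Y = D ∩ SS I A} M := et_of_closed hM
  have hF'ne : ({Y | ∃ D ∈ F1, Y = D ∩ SS I A} : Set (Finset (U × W))).Nonempty := by
    obtain ⟨D, hD⟩ := hF1ne
    exact ⟨D ∩ SS I A, D, hD, rfl⟩
  have hZS : ∀ v ∈ I ×ˢ (Finset.univ : Finset W), v ∈ SS I A := by
    intro v hv
    rw [Finset.mem_product] at hv
    unfold SS
    exact Finset.mem_filter.2 ⟨Finset.mem_univ v, Or.inl hv.1⟩
  -- step 2
  obtain ⟨F2, hF2F, hF2ne, c, hc⟩ := exists_max_closed (Γ := G.boxProd X)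
    (Z := I ×ˢ (Finset.univ : Finset W)) (k := M)
    (fun D hD => ⟨(hEt1 D hD).2.1, fun v hv => (hEt1 D hD).2.2 v (hZS v hv)⟩) hF'ne
  obtain ⟨D, hD2, hocc⟩ := exists_occupied (Γ := G.boxProd X)
    (Z := I ×ˢ (Finset.univ : Finset W)) (Y := I ×ˢ A) (fun D hD => (hc D hD).2) hF2ne
    (Finset.product_subset_product_right (Finset.subset_univ A)) (by
      rintro ⟨i, a⟩ hp ⟨j, b⟩ hq hadj
      rw [Finset.mem_product] at hp hq
      rw [SimpleGraph.boxProd_adj] at hadj
      rcases hadj with h | h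
      · exact hI i hp.1 j hq.1 h.1
      · exact hA a hp.2 b hq.2 h.1)
  have hDF' := hF2F hD2
  have hDS : D ⊆ SS I A := (hEt1 D hDF').1
  have hDM : D.card = M := (hEt1 D hDF').2.1
  -- step 3
  have hEt2 : Et (G.boxProd X) (I ×ˢ (Finset.univ : Finset W))
      {Y | ∃ D ∈ F2, Y = D ∩ (I ×ˢ (Finset.univ : Finset W))} c := et_of_closed hc
  have h3 : ∀ i ∈ I, edn X ≤ (D.filter fun p => p.1 = i).card := by
    intro i hi
    have h4 := ednOn_le_nb hEt2 (D := D ∩ (I ×ˢ (Finset.univ : Finset W))) ⟨D, hD2, rfl⟩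
      (Z := ({i} : Finset U) ×ˢ (Finset.univ : Finset W))
      (Finset.product_subset_product_left (Finset.singleton_subset_iff.2 hi))
    have h5 := edn_le_layer G X i (Finset.univ : Finset W)
    rw [Finset.sdiff_self, Finset.card_empty, Nat.add_zero] at h5
    refine h5.trans (h4.trans (Finset.card_le_card ?_))
    intro p hp
    rw [mem_nb] at hp
    obtain ⟨hpD, z, hz, hpz⟩ := hp
    rw [Finset.mem_inter, Finset.mem_product] at hpD
    rw [Finset.mem_product, Finset.mem_singleton] at hz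
    refine Finset.mem_filter.2 ⟨hpD.1, ?_⟩
    rcases hpz with h | h
    · rw [h]; exact hz.1
    · rw [SimpleGraph.boxProd_adj] at h
      rcases h with h | h
      · exfalso
        have := h.1
        rw [hz.1] at this
        exact hI _ hpD.2.1 _ hi this
      · exact h.2.trans hz.1
  -- step 4
  have hrowI : ∀ a ∈ A, I ⊆ row D a := by
    intro a ha i hi
    rw [mem_row]
    exact hocc (Finset.mem_product.2 ⟨hi, ha⟩)
  have h4 : ∀ a ∈ A, ∃ x, x ∉ I ∧ (x, a) ∈ D := by
    intro a ha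
    by_contra hcon
    push Not at hcon
    refine hP _ M hEt1 D hDF' a ha (Finset.Subset.antisymm (fun u hu => ?_) (hrowI a ha))
    by_contra hu'
    exact hcon u hu' (mem_row.1 hu)
  -- step 5
  have h5 : (D.filter fun p => p.1 ∈ I).card = ∑ i ∈ I, (D.filter fun p => p.1 = i).card := by
    have h5a : (D.filter fun p => p.1 ∈ I).card =
        ∑ i ∈ I, ((D.filter fun p => p.1 ∈ I).filter fun p => p.1 = i).card := by
      refine Finset.card_eq_sum_card_fiberwise (f := fun p : U × W => p.1) (t := I) (fun p hp => ?_)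
      exact Finset.mem_coe.2 (Finset.mem_filter.1 (Finset.mem_coe.1 hp)).2
    rw [h5a]
    refine Finset.sum_congr rfl fun i hi => ?_
    congr 1
    ext p
    simp only [Finset.mem_filter]
    constructor
    · rintro ⟨⟨h1, _⟩, h2⟩
      exact ⟨h1, h2⟩
    · rintro ⟨h1, h2⟩
      exact ⟨⟨h1, by rw [h2]; exact hi⟩, h2⟩
  have h6 : (D.filter fun p => ¬ p.1 ∈ I).card =
      ∑ a ∈ A, ((D.filter fun p => ¬ p.1 ∈ I).filter fun p => p.2 = a).card := by
    refine Finset.card_eq_sum_card_fiberwise (f := fun p : U × W => p.2) (t := A) (fun p hp => ?_)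
    have hp' := Finset.mem_filter.1 (Finset.mem_coe.1 hp)
    have := hDS hp'.1
    unfold SS at this
    rcases (Finset.mem_filter.1 this).2 with h | h
    · exact absurd h hp'.2
    · exact Finset.mem_coe.2 h
  have h7 : (D.filter fun p => p.1 ∈ I).card + (D.filter fun p => ¬ p.1 ∈ I).card = M := by
    rw [← hDM]
    exact Finset.card_filter_add_card_filter_not (s := D) (fun p => p.1 ∈ I)
  have h8 : ∀ a ∈ A, 1 ≤ ((D.filter fun p => ¬ p.1 ∈ I).filter fun p => p.2 = a).card := by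
    intro a ha
    obtain ⟨x, hx, hxD⟩ := h4 a ha
    exact Finset.card_pos.2 ⟨(x, a), Finset.mem_filter.2 ⟨Finset.mem_filter.2 ⟨hxD, hx⟩, rfl⟩⟩
  obtain ⟨D0, hD0, hDD0⟩ := hDF'
  have hD0N : D0.card = N := (hF D0 (hF1F hD0)).2.1
  have hMN : M ≤ N := by
    rw [← hDM, ← hD0N, hDD0]
    exact Finset.card_le_card Finset.inter_subset_left
  have h9 : I.card * edn X ≤ ∑ i ∈ I, (D.filter fun p => p.1 = i).card := by
    have := Finset.sum_le_sum h3
    rwa [Finset.sum_const, smul_eq_mul] at this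
  have h10 : A.card ≤ ∑ a ∈ A, ((D.filter fun p => ¬ p.1 ∈ I).filter fun p => p.2 = a).card := by
    have := Finset.sum_le_sum h8
    rwa [Finset.sum_const, smul_eq_mul, Nat.mul_one] at this
  have h11 : I.card * edn X = ∑ i ∈ I, (D.filter fun p => p.1 = i).card := by omega
  have h12 : A.card = ∑ a ∈ A, ((D.filter fun p => ¬ p.1 ∈ I).filter fun p => p.2 = a).card := by
    omega
  have h13 : M = N := by omega
  have h14 : ∀ i ∈ I, edn X = (D.filter fun p => p.1 = i).card := by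
    refine (Finset.sum_eq_sum_iff_of_le h3).1 ?_
    rw [Finset.sum_const, smul_eq_mul]
    exact h11
  have h15 : ∀ a ∈ A, 1 = ((D.filter fun p => ¬ p.1 ∈ I).filter fun p => p.2 = a).card := by
    refine (Finset.sum_eq_sum_iff_of_le h8).1 ?_
    rw [Finset.sum_const, smul_eq_mul, Nat.mul_one]
    exact h12
  -- step 6
  have h16 : D0 ∩ SS I A = D0 := by
    refine Finset.eq_of_subset_of_card_le Finset.inter_subset_left ?_
    rw [← hDD0, hDM, hD0N, h13]
  have hDF : D ∈ F := by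
    rw [hDD0, h16]
    exact hF1F hD0
  refine ⟨D, hDF, ?_, ?_, ?_⟩
  · intro v hv y hy hD
    have := hDS hD
    unfold SS at this
    rcases (Finset.mem_filter.1 this).2 with h | h
    · exact hv h
    · exact hy h
  · intro i hi
    have hdisj : Disjoint (ch A D i) A := by
      rw [Finset.disjoint_left]
      intro y hy
      exact (mem_ch.1 hy).1
    have h17 : (ch A D i).card + A.card ≤ (D.filter fun p => p.1 = i).card := by
      rw [← Finset.card_union_of_disjoint hdisj]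
      refine Finset.card_le_card_of_injOn (fun y => (i, y)) (fun y hy => ?_) (fun y _ z _ h => ?_)
      · rw [Finset.mem_coe, Finset.mem_union] at hy
        refine Finset.mem_coe.2 (Finset.mem_filter.2 ⟨?_, rfl⟩)
        rcases hy with h | h
        · exact (mem_ch.1 h).2
        · exact hocc (Finset.mem_product.2 ⟨hi, h⟩)
      · exact (Prod.mk.inj h).2
    have := h14 i hi
    omega
  · intro a ha
    obtain ⟨x, hx, hxD⟩ := h4 a ha
    refine ⟨x, hx, Finset.Subset.antisymm (fun u hu => ?_) (fun u hu => ?_)⟩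
    · rw [Finset.mem_insert]
      by_cases huI : u ∈ I
      · exact Or.inr huI
      · left
        obtain ⟨p, hp⟩ := Finset.card_eq_one.1 (h15 a ha).symm
        have e1 : (u, a) ∈ ({p} : Finset (U × W)) := by
          rw [← hp]
          exact Finset.mem_filter.2 ⟨Finset.mem_filter.2 ⟨mem_row.1 hu, huI⟩, rfl⟩
        have e2 : (x, a) ∈ ({p} : Finset (U × W)) := by
          rw [← hp]
          exact Finset.mem_filter.2 ⟨Finset.mem_filter.2 ⟨hxD, hx⟩, rfl⟩
        rw [Finset.mem_singleton] at e1 e2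
        exact (Prod.mk.inj (e1.trans e2.symm)).1
    · rcases Finset.mem_insert.1 hu with h | h
      · rw [h, mem_row]; exact hxD
      · exact hrowI a ha h

end Pool.Agent.Lib.MP_56aee0_co.OC
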