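import Pool.Agent.Lib.MP_56aee0_co.OC.AddB
import Pool.Agent.Lib.MP_56aee0_co.OC.Cyc

/-!
# OC / Iso : transport along an induced embedding; the odd cycle needs at most `b + 1` guards
-/

set_option autoImplicit false

namespace Pool.Agent.Lib.MP_56aee0_co.OC

open Pool.Agent.Lib.MP_56aee0_co

/-- families for `S.map e` in `Γ` and for `S` in `Γ'` correspond to each other by `D ↦ D.map e` -/
theorem ednOn_map {V V' : Type} [DecidableEq V] [DecidableEq V'] {Γ : SimpleGraph V} {Γ' : SimpleGraph V'}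
    (e : V' ↪ V) (he : ∀ u v, Γ'.Adj u v ↔ Γ.Adj (e u) (e v)) (S : Finset V') :
    ednOn Γ (S.map e) = ednOn Γ' S := by
  have key : ∀ (D' : Finset V') (u v : V'),
      insert (e v) ((D'.map e).erase (e u)) = (insert v (D'.erase u)).map e := by
    intro D' u v
    rw [Finset.map_insert, Finset.map_erase]
  apply le_antisymm
  · obtain ⟨F, ⟨D0, hD0⟩, hF⟩ := ednOn_exists Γ' S
    refine ednOn_le (F := {D | ∃ D' ∈ F, D = D'.map e}) ⟨D0.map e, D0, hD0, rfl⟩ ?_
    rintro D ⟨D', hD', rfl⟩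
    obtain ⟨h1, h2, h3⟩ := hF D' hD'
    refine ⟨Finset.map_subset_map.2 h1, by rw [Finset.card_map, h2], ?_⟩
    intro v hv
    obtain ⟨v', hv', rfl⟩ := Finset.mem_map.1 hv
    obtain ⟨u, hu, huv, hin⟩ := h3 v' hv'
    refine ⟨e u, Finset.mem_map_of_mem e hu, ?_, _, hin, key D' u v'⟩
    rcases huv with huv | huv
    · left
      rw [huv]
    · right
      exact (he u v').1 huv
  · obtain ⟨F, ⟨D0, hD0⟩, hF⟩ := ednOn_exists Γ (S.map e)
    have hlift : ∀ D ∈ F, ∃ D' : Finset V', D = D'.map e := by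
      intro D hD
      obtain ⟨h1, -, -⟩ := hF D hD
      obtain ⟨D', -, hD'⟩ := Finset.subset_map_iff.1 h1
      exact ⟨D', hD'⟩
    obtain ⟨D0', rfl⟩ := hlift D0 hD0
    refine ednOn_le (F := {D' : Finset V' | D'.map e ∈ F}) ⟨D0', hD0⟩ ?_
    intro D' hD'
    obtain ⟨h1, h2, h3⟩ := hF (D'.map e) hD'
    refine ⟨Finset.map_subset_map.1 h1, by rw [← h2, Finset.card_map], ?_⟩
    intro v hv
    obtain ⟨u, hu, huv, hin⟩ := h3 (e v) (Finset.mem_map_of_mem e hv)
    obtain ⟨u', hu', rfl⟩ := Finset.mem_map.1 hu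
    refine ⟨u', hu', ?_, ?_⟩
    · rcases huv with huv | huv
      · left
        exact e.injective huv
      · right
        exact (he u' v).2 huv
    · have h4 := key D' u' v
      rw [h4] at hin
      exact hin

/-- `ednOn_map` for the embedding `(u, y) ↦ (e u, y)` of `Γ' □ X` in `Γ □ X`, and `edn_eq_ednOn` -/
theorem ednOn_map_prod {V V' W : Type} [DecidableEq V] [Fintype V'] [DecidableEq V'] [Fintype W] [DecidableEq W]
    {Γ : SimpleGraph V} {Γ' : SimpleGraph V'} (X : SimpleGraph W)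
    (e : V' ↪ V) (he : ∀ u v, Γ'.Adj u v ↔ Γ.Adj (e u) (e v)) :
    ednOn (Γ.boxProd X) ((Finset.univ.map e) ×ˢ (Finset.univ : Finset W)) = edn (Γ'.boxProd X) := by
  rw [edn_eq_ednOn]
  have h1 : ((Finset.univ.map e) ×ˢ (Finset.univ : Finset W)) =
      (Finset.univ : Finset (V' × W)).map (e.prodMap (Function.Embedding.refl W)) := by
    ext ⟨a, w⟩
    simp only [Finset.mem_product, Finset.mem_map, Finset.mem_univ, true_and, and_true,
      Function.Embedding.coe_prodMap, Prod.map_apply, Function.Embedding.refl_apply,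
      Prod.exists, Prod.mk.injEq]
    constructor
    · rintro ⟨x, hx⟩
      exact ⟨x, w, hx, rfl⟩
    · rintro ⟨x, y, hx, -⟩
      exact ⟨x, hx⟩
  rw [h1]
  apply ednOn_map
  rintro ⟨u1, u2⟩ ⟨v1, v2⟩
  simp only [SimpleGraph.boxProd_adj, Function.Embedding.coe_prodMap, Prod.map_apply,
    Function.Embedding.refl_apply, he u1 v1, e.injective.eq_iff]

/-- the cliques `{0, 1}, {2, 3}, …, {2b-2, 2b-1}, {2b}` (`edn_le_cover` in `Edn.lean`, or `ednOn_union_le` and
`ednOn_clique_le_one`) -/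
theorem edn_odd_cycle_le {b : ℕ} (hb : 2 ≤ b) : edn (SimpleGraph.cycleGraph (2 * b + 1)) ≤ b + 1 := by
  have hc : ∀ v : Fin (2 * b + 1), v.val / 2 < b + 1 := by
    intro v
    have := v.isLt
    omega
  apply edn_le_cover _ (fun v : Fin (2 * b + 1) => (⟨v.val / 2, hc v⟩ : Fin (b + 1)))
  intro u v huv hne
  have h1 : u.val / 2 = v.val / 2 := congrArg Fin.val huv
  have h2 : u.val ≠ v.val := fun h => hne (Fin.ext h)
  rw [cyc_adj hb]
  omega

end Pool.Agent.Lib.MP_56aee0_co.OC
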