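import Pool.Agent.Lib.MP_56aee0_co.OC.GG
import Pool.Agent.Lib.MP_56aee0_co.OC.GG0
import Pool.Agent.Lib.MP_56aee0_co.OC.Cyc

/-!
# OC / Kill : two rows which are impossible (static inequality, `O = ∅`)

Both from `GG` with `O = ∅` (the hypotheses `hO h0 h1` are empty):
`kill_w`: `E = {⟨2 b, _⟩}`, `C = ∅`, `R = ∅`; conclusion `0 + 1 ≤ 0 + 0`. The neighbours of `2 b` are `2 b - 1` and `0` (`cyc_adj`).
`kill_od`: `E = Od b`, `C = ∅`, `R = Em b`: a vertex equal or adjacent to a vertex of `Od b` has a value `≥ 2`; conclusion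
`b - 1 ≤ b - 2`.
-/

set_option autoImplicit false

namespace Pool.Agent.Lib.MP_56aee0_co.OC

open Pool.Agent.Lib.MP_56aee0_co

variable {W : Type} [Fintype W] [DecidableEq W]

theorem kill_w {b : ℕ} (hb : 2 ≤ b) {X : SimpleGraph W} {A : Finset W}
    (hA : ∀ a ∈ A, ∀ b ∈ A, ¬ X.Adj a b) (hm : A.card ≤ edn X)
    {F : Set (Finset (Fin (2 * b + 1) × W))} {N : ℕ}
    (hF : Et ((SimpleGraph.cycleGraph (2 * b + 1)).boxProd X) Finset.univ F N)
    {D : Finset (Fin (2 * b + 1) × W)} (hD : D ∈ F) {a : W} (ha : a ∈ A)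
    (hc : ∀ (u : Fin (2 * b + 1)) (y : W), u.val = 2 * b → y ∉ A → (u, y) ∉ D)
    (hr : ∀ u : Fin (2 * b + 1), (u, a) ∈ D → u.val ≠ 0 ∧ u.val ≠ 2 * b - 1 ∧ u.val ≠ 2 * b) : False := by
  have h := GG hA hm hF hD ∅ {(⟨2 * b, by omega⟩ : Fin (2 * b + 1))} (by simp)
    (by
      intro u hu v hv
      rw [Finset.mem_singleton] at hu hv
      rw [hu, hv]
      exact SimpleGraph.irrefl _)
    (Finset.disjoint_empty_left _) ha (by simp) (by simp) ∅ ∅
    (by
      rintro u (hu | ⟨v, hv, -⟩) - y hy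
      · rw [Finset.mem_singleton] at hu
        exact hc u y (by rw [hu]) hy
      · exact absurd hv (Finset.notMem_empty v))
    (by
      intro u hu h1
      exfalso
      obtain ⟨h2, h3, h4⟩ := hr u hu
      rcases h1 with h1 | h1 | ⟨e, he, h1⟩
      · exact Finset.notMem_empty u h1
      · rw [Finset.mem_singleton] at h1
        exact h4 (by rw [h1])
      · rw [Finset.mem_singleton] at he
        rw [cyc_adj hb, he] at h1
        have h5 := u.isLt
        simp only at h1
        omega)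
  rw [Finset.card_empty, zero_mul, Finset.card_singleton, Finset.sum_empty] at h
  omega

theorem kill_od {b : ℕ} (hb : 2 ≤ b) {X : SimpleGraph W} {A : Finset W}
    (hA : ∀ a ∈ A, ∀ b ∈ A, ¬ X.Adj a b) (hm : A.card ≤ edn X)
    {F : Set (Finset (Fin (2 * b + 1) × W))} {N : ℕ}
    (hF : Et ((SimpleGraph.cycleGraph (2 * b + 1)).boxProd X) Finset.univ F N)
    {D : Finset (Fin (2 * b + 1) × W)} (hD : D ∈ F) {a : W} (ha : a ∈ A)
    (hc : ∀ u ∈ Od b, ∀ y, y ∉ A → (u, y) ∉ D)
    (hr : ∀ u : Fin (2 * b + 1), (u, a) ∈ D → u.val ≤ 1 ∨ u ∈ Em b) : False := by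
  have h := GG hA hm hF hD ∅ (Od b) (by simp) (indep_Od hb)
    (Finset.disjoint_empty_left _) ha (by simp) (by simp) ∅ (Em b)
    (by
      rintro u (hu | ⟨v, hv, -⟩) - y hy
      · exact hc u hu y hy
      · exact absurd hv (Finset.notMem_empty v))
    (by
      intro u hu h1
      rcases hr u hu with h2 | h2
      · exfalso
        rcases h1 with h1 | h1 | ⟨e, he, h1⟩
        · exact Finset.notMem_empty u h1
        · have h3 := (Finset.mem_filter.1 h1).2
          omega
        · have h3 := (Finset.mem_filter.1 he).2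
          rw [cyc_adj hb] at h1
          omega
      · exact h2)
  rw [Finset.card_empty, zero_mul, card_Od hb, Finset.sum_empty, card_Em hb] at h
  omega

end Pool.Agent.Lib.MP_56aee0_co.OC
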