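import Pool.Agent.Lib.MP_56aee0_co.OC.Layer

/-!
# OC / RowC : attacks in a layer `{v} × W` with few guards
-/

set_option autoImplicit false

namespace Pool.Agent.Lib.MP_56aee0_co.OC

open Pool.Agent.Lib.MP_56aee0_co

variable {U W : Type} [Fintype U] [DecidableEq U] [Fintype W] [DecidableEq W]

/-- If the layer `{v} × W` has fewer than `edn X` guards, attacks in this layer bring a guard from another layer.
Let `R` be the set of the states `D' ∈ F` which agree with `D` outside the layer `v`. If every attack `(v, y)` on every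
state of `R` were answered inside the layer, the traces `{y | (v, y) ∈ D'}` (`D' ∈ R`) would be an eternal family of `X`
whose states have `|{y | (v, y) ∈ D}|` guards (`|D'| = |D|`), a contradiction (`edn_le`). So some `D1 ∈ R` and `y` have an
answer `(u, y)` with `G.Adj u v` (and `(v, y) ∉ D1`); take `D' = insert (v, y) (D1.erase (u, y))`. -/
theorem layer_arrival {G : SimpleGraph U} {X : SimpleGraph W}
    {F : Set (Finset (U × W))} {N : ℕ} (hF : Et (G.boxProd X) Finset.univ F N)
    {D : Finset (U × W)} (hD : D ∈ F) (v : U)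
    (hlt : (Finset.univ.filter fun y : W => (v, y) ∈ D).card < edn X) :
    ∃ D' ∈ F, ∃ u y, G.Adj u v ∧ (u, y) ∈ D ∧ (v, y) ∈ D' ∧
      ∀ u' y', u' ≠ v → ((u', y') ∈ D' ↔ ((u', y') ∈ D ∧ (u', y') ≠ (u, y))) := by
  by_contra hcon
  apply absurd hlt
  rw [not_lt]
  have h1 : ∀ E : Finset (U × W), (Finset.univ.filter fun y : W => (v, y) ∈ E).card +
      (E.filter fun p => ¬ p.1 = v).card = E.card := by
    intro E
    rw [← Finset.card_filter_add_card_filter_not (s := E) (fun p => p.1 = v)]
    have h2 : (Finset.univ.filter fun y : W => (v, y) ∈ E).card =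
        (E.filter fun p => p.1 = v).card := by
      refine Finset.card_bij (fun y _ => (v, y)) ?_ ?_ ?_
      · intro y hy
        rw [Finset.mem_filter] at hy ⊢
        exact ⟨hy.2, rfl⟩
      · intro y _ y' _ h
        exact congrArg Prod.snd h
      · rintro ⟨u, y⟩ hp
        rw [Finset.mem_filter] at hp
        obtain ⟨hp1, hp2⟩ := hp
        have hp3 : u = v := hp2
        subst hp3
        exact ⟨y, by rw [Finset.mem_filter]; exact ⟨Finset.mem_univ _, hp1⟩, rfl⟩
    omega
  have hcard : ∀ D' ∈ F, (∀ u' y', u' ≠ v → ((u', y') ∈ D' ↔ (u', y') ∈ D)) →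
      (Finset.univ.filter fun y : W => (v, y) ∈ D').card =
        (Finset.univ.filter fun y : W => (v, y) ∈ D).card := by
    intro D' hD' h
    have h2 : (D'.filter fun p => ¬ p.1 = v) = D.filter fun p => ¬ p.1 = v := by
      ext ⟨u, y⟩
      rw [Finset.mem_filter, Finset.mem_filter]
      constructor
      · rintro ⟨h3, h4⟩
        exact ⟨(h u y h4).1 h3, h4⟩
      · rintro ⟨h3, h4⟩
        exact ⟨(h u y h4).2 h3, h4⟩
    have h3 := h1 D'
    have h4 := h1 D
    rw [h2, (hF D' hD').2.1] at h3
    rw [(hF D hD).2.1] at h4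
    omega
  refine edn_le (F := {T | ∃ D' ∈ F, (∀ u' y', u' ≠ v → ((u', y') ∈ D' ↔ (u', y') ∈ D)) ∧
    T = Finset.univ.filter fun y : W => (v, y) ∈ D'}) ⟨_, D, hD, fun _ _ _ => Iff.rfl, rfl⟩ ?_
  rintro T ⟨D', hD', hag, rfl⟩
  refine ⟨hcard D' hD' hag, fun y => ?_⟩
  by_cases hy : (v, y) ∈ D'
  · have hy' : y ∈ Finset.univ.filter fun y : W => (v, y) ∈ D' := by
      rw [Finset.mem_filter]
      exact ⟨Finset.mem_univ _, hy⟩
    refine ⟨y, hy', Or.inl rfl, D', hD', hag, ?_⟩
    rw [Finset.insert_erase hy']
  · obtain ⟨⟨u, w⟩, hu, hadj, hnew⟩ := (hF D' hD').2.2 (v, y) (Finset.mem_univ _)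
    rcases hadj with he | he
    · rw [he] at hu
      exact absurd hu hy
    · rw [SimpleGraph.boxProd_adj] at he
      rcases he with ⟨he1, he2⟩ | ⟨he1, he2⟩
      · exfalso
        have he3 : w = y := he2
        have he4 : G.Adj u v := he1
        subst he3
        have hne : u ≠ v := he4.ne
        refine hcon ⟨_, hnew, u, w, he4, (hag u w hne).1 hu, Finset.mem_insert_self _ _, ?_⟩
        intro u' y' hu'
        rw [Finset.mem_insert, Finset.mem_erase]
        constructor
        · rintro (h2 | ⟨h2, h3⟩)
          · exact absurd (congrArg Prod.fst h2) hu'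
          · exact ⟨(hag u' y' hu').1 h3, h2⟩
        · rintro ⟨h2, h3⟩
          exact Or.inr ⟨h3, (hag u' y' hu').2 h2⟩
      · have he3 : u = v := he2
        have he4 : X.Adj w y := he1
        subst he3
        refine ⟨w, ?_, Or.inr he4, _, hnew, ?_, ?_⟩
        · rw [Finset.mem_filter]
          exact ⟨Finset.mem_univ _, hu⟩
        · intro u' y' hu'
          rw [Finset.mem_insert, Finset.mem_erase, ← hag u' y' hu']
          constructor
          · rintro (h2 | ⟨h2, h3⟩)
            · exact absurd (congrArg Prod.fst h2) hu'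
            · exact h3
          · intro h2
            refine Or.inr ⟨?_, h2⟩
            intro h3
            exact hu' (congrArg Prod.fst h3)
        · ext x
          rw [Finset.mem_insert, Finset.mem_erase, Finset.mem_filter, Finset.mem_filter,
            Finset.mem_insert, Finset.mem_erase]
          constructor
          · rintro (h2 | ⟨h2, h3, h4⟩)
            · exact ⟨Finset.mem_univ _, Or.inl (by rw [h2])⟩
            · refine ⟨Finset.mem_univ _, Or.inr ⟨?_, h4⟩⟩
              intro h5
              exact h2 (congrArg Prod.snd h5)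
          · rintro ⟨-, h2 | ⟨h2, h3⟩⟩
            · exact Or.inl (congrArg Prod.snd h2)
            · refine Or.inr ⟨?_, Finset.mem_univ _, h3⟩
              rintro rfl
              exact h2 rfl

end Pool.Agent.Lib.MP_56aee0_co.OC
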