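import Pool.Agent.Lib.MP_56aee0_co.OC.PunC
import Pool.Agent.Lib.MP_56aee0_co.OC.RowC

/-!
# OC / MainC : the contradiction

PROOF. Let `1 : Fin (2b+1)` (value `1`); `1 ∉ Iv b`, so `(1, y) ∈ D` implies `y ∈ A`: the layer of `1` has at most `|A| < edn X` guards.
`layer_arrival` at `v = 1`: `D' ∈ F`, `(u, y) ∈ D`, `u` adjacent to `1` (so `u = 0` or `u = 2` by `cyc_adj`), `(1, y) ∈ D'`, and
outside the layer `1` the state `D'` is `D` without `(u, y)`.
Facts for `D'` (a vertex of a layer `≠ 1` in `D'` is in `D`):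
 (c1) for `u' ∉ Iv b`, `u' ≠ 1`, `y' ∉ A`: `(u', y') ∉ D'`.  (c2) `|ch A D' i| ≤ edn X - |A|` for `i ∈ Iv b` (`1 ∉ Iv b`, subset).
 (c3) for every `a' ∈ A` with `a' ≠ y`, `v ≥ 3` odd or `v = 2b`, `(v, a') ∈ D'`, `u'` adjacent to `v`: `(u', a') ∉ D'`. Indeed `v ∈ row D a'`
  (`v ≠ 1`). Row `al`: `v ∈ al b` impossible. Row `be`: `v` is odd (`2b ∉ be b`), `u'` is even and `≥ 2`, so `u' ≠ 1`, `u' ∉ be b`. Row `ga`:
  `v = 2b`, `u' = 2b-1` or `0`, `u' ≠ 1` (`b ≥ 2`), `u' ∉ ga b`.
CASE `y ∉ A`. (c3) holds for all `a' ∈ A`. `ch A D' u` is smaller than `ch A D u` (`ch_lt`). `GG0` for `D'`: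
 * `u = 0`: `O = {2b}`, `C = {0}`: the neighbours of `2b` are `2b-1` (no chips) and `0`. Conclusion `δ ≤ |ch A D' 0| < δ`, `δ = edn X - |A|`.
 * `u = 2`: `O = Od b`, `C = Ip b`: conclusion `(b-1) δ ≤ ∑_{Ip b} |ch A D' i| < (b-1) δ` (`2 ∈ Ip b`, `card_Ip`).
CASE `y ∈ A`: `Cnd b A D' (edn X - |A|) y`. The row `y` of `D'` is `1` and the row of `D` without `u`.
 * `u = 0`: row `ga` impossible (`0 ∉ ga b`). Row `al`: the new row is `{1, 2, 4, …, 2b-2}`: `kill_w`. Row `be`: the new row is
   `{1, 3, …, 2b-1}`: `punish_be`.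
 * `u = 2`: row `be` impossible. Row `al`: the new row is `{0, 1, 4, …, 2b-2}`: `kill_od`. Row `ga`: the new row is `{1, 4, …, 2b}`:
   `punish_ga`.
-/

set_option autoImplicit false

namespace Pool.Agent.Lib.MP_56aee0_co.OC

open Pool.Agent.Lib.MP_56aee0_co

variable {W : Type} [Fintype W] [DecidableEq W]

private theorem MainC_Iv {b : ℕ} {w : Fin (2 * b + 1)} :
    w ∈ Iv b ↔ (w.val % 2 = 0 ∧ w.val < 2 * b) := by
  unfold Iv
  rw [Finset.mem_filter]
  exact and_iff_right (Finset.mem_univ w)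

private theorem MainC_Od {b : ℕ} {w : Fin (2 * b + 1)} :
    w ∈ Od b ↔ (w.val % 2 = 1 ∧ 3 ≤ w.val) := by
  unfold Od
  rw [Finset.mem_filter]
  exact and_iff_right (Finset.mem_univ w)

private theorem MainC_Em {b : ℕ} {w : Fin (2 * b + 1)} :
    w ∈ Em b ↔ (w.val % 2 = 0 ∧ 4 ≤ w.val ∧ w.val < 2 * b) := by
  unfold Em
  rw [Finset.mem_filter]
  exact and_iff_right (Finset.mem_univ w)

private theorem MainC_Ip {b : ℕ} {w : Fin (2 * b + 1)} :
    w ∈ Ip b ↔ (w.val % 2 = 0 ∧ 2 ≤ w.val ∧ w.val < 2 * b) := by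
  unfold Ip
  rw [Finset.mem_filter]
  exact and_iff_right (Finset.mem_univ w)

private theorem MainC_al {b : ℕ} {w : Fin (2 * b + 1)} :
    w ∈ al b ↔ (w.val = 1 ∨ (w.val % 2 = 0 ∧ w.val < 2 * b)) := by
  unfold al
  rw [Finset.mem_filter]
  exact and_iff_right (Finset.mem_univ w)

private theorem MainC_be {b : ℕ} {w : Fin (2 * b + 1)} :
    w ∈ be b ↔ (w.val = 0 ∨ w.val % 2 = 1) := by
  unfold be
  rw [Finset.mem_filter]
  exact and_iff_right (Finset.mem_univ w)

private theorem MainC_ga {b : ℕ} {w : Fin (2 * b + 1)} :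
    w ∈ ga b ↔ (w.val = 1 ∨ (w.val % 2 = 0 ∧ 0 < w.val)) := by
  unfold ga
  rw [Finset.mem_filter]
  exact and_iff_right (Finset.mem_univ w)

theorem main_false {b : ℕ} (hb : 2 ≤ b) {X : SimpleGraph W} {A : Finset W}
    (hA : ∀ a ∈ A, ∀ b ∈ A, ¬ X.Adj a b) (hm : A.card < edn X)
    {F : Set (Finset (Fin (2 * b + 1) × W))} {N : ℕ}
    (hF : Et ((SimpleGraph.cycleGraph (2 * b + 1)).boxProd X) Finset.univ F N)
    {D : Finset (Fin (2 * b + 1) × W)} (hD : D ∈ F)
    (hc : ∀ u, u ∉ Iv b → ∀ y, y ∉ A → (u, y) ∉ D)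
    (hch : ∀ i ∈ Iv b, (ch A D i).card ≤ edn X - A.card)
    (hgood : ∀ a ∈ A, row D a = al b ∨ row D a = be b ∨ row D a = ga b) : False := by
  have h1 : 1 < 2 * b + 1 := by omega
  have hlt : (Finset.univ.filter fun y : W => ((⟨1, h1⟩ : Fin (2 * b + 1)), y) ∈ D).card < edn X := by
    refine lt_of_le_of_lt (Finset.card_le_card fun y hy => ?_) hm
    by_contra hyA
    refine hc _ (fun h => ?_) y hyA (Finset.mem_filter.1 hy).2
    have h2 : ((⟨1, h1⟩ : Fin (2 * b + 1)) : ℕ) = 1 := rfl
    rw [MainC_Iv, h2] at h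
    omega
  obtain ⟨D', hD', u, y, huv, huD, hvD', hout⟩ := layer_arrival hF hD _ hlt
  have hout1 : ∀ (u' : Fin (2 * b + 1)) (y' : W), u'.val ≠ 1 →
      ((u', y') ∈ D' ↔ ((u', y') ∈ D ∧ (u', y') ≠ (u, y))) := fun u' y' h =>
    hout u' y' (fun h' => h (congrArg Fin.val h'))
  have hu : u.val = 0 ∨ u.val = 2 := by
    rw [cyc_adj hb] at huv
    have h2 : ((⟨1, h1⟩ : Fin (2 * b + 1)) : ℕ) = 1 := rfl
    rw [h2] at huv
    omega
  have c1 : ∀ u' : Fin (2 * b + 1), u' ∉ Iv b → u'.val ≠ 1 → ∀ y', y' ∉ A → (u', y') ∉ D' :=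
    fun u' hu' h y' hy' h' => hc u' hu' y' hy' ((hout1 u' y' h).1 h').1
  have c2 : ∀ i ∈ Iv b, (ch A D' i).card ≤ edn X - A.card := by
    intro i hi
    refine le_trans (Finset.card_le_card fun y' hy' => ?_) (hch i hi)
    rw [mem_ch] at hy' ⊢
    refine ⟨hy'.1, ((hout1 i y' (fun h => ?_)).1 hy'.2).1⟩
    rw [MainC_Iv] at hi
    omega
  have c3 : ∀ a' ∈ A, ∀ w : Fin (2 * b + 1), 3 ≤ w.val → (w.val % 2 = 1 ∨ w.val = 2 * b) →
      (w, a') ∈ D' → ∀ u', (SimpleGraph.cycleGraph (2 * b + 1)).Adj u' w → (u', a') ∉ D' := by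
    intro a' ha' w hw3 hw hwD u' hadj hu'D
    rw [cyc_adj hb] at hadj
    have hw1 : w ∈ row D a' := mem_row.2 ((hout1 w a' (by omega)).1 hwD).1
    have hwlt := w.2
    have hu1 : u'.val ≠ 1 → u' ∈ row D a' := fun h => mem_row.2 ((hout1 u' a' h).1 hu'D).1
    rcases hgood a' ha' with h | h | h
    · rw [h, MainC_al] at hw1
      omega
    · rw [h, MainC_be] at hw1
      have h2 := hu1 (by omega)
      rw [h, MainC_be] at h2
      omega
    · rw [h, MainC_ga] at hw1
      have h2 := hu1 (by omega)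
      rw [h, MainC_ga] at h2
      omega
  by_cases hyA : y ∈ A
  · have hC : Cnd b A D' (edn X - A.card) y := ⟨c1, c2, fun a' ha' _ => c3 a' ha'⟩
    have hrow1 : ∀ w : Fin (2 * b + 1), w.val = 1 → (w, y) ∈ D' := by
      intro w hw
      have h2 : w = ⟨1, h1⟩ := Fin.ext hw
      rw [h2]
      exact hvD'
    have hrow : ∀ w : Fin (2 * b + 1), w.val ≠ 1 →
        ((w, y) ∈ D' ↔ (w ∈ row D y ∧ w.val ≠ u.val)) := by
      intro w hw
      rw [hout1 w y hw, mem_row]
      refine and_congr_right fun _ => not_congr ⟨fun h => ?_, fun h => ?_⟩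
      · exact congrArg (fun p : Fin (2 * b + 1) × W => p.1.val) h
      · rw [Fin.ext h]
    have huR : u ∈ row D y := mem_row.2 huD
    rcases hu with hu | hu
    · rcases hgood y hyA with h | h | h
      · refine kill_w hb hA hm.le hF hD' hyA ?_ ?_
        · intro u' y' hu' hy'
          refine c1 u' (fun h' => ?_) (by omega) y' hy'
          rw [MainC_Iv] at h'
          omega
        · intro w hw
          by_cases hw1 : w.val = 1
          · omega
          · have h2 := (hrow w hw1).1 hw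
            rw [h, MainC_al] at h2
            omega
      · refine punish_be hb hA hm hF hD' hyA hC fun w => ?_
        by_cases hw1 : w.val = 1
        · exact ⟨fun _ => by omega, fun _ => hrow1 w hw1⟩
        · rw [hrow w hw1, h, MainC_be]
          omega
      · rw [h, MainC_ga] at huR
        omega
    · rcases hgood y hyA with h | h | h
      · refine kill_od hb hA hm.le hF hD' hyA ?_ ?_
        · intro u' hu' y' hy'
          rw [MainC_Od] at hu'
          refine c1 u' (fun h' => ?_) (by omega) y' hy'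
          rw [MainC_Iv] at h'
          omega
        · intro w hw
          by_cases hw1 : w.val = 1
          · exact Or.inl (by omega)
          · have h2 := (hrow w hw1).1 hw
            rw [h, MainC_al] at h2
            rw [MainC_Em]
            omega
      · rw [h, MainC_be] at huR
        omega
      · refine punish_ga hb hA hm hF hD' hyA hC fun w => ?_
        by_cases hw1 : w.val = 1
        · exact ⟨fun _ => Or.inl hw1, fun _ => hrow1 w hw1⟩
        · rw [hrow w hw1, h, MainC_ga]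
          omega
  · have huI : u ∈ Iv b := by
      rw [MainC_Iv]
      omega
    have hu1 : u.val ≠ 1 := by omega
    have hlt2 : (ch A D' u).card < edn X - A.card := by
      refine lt_of_lt_of_le (ch_lt hyA huD (fun h => ?_) fun y' hy' h => ?_) (hch u huI)
      · exact ((hout1 u y hu1).1 h).2 rfl
      · exact ((hout1 u y' hu1).1 h).1
    rcases hu with hu | hu
    · have h2b : 2 * b < 2 * b + 1 := by omega
      have hval : ((⟨2 * b, h2b⟩ : Fin (2 * b + 1)) : ℕ) = 2 * b := rfl
      have hg := GG0 hm.le hF hD' ({⟨2 * b, h2b⟩} : Finset (Fin (2 * b + 1)))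
        (by
          intro x hx x' hx' hadj
          rw [Finset.mem_singleton] at hx hx'
          rw [hx, hx'] at hadj
          exact hadj.ne rfl)
        (by
          intro x hx y' hy'
          rw [Finset.mem_singleton] at hx
          rw [hx]
          refine c1 _ (fun h' => ?_) (by rw [hval]; omega) y' hy'
          rw [MainC_Iv, hval] at h'
          omega)
        (by
          intro a' ha' x hx hxD u' hadj
          rw [Finset.mem_singleton] at hx
          rw [hx] at hxD hadj
          exact c3 a' ha' _ (by rw [hval]; omega) (Or.inr hval) hxD u' hadj)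
        {u}
        (by
          rintro u' ⟨x, hx, hadj⟩ hu' y' hy'
          rw [Finset.mem_singleton] at hx hu'
          rw [hx, cyc_adj hb, hval] at hadj
          have h3 : u'.val ≠ u.val := fun h => hu' (Fin.ext h)
          have h4 := u'.2
          refine c1 u' (fun h' => ?_) (by omega) y' hy'
          rw [MainC_Iv] at h'
          omega)
      rw [Finset.card_singleton, Finset.sum_singleton, one_mul] at hg
      omega
    · have hg := GG0 hm.le hF hD' (Od b) (indep_Od hb)
        (by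
          intro x hx y' hy'
          rw [MainC_Od] at hx
          refine c1 x (fun h' => ?_) (by omega) y' hy'
          rw [MainC_Iv] at h'
          omega)
        (by
          intro a' ha' x hx hxD u' hadj
          rw [MainC_Od] at hx
          exact c3 a' ha' x hx.2 (Or.inl hx.1) hxD u' hadj)
        (Ip b)
        (by
          rintro u' ⟨x, hx, hadj⟩ hu' y' hy'
          rw [MainC_Od] at hx
          rw [cyc_adj hb] at hadj
          rw [MainC_Ip] at hu'
          have h3 := u'.2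
          have h4 := x.2
          refine c1 u' (fun h' => ?_) (by omega) y' hy'
          rw [MainC_Iv] at h'
          omega)
      have hs : ∑ i ∈ Ip b, (ch A D' i).card < ∑ i ∈ Ip b, (edn X - A.card) := by
        refine Finset.sum_lt_sum (fun i hi => c2 i ?_) ⟨u, ?_, hlt2⟩
        · rw [MainC_Ip] at hi
          rw [MainC_Iv]
          omega
        · rw [MainC_Ip]
          omega
      rw [Finset.sum_const, smul_eq_mul, card_Ip hb] at hs
      rw [card_Od hb] at hg
      exact absurd hs (not_lt.2 hg)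

end Pool.Agent.Lib.MP_56aee0_co.OC
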