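import Pool.Agent.Lib.MP_56aee0_co.OC.Base

/-!
# OC / Max : a family with the largest number of guards in `Z`
-/

set_option autoImplicit false

namespace Pool.Agent.Lib.MP_56aee0_co.OC

open Pool.Agent.Lib.MP_56aee0_co

variable {V : Type} [DecidableEq V]

private theorem max_ex {α : Type} (F : Set α) (f : α → ℕ) (k : ℕ) (hb : ∀ x ∈ F, f x ≤ k)
    (h0 : F.Nonempty) : ∃ x0 ∈ F, ∀ x ∈ F, f x ≤ f x0 := by
  obtain ⟨x0, hx0, h⟩ := (measure (fun x => k - f x)).wf.has_min F h0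
  refine ⟨x0, hx0, fun x hx => ?_⟩
  by_contra hlt
  have h1 := hb x hx
  have h2 : ¬ (k - f x < k - f x0) := h x hx
  omega

private theorem max_card_out {D Z : Finset V} {v u : V} (hv : v ∈ Z) (hvD : v ∉ D) (hu : u ∉ Z) :
    (insert v (D.erase u) ∩ Z).card = (D ∩ Z).card + 1 := by
  have h1 : insert v (D.erase u) ∩ Z = insert v (D ∩ Z) := by
    ext w
    simp only [Finset.mem_inter, Finset.mem_insert, Finset.mem_erase]
    constructor
    · rintro ⟨h | h, hw⟩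
      · exact Or.inl h
      · exact Or.inr ⟨h.2, hw⟩
    · rintro (h | h)
      · subst h
        exact ⟨Or.inl rfl, hv⟩
      · refine ⟨Or.inr ⟨?_, h.1⟩, h.2⟩
        rintro rfl
        exact hu h.2
  rw [h1, Finset.card_insert_of_notMem]
  intro h
  exact hvD (Finset.mem_inter.mp h).1

private theorem max_card_in {D Z : Finset V} {v u : V} (hv : v ∈ Z) (hvD : v ∉ D) (huD : u ∈ D)
    (hu : u ∈ Z) : (insert v (D.erase u) ∩ Z).card = (D ∩ Z).card := by
  have h1 : insert v (D.erase u) ∩ Z = insert v ((D ∩ Z).erase u) := by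
    ext w
    simp only [Finset.mem_inter, Finset.mem_insert, Finset.mem_erase]
    constructor
    · rintro ⟨h | h, hw⟩
      · exact Or.inl h
      · exact Or.inr ⟨h.1, h.2, hw⟩
    · rintro (h | h)
      · subst h
        exact ⟨Or.inl rfl, hv⟩
      · exact ⟨Or.inr ⟨h.1, h.2.1⟩, h.2.2⟩
  have h2 : v ∉ (D ∩ Z).erase u := by
    intro h
    exact hvD (Finset.mem_inter.mp (Finset.mem_erase.mp h).2).1
  rw [h1, Finset.card_insert_of_notMem h2]
  exact Finset.card_erase_add_one (Finset.mem_inter.mpr ⟨huD, hu⟩)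

/-- Among the states of `F` take those with the largest number `c` of guards in `Z` (the numbers are bounded by `k`).
Attack `v ∈ Z` on such a state `D`: if `v ∈ D` answer with `u = v` (`insert v (D.erase v) = D`). Otherwise take the
answer `u` given by `hF`. If `u ∉ Z`, the new state has `c + 1` guards in `Z`, impossible. So `u ∈ Z`, and the new
state has again `c` guards in `Z`. -/
theorem exists_max_closed {Γ : SimpleGraph V} {Z : Finset V} {F : Set (Finset V)} {k : ℕ}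
    (hF : ∀ D ∈ F, D.card = k ∧ ∀ v ∈ Z, ∃ u ∈ D, (u = v ∨ Γ.Adj u v) ∧ insert v (D.erase u) ∈ F)
    (h0 : F.Nonempty) :
    ∃ F1 : Set (Finset V), F1 ⊆ F ∧ F1.Nonempty ∧ ∃ c : ℕ, ∀ D ∈ F1, (D ∩ Z).card = c ∧
      ∀ v ∈ Z, ∃ u ∈ D ∩ Z, (u = v ∨ Γ.Adj u v) ∧ insert v (D.erase u) ∈ F1 := by
  obtain ⟨D0, hD0, hmax⟩ := max_ex F (fun D => (D ∩ Z).card) k
    (fun D hD => (Finset.card_le_card Finset.inter_subset_left).trans (hF D hD).1.le) h0
  refine ⟨{D | D ∈ F ∧ (D ∩ Z).card = (D0 ∩ Z).card}, fun D hD => hD.1, ⟨D0, hD0, rfl⟩,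
    (D0 ∩ Z).card, ?_⟩
  rintro D ⟨hD, hc⟩
  refine ⟨hc, fun v hv => ?_⟩
  by_cases hvD : v ∈ D
  · refine ⟨v, Finset.mem_inter.mpr ⟨hvD, hv⟩, Or.inl rfl, ?_⟩
    rw [Finset.insert_erase hvD]
    exact ⟨hD, hc⟩
  · obtain ⟨u, huD, huv, hF'⟩ := (hF D hD).2 v hv
    have huZ : u ∈ Z := by
      by_contra huZ
      have h1 := max_card_out hv hvD huZ
      have h2 : (insert v (D.erase u) ∩ Z).card ≤ (D0 ∩ Z).card := hmax _ hF'
      omega
    refine ⟨u, Finset.mem_inter.mpr ⟨huD, huZ⟩, huv, hF', ?_⟩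
    rw [max_card_in hv hvD huD huZ, hc]

/-- the traces on `Z` of a family which is closed under the attacks in `Z` (answered in `Z`) -/
theorem et_of_closed {Γ : SimpleGraph V} {Z : Finset V} {F1 : Set (Finset V)} {c : ℕ}
    (h : ∀ D ∈ F1, (D ∩ Z).card = c ∧
      ∀ v ∈ Z, ∃ u ∈ D ∩ Z, (u = v ∨ Γ.Adj u v) ∧ insert v (D.erase u) ∈ F1) :
    Et Γ Z {Y | ∃ D ∈ F1, Y = D ∩ Z} c := by
  rintro Y ⟨D, hD, rfl⟩
  refine ⟨Finset.inter_subset_right, (h D hD).1, fun v hv => ?_⟩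
  obtain ⟨u, hu, huv, hF'⟩ := (h D hD).2 v hv
  refine ⟨u, hu, huv, insert v (D.erase u), hF', ?_⟩
  ext w
  simp only [Finset.mem_inter, Finset.mem_insert, Finset.mem_erase]
  constructor
  · rintro (h | h)
    · subst h
      exact ⟨Or.inl rfl, hv⟩
    · exact ⟨Or.inr ⟨h.1, h.2.1⟩, h.2.2⟩
  · rintro ⟨h | h, hw⟩
    · exact Or.inl h
    · exact Or.inr ⟨h.1, h.2, hw⟩

/-- in a closed family, a set `Y ⊆ Z` of pairwise nonadjacent vertices can be occupied completely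
(take a state with the largest number of guards on `Y`; the answer to an attack in `Y` does not come from `Y`) -/
theorem exists_occupied {Γ : SimpleGraph V} {Z Y : Finset V} {F1 : Set (Finset V)}
    (h : ∀ D ∈ F1, ∀ v ∈ Z, ∃ u ∈ D ∩ Z, (u = v ∨ Γ.Adj u v) ∧ insert v (D.erase u) ∈ F1)
    (h0 : F1.Nonempty) (hY : Y ⊆ Z) (hind : ∀ p ∈ Y, ∀ q ∈ Y, ¬ Γ.Adj p q) :
    ∃ D ∈ F1, Y ⊆ D := by
  obtain ⟨D, hD, hmax⟩ := max_ex F1 (fun D => (D ∩ Y).card) Y.card
    (fun D _ => Finset.card_le_card Finset.inter_subset_right) h0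
  refine ⟨D, hD, fun y hy => ?_⟩
  by_contra hyD
  obtain ⟨u, hu, huv, hF'⟩ := h D hD y (hY hy)
  have huD := (Finset.mem_inter.mp hu).1
  have huY : u ∉ Y := by
    intro huY
    rcases huv with h1 | h1
    · exact hyD (h1 ▸ huD)
    · exact hind u huY y hy h1
  have h1 := max_card_out hy hyD huY
  have h2 : (insert y (D.erase u) ∩ Y).card ≤ (D ∩ Y).card := hmax _ hF'
  omega

end Pool.Agent.Lib.MP_56aee0_co.OC
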