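import Pool.Agent.Lib.MP_56aee0_co.OC.Init
import Pool.Agent.Lib.MP_56aee0_co.OC.CycP
import Pool.Agent.Lib.MP_56aee0_co.OC.Conv
import Pool.Agent.Lib.MP_56aee0_co.OC.MainC

/-!
# OC / OddCycle : the product of an odd cycle of length at least 5 and a graph with `α < γ^∞`

PROOF. Suppose not: `N := edn (C □ X) ≤ b * edn X + |A|`, `A` an independent set of `X` with `X.indepNum` elements
(`SimpleGraph.exists_isNIndepSet_indepNum`). Take the family `F` with `Et (C □ X) univ F N` (`edn_exists` or `ednOn_exists` with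
`edn_eq_ednOn`). `init_state` with `I = Iv b` (`card_Iv`, `indep_Iv`, `cyc_hP`), `all_good`, `main_false`.
-/

set_option autoImplicit false

namespace Pool.Agent.Lib.MP_56aee0_co.OC

open Pool.Agent.Lib.MP_56aee0_co

variable {W : Type} [Fintype W] [DecidableEq W]

theorem odd_cycle_bound {b : ℕ} (hb : 2 ≤ b) (X : SimpleGraph W) (h : X.indepNum < edn X) :
    b * edn X + X.indepNum + 1 ≤ edn ((SimpleGraph.cycleGraph (2 * b + 1)).boxProd X) := by
  by_contra hcon
  obtain ⟨A, hA⟩ := X.exists_isNIndepSet_indepNum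
  have hAc : A.card = X.indepNum := hA.card_eq
  have hAi : ∀ a ∈ A, ∀ c ∈ A, ¬ X.Adj a c := by
    intro a ha c hc hadj
    exact hA.isIndepSet (Finset.mem_coe.2 ha) (Finset.mem_coe.2 hc) hadj.ne hadj
  obtain ⟨F, h0, hF0⟩ := edn_exists ((SimpleGraph.cycleGraph (2 * b + 1)).boxProd X)
  have hF : Et ((SimpleGraph.cycleGraph (2 * b + 1)).boxProd X) Finset.univ F
      (edn ((SimpleGraph.cycleGraph (2 * b + 1)).boxProd X)) := fun D hD =>
    ⟨Finset.subset_univ _, (hF0 D hD).1, fun v _ => (hF0 D hD).2 v⟩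
  obtain ⟨D, hD, hc, hch, hrows⟩ := init_state (indep_Iv hb) hAi hF h0
    (by rw [card_Iv, hAc]; omega) (cyc_hP hb hAi)
  obtain ⟨D', hD', hc', hch', hgood⟩ := all_good hb hAi (by omega) hF hD hc hch hrows
  exact main_false hb hAi (by omega) hF hD' hc' hch' hgood

end Pool.Agent.Lib.MP_56aee0_co.OC
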