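import Pool.Agent.Lib.MP_56aee0_co.OC.Cnd
import Pool.Agent.Lib.MP_56aee0_co.OC.GG

/-!
# OC / PunA : three impossible rows (from the row `be`), by `GG`

In all cases `δ = edn X - |A| ≥ 1`, `v, u` are vertices of the cycle `0, …, 2b`; the chips of a vertex are the guards on `(v, y)`,
`y ∉ A`; by `Cnd` only the layers of `Iv b` and of `1` can have chips. Use `cyc_adj` and `omega` for the adjacencies, `indep_Od`,
`indep_Ev`, the `card_` lemmas. `hC` of `GG`: the layers of `E` and of the neighbours of `O` without chips are not in `C`.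
`hR` of `GG`: the guards of the row `a` in `O`, in `E` or next to `E` are in `R`.

`pb1`: `O = {2b}`, `E = {0}`, `C = {0}`, `R = ∅`. Chips next to `O`: on `2b-1` none, on `0` at most `δ`. The row has no guard on
  `2b`, on `0`, on the neighbours `1` and `2b` of `0`. Conclusion `δ + 1 ≤ δ`.
`pb2`: `O = Od b`, `E = Ev b`, `C = Ip b`, `R = O5 b`. The neighbours of `Od b` are the even numbers from `2` to `2b`, chips only for
  `2, …, 2b-2`. The guards of the row in `Od b`, in `Ev b` or next to `Ev b` (next: odd numbers `≥ 3`, and `0`) are the odd numbers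
  `≥ 5`. Conclusion `(b-1) δ + (b-1) ≤ (b-1) δ + (b-2)`.
`pb3`: `O = Od b`, `E = Ev b`, `C = Ip b`, `R = Od b`. The sum of the chips over `Ip b` is at most `(b-1) δ - 1` (`2 ∈ Ip b` has at most
  `δ - 1`). Conclusion `(b-1) δ + (b-1) ≤ ((b-1) δ - 1) + (b-1)`.
-/

set_option autoImplicit false

namespace Pool.Agent.Lib.MP_56aee0_co.OC

open Pool.Agent.Lib.MP_56aee0_co

variable {W : Type} [Fintype W] [DecidableEq W]

theorem pb1 {b : ℕ} (hb : 2 ≤ b) {X : SimpleGraph W} {A : Finset W}
    (hA : ∀ a ∈ A, ∀ b ∈ A, ¬ X.Adj a b) (hm : A.card < edn X)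
    {F : Set (Finset (Fin (2 * b + 1) × W))} {N : ℕ}
    (hF : Et ((SimpleGraph.cycleGraph (2 * b + 1)).boxProd X) Finset.univ F N)
    {D : Finset (Fin (2 * b + 1) × W)} (hD : D ∈ F) {a : W} (ha : a ∈ A)
    (hC : Cnd b A D (edn X - A.card) a)
    (hr : ∀ u : Fin (2 * b + 1), (u, a) ∈ D → (u.val = 2 ∨ (u.val % 2 = 1 ∧ 3 ≤ u.val))) : False := by
  obtain ⟨c1, c2, c3⟩ := hC
  have h2b : 2 * b < 2 * b + 1 := by omega
  have h0b : 0 < 2 * b + 1 := by omega
  have key := GG hA hm.le hF hD ({(⟨2 * b, h2b⟩ : Fin (2 * b + 1))} : Finset _)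
    ({(⟨0, h0b⟩ : Fin (2 * b + 1))} : Finset _)
    (by
      intro u hu v hv
      rw [Finset.mem_singleton] at hu hv
      subst hu
      subst hv
      exact SimpleGraph.irrefl _)
    (by
      intro u hu v hv
      rw [Finset.mem_singleton] at hu hv
      subst hu
      subst hv
      exact SimpleGraph.irrefl _)
    (by
      rw [Finset.disjoint_singleton]
      intro h
      have h3 : 2 * b = 0 := congrArg Fin.val h
      omega)
    ha
    (by
      intro v hv y hy
      rw [Finset.mem_singleton] at hv
      subst hv
      refine c1 _ ?_ ?_ y hy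
      · simp only [Iv, Finset.mem_filter, Finset.mem_univ, true_and]
        omega
      · change 2 * b ≠ 1
        omega)
    (by
      intro a' ha' hne v hv hm u hu
      rw [Finset.mem_singleton] at hv
      subst hv
      refine c3 a' ha' hne _ ?_ (Or.inr rfl) hm u hu
      change 3 ≤ 2 * b
      omega)
    ({(⟨0, h0b⟩ : Fin (2 * b + 1))} : Finset _) ∅
    (by
      intro u hu hnu y hy
      rw [Finset.mem_singleton] at hnu hu
      rcases hu with hu | ⟨v, hv, huv⟩
      · exact absurd hu hnu
      · rw [Finset.mem_singleton] at hv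
        subst hv
        have hu0 : u.val ≠ 0 := by
          intro h
          exact hnu (Fin.ext h)
        have hul := u.isLt
        rw [cyc_adj hb] at huv
        simp only at huv
        refine c1 _ ?_ ?_ y hy
        · simp only [Iv, Finset.mem_filter, Finset.mem_univ, true_and]
          omega
        · omega)
    (by
      intro u hu h
      exfalso
      have hr' := hr u hu
      rcases h with h | h | ⟨e, he, h⟩
      · rw [Finset.mem_singleton] at h
        subst h
        simp only at hr'
        omega
      · rw [Finset.mem_singleton] at h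
        subst h
        simp only at hr'
        omega
      · rw [Finset.mem_singleton] at he
        subst he
        rw [cyc_adj hb] at h
        simp only at h
        omega)
  rw [Finset.card_singleton, Finset.card_singleton, Finset.sum_singleton, Finset.card_empty] at key
  have hc := c2 (⟨0, h0b⟩ : Fin (2 * b + 1)) (by
    simp only [Iv, Finset.mem_filter, Finset.mem_univ, true_and]
    omega)
  omega

theorem pb2 {b : ℕ} (hb : 2 ≤ b) {X : SimpleGraph W} {A : Finset W}
    (hA : ∀ a ∈ A, ∀ b ∈ A, ¬ X.Adj a b) (hm : A.card < edn X)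
    {F : Set (Finset (Fin (2 * b + 1) × W))} {N : ℕ}
    (hF : Et ((SimpleGraph.cycleGraph (2 * b + 1)).boxProd X) Finset.univ F N)
    {D : Finset (Fin (2 * b + 1) × W)} (hD : D ∈ F) {a : W} (ha : a ∈ A)
    (hC : Cnd b A D (edn X - A.card) a)
    (hr : ∀ u : Fin (2 * b + 1), (u, a) ∈ D → (u.val = 1 ∨ u.val = 2 ∨ (u.val % 2 = 1 ∧ 5 ≤ u.val))) :
    False := by
  obtain ⟨c1, c2, c3⟩ := hC
  have key := GG hA hm.le hF hD (Od b) (Ev b) (indep_Od hb) (indep_Ev hb)
    (by
      rw [Finset.disjoint_left]
      intro u hu hu2
      simp only [Od, Ev, Finset.mem_filter, Finset.mem_univ, true_and] at hu hu2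
      omega)
    ha
    (by
      intro v hv y hy
      simp only [Od, Finset.mem_filter, Finset.mem_univ, true_and] at hv
      refine c1 _ ?_ ?_ y hy
      · simp only [Iv, Finset.mem_filter, Finset.mem_univ, true_and]
        omega
      · omega)
    (by
      intro a' ha' hne v hv hm u hu
      simp only [Od, Finset.mem_filter, Finset.mem_univ, true_and] at hv
      exact c3 a' ha' hne _ hv.2 (Or.inl hv.1) hm u hu)
    (Ip b) (O5 b)
    (by
      intro u hu hnu y hy
      simp only [Ip, Finset.mem_filter, Finset.mem_univ, true_and] at hnu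
      have hul := u.isLt
      rcases hu with hu | ⟨v, hv, huv⟩
      · simp only [Ev, Finset.mem_filter, Finset.mem_univ, true_and] at hu
        refine c1 _ ?_ ?_ y hy
        · simp only [Iv, Finset.mem_filter, Finset.mem_univ, true_and]
          omega
        · omega
      · simp only [Od, Finset.mem_filter, Finset.mem_univ, true_and] at hv
        rw [cyc_adj hb] at huv
        refine c1 _ ?_ ?_ y hy
        · simp only [Iv, Finset.mem_filter, Finset.mem_univ, true_and]
          omega
        · omega)
    (by
      intro u hu h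
      have hr' := hr u hu
      have hul := u.isLt
      rcases h with h | h | ⟨e, he, h⟩
      · simp only [Od, O5, Finset.mem_filter, Finset.mem_univ, true_and] at h ⊢
        omega
      · simp only [Ev, Od, O5, Finset.mem_filter, Finset.mem_univ, true_and] at h ⊢
        omega
      · simp only [Ev, Finset.mem_filter, Finset.mem_univ, true_and] at he
        rw [cyc_adj hb] at h
        have hel := e.isLt
        simp only [Od, O5, Finset.mem_filter, Finset.mem_univ, true_and]
        omega)
  rw [card_Od hb, card_Ev hb, card_O5 hb] at key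
  have hs : ∑ u ∈ Ip b, (ch A D u).card ≤ (b - 1) * (edn X - A.card) := by
    have e := Finset.sum_le_card_nsmul (Ip b) (fun u => (ch A D u).card) (edn X - A.card) (by
      intro u hu
      refine c2 u ?_
      simp only [Ip, Iv, Finset.mem_filter, Finset.mem_univ, true_and] at hu ⊢
      omega)
    rwa [smul_eq_mul, card_Ip hb] at e
  omega

theorem pb3 {b : ℕ} (hb : 2 ≤ b) {X : SimpleGraph W} {A : Finset W}
    (hA : ∀ a ∈ A, ∀ b ∈ A, ¬ X.Adj a b) (hm : A.card < edn X)
    {F : Set (Finset (Fin (2 * b + 1) × W))} {N : ℕ}
    (hF : Et ((SimpleGraph.cycleGraph (2 * b + 1)).boxProd X) Finset.univ F N)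
    {D : Finset (Fin (2 * b + 1) × W)} (hD : D ∈ F) {a : W} (ha : a ∈ A)
    (hC : Cnd b A D (edn X - A.card) a)
    (hlt : ∀ i : Fin (2 * b + 1), i.val = 2 → (ch A D i).card < edn X - A.card)
    (hr : ∀ u : Fin (2 * b + 1), (u, a) ∈ D → (u.val = 2 ∨ u.val % 2 = 1)) : False := by
  obtain ⟨c1, c2, c3⟩ := hC
  have key := GG hA hm.le hF hD (Od b) (Ev b) (indep_Od hb) (indep_Ev hb)
    (by
      rw [Finset.disjoint_left]
      intro u hu hu2
      simp only [Od, Ev, Finset.mem_filter, Finset.mem_univ, true_and] at hu hu2
      omega)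
    ha
    (by
      intro v hv y hy
      simp only [Od, Finset.mem_filter, Finset.mem_univ, true_and] at hv
      refine c1 _ ?_ ?_ y hy
      · simp only [Iv, Finset.mem_filter, Finset.mem_univ, true_and]
        omega
      · omega)
    (by
      intro a' ha' hne v hv hm u hu
      simp only [Od, Finset.mem_filter, Finset.mem_univ, true_and] at hv
      exact c3 a' ha' hne _ hv.2 (Or.inl hv.1) hm u hu)
    (Ip b) (Od b)
    (by
      intro u hu hnu y hy
      simp only [Ip, Finset.mem_filter, Finset.mem_univ, true_and] at hnu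
      have hul := u.isLt
      rcases hu with hu | ⟨v, hv, huv⟩
      · simp only [Ev, Finset.mem_filter, Finset.mem_univ, true_and] at hu
        refine c1 _ ?_ ?_ y hy
        · simp only [Iv, Finset.mem_filter, Finset.mem_univ, true_and]
          omega
        · omega
      · simp only [Od, Finset.mem_filter, Finset.mem_univ, true_and] at hv
        rw [cyc_adj hb] at huv
        refine c1 _ ?_ ?_ y hy
        · simp only [Iv, Finset.mem_filter, Finset.mem_univ, true_and]
          omega
        · omega)
    (by
      intro u hu h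
      have hr' := hr u hu
      have hul := u.isLt
      rcases h with h | h | ⟨e, he, h⟩
      · simp only [Od, O5, Finset.mem_filter, Finset.mem_univ, true_and] at h ⊢
        omega
      · simp only [Ev, Od, O5, Finset.mem_filter, Finset.mem_univ, true_and] at h ⊢
        omega
      · simp only [Ev, Finset.mem_filter, Finset.mem_univ, true_and] at he
        rw [cyc_adj hb] at h
        have hel := e.isLt
        simp only [Od, O5, Finset.mem_filter, Finset.mem_univ, true_and]
        omega)
  rw [card_Od hb, card_Ev hb] at key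
  have h2l : 2 < 2 * b + 1 := by omega
  have hs : ∑ u ∈ Ip b, (ch A D u).card < (b - 1) * (edn X - A.card) := by
    have e : (b - 1) * (edn X - A.card) = ∑ _u ∈ Ip b, (edn X - A.card) := by
      rw [Finset.sum_const, smul_eq_mul, card_Ip hb]
    rw [e]
    refine Finset.sum_lt_sum ?_ ⟨(⟨2, h2l⟩ : Fin (2 * b + 1)), ?_, hlt _ rfl⟩
    · intro u hu
      refine c2 u ?_
      simp only [Ip, Iv, Finset.mem_filter, Finset.mem_univ, true_and] at hu ⊢
      omega
    · simp only [Ip, Finset.mem_filter, Finset.mem_univ, true_and]
      omega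
  omega

end Pool.Agent.Lib.MP_56aee0_co.OC
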