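import Pool.Agent.Lib.MP_56aee0_co.OC.Cnd
import Pool.Agent.Lib.MP_56aee0_co.OC.GG

/-!
# OC / PunB : two impossible rows (from the row `ga`), by `GG`

In both cases `δ = edn X - |A| ≥ 1`, `v, u` are vertices of the cycle `0, …, 2b`; the chips of a vertex are the guards on `(v, y)`,
`y ∉ A`; by `Cnd` only the layers of `Iv b` and of `1` can have chips. Use `cyc_adj` and `omega` for the adjacencies, `indep_Od`,
the `card_` lemmas. `hC` of `GG`: the layers of `E` and of the neighbours of `O` without chips are not in `C`.
`hR` of `GG`: the guards of the row `a` in `O`, in `E` or next to `E` are in `R`.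

`pg1`: `O = Od b`, `E = {2}`, `C = Ip b`, `R = ∅`. The neighbours of `Od b` are the even numbers from `2` to `2b`, chips only for
  `2, …, 2b-2`, at most `δ` each. The row has no guard on an odd number and no guard on `2`. Conclusion `(b-1) δ + 1 ≤ (b-1) δ`.
`pg3`: `O = {2b}`, `E = Od b`, `C = {0}`, `R = Ev b`. Chips: none on `Od b`, next to `2b`: none on `2b-1`, at most `δ - 1` on `0`.
  The guards of the row on `2b`, in `Od b` or next to `Od b` (even numbers from `2` to `2b`) are in `Ev b`.
  Conclusion `δ + (b-1) ≤ (δ - 1) + (b-1)`.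
-/

set_option autoImplicit false

namespace Pool.Agent.Lib.MP_56aee0_co.OC

open Pool.Agent.Lib.MP_56aee0_co

variable {W : Type} [Fintype W] [DecidableEq W]

theorem pg1 {b : ℕ} (hb : 2 ≤ b) {X : SimpleGraph W} {A : Finset W}
    (hA : ∀ a ∈ A, ∀ b ∈ A, ¬ X.Adj a b) (hm : A.card < edn X)
    {F : Set (Finset (Fin (2 * b + 1) × W))} {N : ℕ}
    (hF : Et ((SimpleGraph.cycleGraph (2 * b + 1)).boxProd X) Finset.univ F N)
    {D : Finset (Fin (2 * b + 1) × W)} (hD : D ∈ F) {a : W} (ha : a ∈ A)
    (hC : Cnd b A D (edn X - A.card) a)
    (hr : ∀ u : Fin (2 * b + 1), (u, a) ∈ D → (u.val % 2 = 0 ∧ u.val ≠ 2)) : False := by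
  have hb1 : 1 < 2 * b + 1 := by omega
  let e2 : Fin (2 * b + 1) := ⟨2, by omega⟩
  have he2 : e2.val = 2 := rfl
  have key := GG hA hm.le hF hD (Od b) {e2} (indep_Od hb)
    (by
      intro u hu v hv
      rw [Finset.mem_singleton] at hu hv
      rw [hu, hv]
      exact SimpleGraph.irrefl _)
    (by
      rw [Finset.disjoint_singleton_right]
      intro h
      simp only [Od, Finset.mem_filter, Finset.mem_univ, true_and] at h
      omega)
    ha
    (by
      intro v hv y hy
      simp only [Od, Finset.mem_filter, Finset.mem_univ, true_and] at hv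
      refine hC.1 v ?_ (by omega) y hy
      intro h
      simp only [Iv, Finset.mem_filter, Finset.mem_univ, true_and] at h
      omega)
    (by
      intro a' ha' hne v hv hvD u huv
      simp only [Od, Finset.mem_filter, Finset.mem_univ, true_and] at hv
      exact hC.2.2 a' ha' hne v hv.2 (Or.inl hv.1) hvD u huv)
    (Ip b) ∅
    (by
      intro u hu huC y hy
      have h1 : u.val ≠ 1 ∧ u.val ≠ 0 := by
        rcases hu with hu | ⟨v, hv, huv⟩
        · rw [Finset.mem_singleton] at hu
          rw [hu]; exact ⟨by omega, by omega⟩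
        · rw [cyc_adj hb] at huv
          simp only [Od, Finset.mem_filter, Finset.mem_univ, true_and] at hv
          omega
      refine hC.1 u ?_ h1.1 y hy
      intro h
      apply huC
      simp only [Iv, Ip, Finset.mem_filter, Finset.mem_univ, true_and] at h ⊢
      omega)
    (by
      intro u hu h
      have h2 := hr u hu
      exfalso
      rcases h with h | h | ⟨e, he, hue⟩
      · simp only [Od, Finset.mem_filter, Finset.mem_univ, true_and] at h
        omega
      · rw [Finset.mem_singleton] at h
        rw [h] at h2
        omega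
      · rw [Finset.mem_singleton] at he
        rw [he, cyc_adj hb] at hue
        omega)
  have hs : ∑ u ∈ Ip b, (ch A D u).card ≤ (Ip b).card * (edn X - A.card) := by
    have h3 := Finset.sum_le_card_nsmul (Ip b) (fun u => (ch A D u).card) (edn X - A.card)
      (by
        intro u hu
        refine hC.2.1 u ?_
        simp only [Iv, Ip, Finset.mem_filter, Finset.mem_univ, true_and] at hu ⊢
        omega)
    rw [smul_eq_mul] at h3
    exact h3
  rw [card_Ip hb] at hs
  rw [card_Od hb, Finset.card_singleton, Finset.card_empty] at key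
  omega

theorem pg3 {b : ℕ} (hb : 2 ≤ b) {X : SimpleGraph W} {A : Finset W}
    (hA : ∀ a ∈ A, ∀ b ∈ A, ¬ X.Adj a b) (hm : A.card < edn X)
    {F : Set (Finset (Fin (2 * b + 1) × W))} {N : ℕ}
    (hF : Et ((SimpleGraph.cycleGraph (2 * b + 1)).boxProd X) Finset.univ F N)
    {D : Finset (Fin (2 * b + 1) × W)} (hD : D ∈ F) {a : W} (ha : a ∈ A)
    (hC : Cnd b A D (edn X - A.card) a)
    (hlt : ∀ i : Fin (2 * b + 1), i.val = 0 → (ch A D i).card < edn X - A.card)
    (hr : ∀ u : Fin (2 * b + 1), (u, a) ∈ D → (u.val ≤ 1 ∨ (u.val % 2 = 0 ∧ 4 ≤ u.val))) : False := by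
  let e : Fin (2 * b + 1) := ⟨2 * b, by omega⟩
  have he0 : e.val = 2 * b := rfl
  let z : Fin (2 * b + 1) := ⟨0, by omega⟩
  have hz0 : z.val = 0 := rfl
  have key := GG hA hm.le hF hD {e} (Od b)
    (by
      intro u hu v hv
      rw [Finset.mem_singleton] at hu hv
      rw [hu, hv]
      exact SimpleGraph.irrefl _)
    (indep_Od hb)
    (by
      rw [Finset.disjoint_singleton_left]
      intro h
      simp only [Od, Finset.mem_filter, Finset.mem_univ, true_and] at h
      omega)
    ha
    (by
      intro v hv y hy
      rw [Finset.mem_singleton] at hv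
      rw [hv]
      refine hC.1 e ?_ (by omega) y hy
      intro h
      simp only [Iv, Finset.mem_filter, Finset.mem_univ, true_and] at h
      omega)
    (by
      intro a' ha' hne v hv hvD u huv
      rw [Finset.mem_singleton] at hv
      have hv2 : v.val = 2 * b := by rw [hv]
      exact hC.2.2 a' ha' hne v (by omega) (Or.inr hv2) hvD u huv)
    {z} (Ev b)
    (by
      intro u hu huC y hy
      have h0 : u.val ≠ 0 := by
        intro h
        apply huC
        rw [Finset.mem_singleton]
        exact Fin.ext h
      have h1 : u.val % 2 = 1 ∧ 3 ≤ u.val := by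
        rcases hu with hu | ⟨v, hv, huv⟩
        · simp only [Od, Finset.mem_filter, Finset.mem_univ, true_and] at hu
          exact hu
        · rw [Finset.mem_singleton] at hv
          have hv2 : v.val = 2 * b := by rw [hv]
          rw [cyc_adj hb] at huv
          omega
      refine hC.1 u ?_ (by omega) y hy
      intro h
      simp only [Iv, Finset.mem_filter, Finset.mem_univ, true_and] at h
      omega)
    (by
      intro u hu h
      have h2 := hr u hu
      simp only [Ev, Finset.mem_filter, Finset.mem_univ, true_and]
      rcases h with h | h | ⟨v, hv, huv⟩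
      · rw [Finset.mem_singleton] at h
        have hv2 : u.val = 2 * b := by rw [h]
        omega
      · simp only [Od, Finset.mem_filter, Finset.mem_univ, true_and] at h
        omega
      · rw [cyc_adj hb] at huv
        simp only [Od, Finset.mem_filter, Finset.mem_univ, true_and] at hv
        omega)
  have hz := hlt z hz0
  rw [card_Od hb, card_Ev hb, Finset.card_singleton, Finset.sum_singleton, one_mul] at key
  omega

end Pool.Agent.Lib.MP_56aee0_co.OC
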