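import Pool.Agent.Lib.MP_56aee0_co.OC.Layer

/-!
# OC / RowA : attacks in a row `U × {a}`
-/

set_option autoImplicit false

namespace Pool.Agent.Lib.MP_56aee0_co.OC

open Pool.Agent.Lib.MP_56aee0_co

variable {U W : Type} [Fintype U] [DecidableEq U] [Fintype W] [DecidableEq W]

/-- attack `(v, a)`: the answer comes from `(u, a)` with `G.Adj u v`, or from `(v, y)` with `X.Adj y a` (and then `y ∉ A`
because `A` is independent) -/
theorem row_attack {G : SimpleGraph U} {X : SimpleGraph W} {A : Finset W}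
    (hA : ∀ a ∈ A, ∀ b ∈ A, ¬ X.Adj a b)
    {F : Set (Finset (U × W))} {N : ℕ} (hF : Et (G.boxProd X) Finset.univ F N)
    {D : Finset (U × W)} (hD : D ∈ F) {v : U} {a : W} (ha : a ∈ A) (hv : (v, a) ∉ D) :
    (∃ u, G.Adj u v ∧ (u, a) ∈ D ∧ insert (v, a) (D.erase (u, a)) ∈ F) ∨
    (∃ y, y ∉ A ∧ X.Adj y a ∧ (v, y) ∈ D ∧ insert (v, a) (D.erase (v, y)) ∈ F) := by
  obtain ⟨p, hp, hadj, hin⟩ := (hF D hD).2.2 (v, a) (Finset.mem_univ _)
  obtain ⟨u, y⟩ := p
  rcases hadj with h | h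
  · rw [h] at hp
    exact absurd hp hv
  · rw [SimpleGraph.boxProd_adj] at h
    rcases h with ⟨h1, h2⟩ | ⟨h1, h2⟩
    · simp only at h1 h2
      subst h2
      exact Or.inl ⟨u, h1, hp, hin⟩
    · simp only at h1 h2
      subst h2
      refine Or.inr ⟨y, ?_, h1, hp, hin⟩
      intro hy
      exact hA y hy a ha h1

end Pool.Agent.Lib.MP_56aee0_co.OC
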