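import Pool.Agent.Lib.MP_56aee0_co.OC.PunA
import Pool.Agent.Lib.MP_56aee0_co.OC.PunB
import Pool.Agent.Lib.MP_56aee0_co.OC.Kill
import Pool.Agent.Lib.MP_56aee0_co.OC.RowA
import Pool.Agent.Lib.MP_56aee0_co.OC.Ops

/-!
# OC / PunC : the two dynamic cases

`punish_be`: the row is `{1, 3, …, 2b-1}`. Attack `(2, a)` (`row_attack`, `(2, a) ∉ D`). Let `D'` be the new state.
 * answer from `(u, a)`, `u` adjacent to `2`: `u = 1` or `u = 3`; `row D' a` by `row_move`; `Cnd` for `D'` by `cnd_of_sub` and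
   `mem_move_ne`. `u = 1`: row `{2, 3, 5, …}`: `pb1`. `u = 3`: row `{1, 2, 5, …}`: `pb2`.
 * answer from `(2, y)`, `y ∉ A`: row `{1, 2, 3, 5, …}` (`row_drop`, `y ≠ a` because `a ∈ A`), `Cnd` for `D'`: outside the row `a` the
   state `D'` is contained in `D`; `(2, y) ∉ D'`, so `ch A D' 2` is smaller than `ch A D 2` (`ch_lt`), which is at most
   `edn X - |A|` (`2 ∈ Iv b`): `pb3`.
`punish_ga`: the row is `{1} ∪ {4, 6, …, 2b}`. Attack `(0, a)` (`(0, a) ∉ D`).
 * answer from `(u, a)`: `u = 1` or `u = 2b`. `u = 1`: row `{0, 4, …, 2b}`: `pg1`. `u = 2b`: row `{0, 1, 4, …, 2b-2}`: `kill_od`.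
 * answer from `(0, y)`, `y ∉ A`: row `{0, 1, 4, …, 2b}`, `ch A D' 0` is smaller: `pg3`.
-/

set_option autoImplicit false

namespace Pool.Agent.Lib.MP_56aee0_co.OC

open Pool.Agent.Lib.MP_56aee0_co

variable {W : Type} [Fintype W] [DecidableEq W]

omit [Fintype W] in
/-- a guard moves to `(v, a)`: outside the row `a` the new state is contained in the old one -/
private theorem PunC_sub {U : Type} [DecidableEq U] {D : Finset (U × W)} {p : U × W} {v : U} {a : W}
    (x : U) (y : W) (hy : y ≠ a) (h : (x, y) ∈ insert (v, a) (D.erase p)) : (x, y) ∈ D := by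
  rcases Finset.mem_insert.1 h with h | h
  · exact absurd (congrArg Prod.snd h) hy
  · exact Finset.mem_of_mem_erase h

omit [Fintype W] in
/-- the guard `(v, y)` has left -/
private theorem PunC_left {U : Type} [DecidableEq U] {D : Finset (U × W)} {v : U} {a y : W}
    (hy : y ≠ a) : (v, y) ∉ insert (v, a) (D.erase (v, y)) := by
  intro h
  rcases Finset.mem_insert.1 h with h | h
  · exact hy (congrArg Prod.snd h)
  · exact (Finset.mem_erase.1 h).1 rfl

theorem punish_be {b : ℕ} (hb : 2 ≤ b) {X : SimpleGraph W} {A : Finset W}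
    (hA : ∀ a ∈ A, ∀ b ∈ A, ¬ X.Adj a b) (hm : A.card < edn X)
    {F : Set (Finset (Fin (2 * b + 1) × W))} {N : ℕ}
    (hF : Et ((SimpleGraph.cycleGraph (2 * b + 1)).boxProd X) Finset.univ F N)
    {D : Finset (Fin (2 * b + 1) × W)} (hD : D ∈ F) {a : W} (ha : a ∈ A)
    (hC : Cnd b A D (edn X - A.card) a)
    (hr : ∀ u : Fin (2 * b + 1), (u, a) ∈ D ↔ u.val % 2 = 1) : False := by
  have h2 : 2 < 2 * b + 1 := by omega
  have hv : ((⟨2, h2⟩ : Fin (2 * b + 1)), a) ∉ D := fun h => by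
    have h3 := (hr _).1 h
    have h4 : ((⟨2, h2⟩ : Fin (2 * b + 1)) : ℕ) = 2 := rfl
    rw [h4] at h3
    omega
  have c2 := hC.2.1
  rcases row_attack hA hF hD ha hv with ⟨u, huv, huD, hF'⟩ | ⟨y, hyA, hya, hyD, hF'⟩
  · have hC' := cnd_of_sub ha hC (D' := insert ((⟨2, h2⟩ : Fin (2 * b + 1)), a) (D.erase (u, a)))
      (fun x y hy h => PunC_sub x y hy h)
    have hrow : ∀ w : Fin (2 * b + 1),
        (w, a) ∈ insert ((⟨2, h2⟩ : Fin (2 * b + 1)), a) (D.erase (u, a)) →
        w.val = 2 ∨ (w.val % 2 = 1 ∧ w.val ≠ u.val) := by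
      intro w hw
      rw [← mem_row, row_move, Finset.mem_insert, Finset.mem_erase, mem_row, hr] at hw
      rcases hw with rfl | ⟨h3, h4⟩
      · exact Or.inl rfl
      · exact Or.inr ⟨h4, fun h => h3 (Fin.ext h)⟩
    rw [cyc_adj hb] at huv
    have hu : u.val = 1 ∨ u.val = 3 := by
      have h3 : ((⟨2, h2⟩ : Fin (2 * b + 1)) : ℕ) = 2 := rfl
      rw [h3] at huv
      omega
    rcases hu with hu | hu
    · refine pb1 hb hA hm hF hF' ha hC' fun w hw => ?_
      have h3 := hrow w hw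
      omega
    · refine pb2 hb hA hm hF hF' ha hC' fun w hw => ?_
      have h3 := hrow w hw
      omega
  · have hya' : y ≠ a := fun h => hyA (h ▸ ha)
    have hC' := cnd_of_sub ha hC
      (D' := insert ((⟨2, h2⟩ : Fin (2 * b + 1)), a) (D.erase (⟨2, h2⟩, y)))
      (fun x y hy h => PunC_sub x y hy h)
    refine pb3 hb hA hm hF hF' ha hC' ?_ ?_
    · intro i hi
      have hi' : i = ⟨2, h2⟩ := Fin.ext hi
      rw [hi']
      refine lt_of_lt_of_le (ch_lt hyA hyD (PunC_left hya') fun y' hy' h =>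
        PunC_sub _ _ (fun h' => hy' (h' ▸ ha)) h) (c2 _ ?_)
      refine Finset.mem_filter.2 ⟨Finset.mem_univ _, ?_⟩
      have h3 : ((⟨2, h2⟩ : Fin (2 * b + 1)) : ℕ) = 2 := rfl
      rw [h3]
      omega
    · intro w hw
      rw [← mem_row, row_drop D _ hya', Finset.mem_insert, mem_row, hr] at hw
      rcases hw with rfl | h3
      · exact Or.inl rfl
      · exact Or.inr h3

theorem punish_ga {b : ℕ} (hb : 2 ≤ b) {X : SimpleGraph W} {A : Finset W}
    (hA : ∀ a ∈ A, ∀ b ∈ A, ¬ X.Adj a b) (hm : A.card < edn X)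
    {F : Set (Finset (Fin (2 * b + 1) × W))} {N : ℕ}
    (hF : Et ((SimpleGraph.cycleGraph (2 * b + 1)).boxProd X) Finset.univ F N)
    {D : Finset (Fin (2 * b + 1) × W)} (hD : D ∈ F) {a : W} (ha : a ∈ A)
    (hC : Cnd b A D (edn X - A.card) a)
    (hr : ∀ u : Fin (2 * b + 1), (u, a) ∈ D ↔ (u.val = 1 ∨ (u.val % 2 = 0 ∧ 4 ≤ u.val))) : False := by
  have h2 : 0 < 2 * b + 1 := by omega
  have hv : ((⟨0, h2⟩ : Fin (2 * b + 1)), a) ∉ D := fun h => by
    have h3 := (hr _).1 h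
    have h4 : ((⟨0, h2⟩ : Fin (2 * b + 1)) : ℕ) = 0 := rfl
    rw [h4] at h3
    omega
  have c2 := hC.2.1
  rcases row_attack hA hF hD ha hv with ⟨u, huv, huD, hF'⟩ | ⟨y, hyA, hya, hyD, hF'⟩
  · have hC' := cnd_of_sub ha hC (D' := insert ((⟨0, h2⟩ : Fin (2 * b + 1)), a) (D.erase (u, a)))
      (fun x y hy h => PunC_sub x y hy h)
    have hrow : ∀ w : Fin (2 * b + 1),
        (w, a) ∈ insert ((⟨0, h2⟩ : Fin (2 * b + 1)), a) (D.erase (u, a)) →
        w.val = 0 ∨ ((w.val = 1 ∨ (w.val % 2 = 0 ∧ 4 ≤ w.val)) ∧ w.val ≠ u.val) := by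
      intro w hw
      rw [← mem_row, row_move, Finset.mem_insert, Finset.mem_erase, mem_row, hr] at hw
      rcases hw with rfl | ⟨h3, h4⟩
      · exact Or.inl rfl
      · exact Or.inr ⟨h4, fun h => h3 (Fin.ext h)⟩
    rw [cyc_adj hb] at huv
    have hu : u.val = 1 ∨ u.val = 2 * b := by
      have h3 : ((⟨0, h2⟩ : Fin (2 * b + 1)) : ℕ) = 0 := rfl
      rw [h3] at huv
      omega
    rcases hu with hu | hu
    · refine pg1 hb hA hm hF hF' ha hC' fun w hw => ?_
      have h3 := hrow w hw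
      omega
    · refine kill_od hb hA hm.le hF hF' ha ?_ fun w hw => ?_
      · intro w hw y hy
        have hw' := (Finset.mem_filter.1 hw).2
        refine hC'.1 w (fun h => ?_) (by omega) y hy
        have h3 := (Finset.mem_filter.1 h).2
        omega
      · have h3 := hrow w hw
        have h4 := w.2
        rcases h3 with h3 | ⟨h3 | h3, h5⟩
        · exact Or.inl (by omega)
        · exact Or.inl (by omega)
        · exact Or.inr (Finset.mem_filter.2 ⟨Finset.mem_univ _, by omega⟩)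
  · have hya' : y ≠ a := fun h => hyA (h ▸ ha)
    have hC' := cnd_of_sub ha hC
      (D' := insert ((⟨0, h2⟩ : Fin (2 * b + 1)), a) (D.erase (⟨0, h2⟩, y)))
      (fun x y hy h => PunC_sub x y hy h)
    refine pg3 hb hA hm hF hF' ha hC' ?_ ?_
    · intro i hi
      have hi' : i = ⟨0, h2⟩ := Fin.ext hi
      rw [hi']
      refine lt_of_lt_of_le (ch_lt hyA hyD (PunC_left hya') fun y' hy' h =>
        PunC_sub _ _ (fun h' => hy' (h' ▸ ha)) h) (c2 _ ?_)
      refine Finset.mem_filter.2 ⟨Finset.mem_univ _, ?_⟩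
      have h3 : ((⟨0, h2⟩ : Fin (2 * b + 1)) : ℕ) = 0 := rfl
      rw [h3]
      omega
    · intro w hw
      rw [← mem_row, row_drop D _ hya', Finset.mem_insert, mem_row, hr] at hw
      rcases hw with rfl | h3 | h3
      · exact Or.inl (by show 0 ≤ 1; omega)
      · exact Or.inl (by omega)
      · exact Or.inr h3

end Pool.Agent.Lib.MP_56aee0_co.OC
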