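import Pool.Agent.Lib.MP_56aee0_co.OC.OddCycle
import Pool.Agent.Lib.MP_56aee0_co.OC.Iso
import Pool.Agent.Lib.MP_56aee0_co.OC.CycE

/-!
# OC / Red : a class of graphs closed under reductions

`brick_step`: `S = C ∪ (S \ C)` gives `ednOn G S ≤ ednOn G C + ednOn G (S \ C)` (`ednOn_union_le`); the sets `Q ×ˢ univ` and
`(S \ C) ×ˢ univ` are disjoint and not adjacent (`(q, y)` adjacent to `(v, y')` would need `q = v` or `G.Adj q v`, and then `v ∈ C`),
so `ednOn_add_le` and `ednOn_mono` give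
`ednOn (G □ X) (Q ×ˢ univ) + ednOn (G □ X) ((S \ C) ×ˢ univ) ≤ ednOn (G □ X) (S ×ˢ univ)`.
`indep_brick`: `I ×ˢ univ` is the union of the layers `{i} ×ˢ univ`, `sum_ednOn_le`, `edn_le_layer` with `T = univ`.
`cyc_brick`: by `ednOn_map_prod` the right side is `edn (C □ X)`. If `edn X ≤ X.indepNum`: `edn_boxProd_ge` for the independent
set of `X` with `X.indepNum` elements (`SimpleGraph.exists_isNIndepSet_indepNum`) and `edn_odd_cycle_ge`. Otherwise
`X.indepNum + 1 = edn X` and `odd_cycle_bound`.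
`red_le`: induction over `Red`; `empty`: `ednOn_le_card`; `ind`, `cyc`: `brick_step`; `mono`: `ednOn_mono`.
`red_main`: `S = univ`, `edn_eq_ednOn`.
-/

set_option autoImplicit false

namespace Pool.Agent.Lib.MP_56aee0_co.OC

open Pool.Agent.Lib.MP_56aee0_co

/-- The class of the regions `S` of a graph `G` which can be taken apart as follows. The empty region belongs to it.
`ind`: the part `C` of `S` can be defended by `|I|` guards, where `I ⊆ C` is an independent set without neighbours in `S \ C`,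
and `S \ C` belongs to the class. `cyc`: the part `C` of `S` can be defended by `b + 1` guards, it contains an induced cycle of
length `2 b + 1 ≥ 5` without neighbours in `S \ C`, and `S \ C` belongs to the class. `mono`: a part of `S` which needs as
many guards as `S` belongs to the class. -/
inductive Red {U : Type} [DecidableEq U] (G : SimpleGraph U) : Finset U → Prop
  | empty : Red G ∅
  | ind (S C I : Finset U) (hCS : C ⊆ S) (hIC : I ⊆ C) (hI : ∀ i ∈ I, ∀ j ∈ I, ¬ G.Adj i j)
      (hN : ∀ i ∈ I, ∀ v ∈ S, G.Adj i v → v ∈ C) (hC : ednOn G C ≤ I.card)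
      (h : Red G (S \ C)) : Red G S
  | cyc (S C : Finset U) (b : ℕ) (hb : 2 ≤ b) (e : Fin (2 * b + 1) ↪ U)
      (he : ∀ u v, (SimpleGraph.cycleGraph (2 * b + 1)).Adj u v ↔ G.Adj (e u) (e v))
      (hCS : C ⊆ S) (hQC : ∀ u, e u ∈ C) (hN : ∀ u, ∀ v ∈ S, G.Adj (e u) v → v ∈ C)
      (hC : ednOn G C ≤ b + 1) (h : Red G (S \ C)) : Red G S
  | mono (S S' : Finset U) (hS : S' ⊆ S) (hle : ednOn G S ≤ ednOn G S') (h : Red G S') : Red G S

variable {U W : Type} [Fintype U] [DecidableEq U] [Fintype W] [DecidableEq W]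

theorem brick_step {G : SimpleGraph U} (X : SimpleGraph W) {S C Q : Finset U} {t : ℕ}
    (hCS : C ⊆ S) (hQC : Q ⊆ C) (hN : ∀ i ∈ Q, ∀ v ∈ S, G.Adj i v → v ∈ C) (hC : ednOn G C ≤ t)
    (hQ : t * edn X ≤ ednOn (G.boxProd X) (Q ×ˢ (Finset.univ : Finset W)))
    (ih : ednOn G (S \ C) * edn X ≤ ednOn (G.boxProd X) ((S \ C) ×ˢ (Finset.univ : Finset W))) :
    ednOn G S * edn X ≤ ednOn (G.boxProd X) (S ×ˢ (Finset.univ : Finset W)) := by
  have h1 : ednOn G S ≤ ednOn G C + ednOn G (S \ C) := by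
    have h := ednOn_union_le (Γ := G) (S1 := C) (S2 := S \ C) Finset.disjoint_sdiff
    rwa [Finset.union_sdiff_of_subset hCS] at h
  have hd : ∀ p ∈ Q ×ˢ (Finset.univ : Finset W), ∀ q ∈ (S \ C) ×ˢ (Finset.univ : Finset W),
      p ≠ q ∧ ¬ (G.boxProd X).Adj p q := by
    intro p hp q hq
    rw [Finset.mem_product] at hp hq
    have hq1 := Finset.mem_sdiff.1 hq.1
    have hpC := hQC hp.1
    refine ⟨?_, ?_⟩
    · rintro rfl
      exact hq1.2 hpC
    · intro hadj
      rw [SimpleGraph.boxProd_adj] at hadj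
      rcases hadj with ⟨ha, _⟩ | ⟨_, ha⟩
      · exact hq1.2 (hN p.1 hp.1 q.1 hq1.1 ha)
      · rw [ha] at hpC
        exact hq1.2 hpC
  have h2 := ednOn_add_le hd
  have hsub : Q ×ˢ (Finset.univ : Finset W) ∪ (S \ C) ×ˢ (Finset.univ : Finset W) ⊆
      S ×ˢ (Finset.univ : Finset W) := by
    intro p hp
    rw [Finset.mem_union, Finset.mem_product, Finset.mem_product] at hp
    rw [Finset.mem_product]
    refine ⟨?_, Finset.mem_univ _⟩
    rcases hp with hp | hp
    · exact hCS (hQC hp.1)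
    · exact (Finset.mem_sdiff.1 hp.1).1
  have h3 := ednOn_mono (Γ := G.boxProd X) hsub
  calc ednOn G S * edn X ≤ (ednOn G C + ednOn G (S \ C)) * edn X := Nat.mul_le_mul_right _ h1
    _ = ednOn G C * edn X + ednOn G (S \ C) * edn X := add_mul _ _ _
    _ ≤ t * edn X + ednOn G (S \ C) * edn X := Nat.add_le_add_right (Nat.mul_le_mul_right _ hC) _
    _ ≤ _ := (Nat.add_le_add hQ ih).trans (h2.trans h3)

theorem indep_brick (G : SimpleGraph U) (X : SimpleGraph W) (I : Finset U)
    (hI : ∀ i ∈ I, ∀ j ∈ I, ¬ G.Adj i j) :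
    I.card * edn X ≤ ednOn (G.boxProd X) (I ×ˢ (Finset.univ : Finset W)) := by
  have h1 : ∀ i ∈ I, edn X ≤ ednOn (G.boxProd X) (({i} : Finset U) ×ˢ (Finset.univ : Finset W)) := by
    intro i _
    have h := edn_le_layer G X i (Finset.univ : Finset W)
    rwa [Finset.sdiff_self, Finset.card_empty, add_zero] at h
  have h2 := sum_ednOn_le (Γ := G.boxProd X) I
    (fun i => ({i} : Finset U) ×ˢ (Finset.univ : Finset W)) (by
      intro i hi j hj hij p hp q hq
      rw [Finset.mem_product, Finset.mem_singleton] at hp hq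
      refine ⟨?_, ?_⟩
      · rintro rfl
        exact hij (hp.1.symm.trans hq.1)
      · intro hadj
        rw [SimpleGraph.boxProd_adj] at hadj
        rcases hadj with ⟨ha, _⟩ | ⟨_, ha⟩
        · rw [hp.1, hq.1] at ha
          exact hI i hi j hj ha
        · exact hij (hp.1.symm.trans (ha.trans hq.1)))
  have h3 : I.biUnion (fun i => ({i} : Finset U) ×ˢ (Finset.univ : Finset W)) =
      I ×ˢ (Finset.univ : Finset W) := by
    ext p
    rw [Finset.mem_biUnion, Finset.mem_product]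
    constructor
    · rintro ⟨i, hi, hp⟩
      rw [Finset.mem_product, Finset.mem_singleton] at hp
      rw [hp.1]
      exact ⟨hi, Finset.mem_univ _⟩
    · intro hp
      exact ⟨p.1, hp.1, Finset.mem_product.2 ⟨Finset.mem_singleton_self _, Finset.mem_univ _⟩⟩
  rw [h3] at h2
  calc I.card * edn X = ∑ _i ∈ I, edn X := by rw [Finset.sum_const, smul_eq_mul]
    _ ≤ ∑ i ∈ I, ednOn (G.boxProd X) (({i} : Finset U) ×ˢ (Finset.univ : Finset W)) :=
        Finset.sum_le_sum h1
    _ ≤ _ := h2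

theorem cyc_brick (G : SimpleGraph U) (X : SimpleGraph W) (hX : edn X ≤ X.indepNum + 1)
    {b : ℕ} (hb : 2 ≤ b) (e : Fin (2 * b + 1) ↪ U)
    (he : ∀ u v, (SimpleGraph.cycleGraph (2 * b + 1)).Adj u v ↔ G.Adj (e u) (e v)) :
    (b + 1) * edn X ≤ ednOn (G.boxProd X) ((Finset.univ.map e) ×ˢ (Finset.univ : Finset W)) := by
  rw [ednOn_map_prod X e he]
  by_cases h : edn X ≤ X.indepNum
  · obtain ⟨A, hA⟩ := X.exists_isNIndepSet_indepNum
    have hA1 : ∀ h ∈ A, ∀ h' ∈ A, ¬ X.Adj h h' := by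
      intro x hx y hy hadj
      exact hA.isIndepSet hx hy hadj.ne hadj
    have h1 := edn_boxProd_ge (SimpleGraph.cycleGraph (2 * b + 1)) X A hA1
    rw [hA.card_eq] at h1
    have h2 := edn_odd_cycle_ge hb
    calc (b + 1) * edn X ≤ (b + 1) * X.indepNum := Nat.mul_le_mul_left _ h
      _ = X.indepNum * (b + 1) := mul_comm _ _
      _ ≤ X.indepNum * edn (SimpleGraph.cycleGraph (2 * b + 1)) := Nat.mul_le_mul_left _ h2
      _ ≤ _ := h1
  · have h1 := odd_cycle_bound hb X (by omega)
    have h2 : (b + 1) * edn X = b * edn X + edn X := by ring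
    rw [h2]
    omega

theorem red_le {G : SimpleGraph U} {S : Finset U} (h : Red G S) (X : SimpleGraph W)
    (hX : edn X ≤ X.indepNum + 1) :
    ednOn G S * edn X ≤ ednOn (G.boxProd X) (S ×ˢ (Finset.univ : Finset W)) := by
  induction h with
  | empty =>
    have h := ednOn_le_card G ∅
    rw [Finset.card_empty, Nat.le_zero] at h
    rw [h, zero_mul]
    exact Nat.zero_le _
  | ind S C I hCS hIC hI hN hC _ ih =>
    exact brick_step X hCS hIC hN hC (indep_brick G X I hI) ih
  | cyc S C b hb e he hCS hQC hN hC _ ih =>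
    refine brick_step (Q := Finset.univ.map e) X hCS ?_ ?_ hC (cyc_brick G X hX hb e he) ih
    · intro q hq
      obtain ⟨u, _, rfl⟩ := Finset.mem_map.1 hq
      exact hQC u
    · intro i hi v hv hadj
      obtain ⟨u, _, rfl⟩ := Finset.mem_map.1 hi
      exact hN u v hv hadj
  | mono S S' hS hle _ ih =>
    calc ednOn G S * edn X ≤ ednOn G S' * edn X := Nat.mul_le_mul_right _ hle
      _ ≤ ednOn (G.boxProd X) (S' ×ˢ (Finset.univ : Finset W)) := ih
      _ ≤ _ := ednOn_mono (Finset.product_subset_product_left hS)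

theorem red_main {G : SimpleGraph U} (h : Red G Finset.univ) (X : SimpleGraph W)
    (hX : edn X ≤ X.indepNum + 1) : edn G * edn X ≤ edn (G.boxProd X) := by
  have h1 := red_le h X hX
  rw [edn_eq_ednOn G, edn_eq_ednOn (G.boxProd X)]
  rw [Finset.univ_product_univ] at h1
  exact h1

end Pool.Agent.Lib.MP_56aee0_co.OC
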