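import Pool.Agent.Lib.MP_56aee0_co.OC.Stat
import Pool.Agent.Lib.MP_56aee0_co.OC.Layer

/-!
# OC / SSr : attacks in a row inside the region `SS I A`
-/

set_option autoImplicit false

namespace Pool.Agent.Lib.MP_56aee0_co.OC

open Pool.Agent.Lib.MP_56aee0_co

variable {U W : Type} [Fintype U] [DecidableEq U] [Fintype W] [DecidableEq W]

/-- the region `{(u, y) | u ∈ I ∨ y ∈ A}` -/
def SS (I : Finset U) (A : Finset W) : Finset (U × W) :=
  Finset.univ.filter fun p => p.1 ∈ I ∨ p.2 ∈ A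

/-- attack `(v, a)` in the region `SS I A`, `v ∉ I`: the answer comes from `(u, a)` with `G.Adj u v` (a guard on `(v, y)` with
`X.Adj y a` is not possible: `(v, y) ∈ SS I A` and `v ∉ I` give `y ∈ A`, against `hA`) -/
theorem row_attack_SS {G : SimpleGraph U} {X : SimpleGraph W} {I : Finset U} {A : Finset W}
    (hA : ∀ a ∈ A, ∀ b ∈ A, ¬ X.Adj a b)
    {F : Set (Finset (U × W))} {k : ℕ} (hF : Et (G.boxProd X) (SS I A) F k)
    {D : Finset (U × W)} (hD : D ∈ F) {v : U} {a : W} (ha : a ∈ A) (hvI : v ∉ I) (hv : (v, a) ∉ D) :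
    ∃ u, G.Adj u v ∧ (u, a) ∈ D ∧ insert (v, a) (D.erase (u, a)) ∈ F := by
  have hva : (v, a) ∈ SS I A := Finset.mem_filter.2 ⟨Finset.mem_univ _, Or.inr ha⟩
  obtain ⟨p, hp, hadj, hin⟩ := (hF D hD).2.2 (v, a) hva
  have hpS := (hF D hD).1 hp
  obtain ⟨u, y⟩ := p
  rcases hadj with h | h
  · rw [h] at hp
    exact absurd hp hv
  · rw [SimpleGraph.boxProd_adj] at h
    rcases h with ⟨h1, h2⟩ | ⟨h1, h2⟩
    · simp only at h1 h2
      subst h2
      exact ⟨u, h1, hp, hin⟩
    · simp only at h1 h2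
      subst h2
      rcases (Finset.mem_filter.1 hpS).2 with h3 | h3
      · exact absurd h3 hvI
      · exact absurd h1 (hA y h3 a ha)

/-- static inequality for a row in the region `SS I A`: `E` independent in `G`, disjoint from `I`; all guards of the row on
or next to `E` are in `R`. (`ednOn_le_nb` and `card_le_ednOn_of_indep` for `Z = E ×ˢ {a}`; a guard on `(e, y)` with
`X.Adj y a` is not possible as in `row_attack_SS`, so `nb (G □ X) Z D ⊆ R ×ˢ {a}`.) -/
theorem row_static_SS {G : SimpleGraph U} {X : SimpleGraph W} {I : Finset U} {A : Finset W}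
    (hA : ∀ a ∈ A, ∀ b ∈ A, ¬ X.Adj a b)
    {F : Set (Finset (U × W))} {k : ℕ} (hF : Et (G.boxProd X) (SS I A) F k)
    {D : Finset (U × W)} (hD : D ∈ F) {a : W} (ha : a ∈ A) (E R : Finset U)
    (hE : ∀ u ∈ E, ∀ v ∈ E, ¬ G.Adj u v) (hEI : ∀ e ∈ E, e ∉ I)
    (hR : ∀ u, (u, a) ∈ D → (u ∈ E ∨ ∃ e ∈ E, G.Adj u e) → u ∈ R) :
    E.card ≤ R.card := by
  have hZ : E ×ˢ {a} ⊆ SS I A := by
    intro p hp
    have h1 := Finset.mem_product.1 hp
    refine Finset.mem_filter.2 ⟨Finset.mem_univ _, Or.inr ?_⟩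
    rw [Finset.mem_singleton.1 h1.2]
    exact ha
  have h1 := ednOn_le_nb hF hD hZ
  have h2 : (E ×ˢ {a}).card ≤ ednOn (G.boxProd X) (E ×ˢ {a}) := by
    apply card_le_ednOn_of_indep
    intro p hp q hq hadj
    have hp' := Finset.mem_product.1 hp
    have hq' := Finset.mem_product.1 hq
    rw [SimpleGraph.boxProd_adj] at hadj
    rcases hadj with ⟨h3, -⟩ | ⟨h3, -⟩
    · exact hE _ hp'.1 _ hq'.1 h3
    · rw [Finset.mem_singleton.1 hp'.2, Finset.mem_singleton.1 hq'.2] at h3
      exact h3.ne rfl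
  have h3 : nb (G.boxProd X) (E ×ˢ {a}) D ⊆ R ×ˢ {a} := by
    intro p hp
    rw [mem_nb] at hp
    obtain ⟨hpD, z, hz, hpz⟩ := hp
    obtain ⟨u, y⟩ := p
    obtain ⟨e, b⟩ := z
    have hz' := Finset.mem_product.1 hz
    have hb : b = a := Finset.mem_singleton.1 hz'.2
    have he : e ∈ E := hz'.1
    subst hb
    have key : y = b ∧ (u ∈ E ∨ ∃ e ∈ E, G.Adj u e) := by
      rcases hpz with h | h
      · rw [Prod.mk.injEq] at h
        refine ⟨h.2, Or.inl ?_⟩
        rw [h.1]
        exact he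
      · rw [SimpleGraph.boxProd_adj] at h
        rcases h with ⟨h4, h5⟩ | ⟨h4, h5⟩
        · exact ⟨h5, Or.inr ⟨e, he, h4⟩⟩
        · exfalso
          simp only at h4 h5
          rcases (Finset.mem_filter.1 ((hF D hD).1 hpD)).2 with h6 | h6
          · simp only at h6
            rw [h5] at h6
            exact hEI e he h6
          · exact hA y h6 b ha h4
    obtain ⟨h4, h5⟩ := key
    subst h4
    exact Finset.mem_product.2 ⟨hR u hpD h5, Finset.mem_singleton_self _⟩
  have h4 := Finset.card_le_card h3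
  rw [Finset.card_product, Finset.card_singleton, mul_one] at h2 h4
  exact le_trans h2 (le_trans h1 h4)

end Pool.Agent.Lib.MP_56aee0_co.OC
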