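import Pool.Agent.Lib.MP_56aee0_co.OC.Max

/-!
# OC / Stat : the static inequality
-/

set_option autoImplicit false

namespace Pool.Agent.Lib.MP_56aee0_co.OC

open Pool.Agent.Lib.MP_56aee0_co

variable {V : Type} [DecidableEq V]

/-- Let `N` be the set of the vertices `p` with `p ∈ Z` or `p` adjacent to a vertex of `Z`. Let `R` be the set of the
states `D' ∈ F` with the same guards outside `N` as `D`. It is closed under attacks in `Z`: the answer `u` to the attack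
`v ∈ Z` lies in `N` and `v ∈ N`. By `exists_max_closed` (for `R`) and `et_of_closed`, `ednOn Γ Z ≤ c = |D1 ∩ Z|` for some
`D1 ∈ R`, and `|D1 ∩ Z| ≤ |nb Γ Z D1| = k - |D1 \ N| = k - |D \ N| = |nb Γ Z D|`. -/
theorem ednOn_le_nb {Γ : SimpleGraph V} {S Z : Finset V} {F : Set (Finset V)} {k : ℕ}
    (hF : Et Γ S F k) {D : Finset V} (hD : D ∈ F) (hZ : Z ⊆ S) :
    ednOn Γ Z ≤ (nb Γ Z D).card := by
  classical
  have key : ∀ E ∈ {E : Finset V | E ∈ F ∧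
      ∀ p, ¬ (∃ z ∈ Z, p = z ∨ Γ.Adj p z) → (p ∈ E ↔ p ∈ D)}, E.card = k ∧
      ∀ v ∈ Z, ∃ u ∈ E, (u = v ∨ Γ.Adj u v) ∧ insert v (E.erase u) ∈
        {E : Finset V | E ∈ F ∧ ∀ p, ¬ (∃ z ∈ Z, p = z ∨ Γ.Adj p z) → (p ∈ E ↔ p ∈ D)} := by
    rintro E ⟨hEF, hE⟩
    obtain ⟨-, hc, ha⟩ := hF E hEF
    refine ⟨hc, fun v hv => ?_⟩
    obtain ⟨u, huE, huv, hu⟩ := ha v (hZ hv)
    refine ⟨u, huE, huv, hu, fun p hp => ?_⟩
    have h1 : p ≠ v := by
      rintro rfl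
      exact hp ⟨p, hv, Or.inl rfl⟩
    have h2 : p ≠ u := by
      rintro rfl
      exact hp ⟨v, hv, huv⟩
    rw [Finset.mem_insert, Finset.mem_erase]
    constructor
    · rintro (h | ⟨-, h⟩)
      · exact absurd h h1
      · exact (hE p hp).1 h
    · intro h
      exact Or.inr ⟨h2, (hE p hp).2 h⟩
  obtain ⟨F1, hF1, ⟨D1, hD1⟩, c, hc⟩ := exists_max_closed key ⟨D, hD, fun p _ => Iff.rfl⟩
  have h0 : ({Y : Finset V | ∃ E ∈ F1, Y = E ∩ Z} : Set (Finset V)).Nonempty :=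
    ⟨D1 ∩ Z, D1, hD1, rfl⟩
  have h1 : ednOn Γ Z ≤ c := ednOn_le h0 (et_of_closed hc)
  have h2 : (D1 ∩ Z).card ≤ (nb Γ Z D1).card := by
    refine Finset.card_le_card fun p hp => ?_
    rw [Finset.mem_inter] at hp
    exact mem_nb.2 ⟨hp.1, p, hp.2, Or.inl rfl⟩
  have h3 : (nb Γ Z D1).card = (nb Γ Z D).card := by
    have e1 := Finset.card_filter_add_card_filter_not (s := D1)
      (fun p => ∃ z ∈ Z, p = z ∨ Γ.Adj p z)
    have e2 := Finset.card_filter_add_card_filter_not (s := D)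
      (fun p => ∃ z ∈ Z, p = z ∨ Γ.Adj p z)
    have e3 : D1.filter (fun p => ¬ (∃ z ∈ Z, p = z ∨ Γ.Adj p z)) =
        D.filter (fun p => ¬ (∃ z ∈ Z, p = z ∨ Γ.Adj p z)) := by
      ext p
      rw [Finset.mem_filter, Finset.mem_filter]
      constructor
      · rintro ⟨ha, hb⟩
        exact ⟨((hF1 hD1).2 p hb).1 ha, hb⟩
      · rintro ⟨ha, hb⟩
        exact ⟨((hF1 hD1).2 p hb).2 ha, hb⟩
    have e4 : D1.card = D.card := by
      rw [(hF D1 (hF1 hD1).1).2.1, (hF D hD).2.1]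
    rw [e3] at e1
    have e5 : (D1.filter (fun p => ∃ z ∈ Z, p = z ∨ Γ.Adj p z)).card =
        (D.filter (fun p => ∃ z ∈ Z, p = z ∨ Γ.Adj p z)).card := by omega
    have e6 : ∀ E : Finset V, nb Γ Z E = E.filter (fun p => ∃ z ∈ Z, p = z ∨ Γ.Adj p z) := by
      intro E
      ext p
      rw [mem_nb, Finset.mem_filter]
    rw [e6, e6]
    exact e5
  have h4 := (hc D1 hD1).1
  omega

end Pool.Agent.Lib.MP_56aee0_co.OC
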